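import Pool.Agent.Lib.P6aeb5f.Topo

/-!
Abstract interface of the iteration algebra.
-/

open Set Classical

namespace Pool.Agent.Lib.P6aeb5f

section defs

variable {L : Type} [LinearOrder L] {B : Type} [CompleteBooleanAlgebra B]

/-- `N` is a promise at `c` with bound `l`. -/
def IsProm (BD : Set L → Set B) (c : L) (N : ℕ → ℕ → B) (l : ℕ) : Prop :=
  (∀ n m, N n m ∈ BD (Iio c)) ∧ ∀ n (S : Finset ℕ), l < S.card → S.sup (N n) = ⊤

/-- Conditions. -/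
structure CD (BD : Set L → Set B) where
  dom : Finset L
  stem : L → Stem
  prom : L → ℕ → ℕ → B
  bd : L → ℕ
  ok : ∀ c, IsProm BD c (prom c) (bd c)

variable {BD : Set L → Set B}

/-- Boolean value of a condition. -/
def CD.val (loc : L → Stem → (ℕ → ℕ → B) → B) (p : CD BD) : B :=
  p.dom.inf (fun c => loc c (p.stem c) (p.prom c))

/-- Restriction. -/
noncomputable def CD.res (p : CD BD) (D : Set L) : CD BD := { p with dom := p.dom.filter (· ∈ D) }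

/-- Order of conditions. -/
def CD.Le (loc : L → Stem → (ℕ → ℕ → B) → B) (q p : CD BD) : Prop :=
  p.dom ⊆ q.dom ∧ ∀ c ∈ p.dom, (p.stem c).Le (q.stem c) ∧
    (∀ n m, q.prom c n m ≤ p.prom c n m) ∧
    ∀ n, (p.stem c).len ≤ n → n < (q.stem c).len →
      (q.res (Iio c)).val loc ≤ p.prom c n ((q.stem c).val n)

/-- The abstract properties of the iteration algebra. -/
structure IsIter (BD : Set L → Set B) (loc : L → Stem → (ℕ → ℕ → B) → B)
    (cyl : L → ℕ → ℕ → B) : Prop where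
  BD_mono : ∀ {D D' : Set L}, D ⊆ D' → BD D ⊆ BD D'
  BD_univ : ∀ x, x ∈ BD univ
  BD_compl : ∀ {D : Set L}, IsLowerSet D → ∀ {x}, x ∈ BD D → xᶜ ∈ BD D
  BD_sSup : ∀ {D : Set L}, IsLowerSet D → ∀ {S : Set B}, (∀ x ∈ S, x ∈ BD D) → sSup S ∈ BD D
  loc_mem : ∀ {D : Set L} {c : L} {s N l}, IsLowerSet D → c ∈ D → IsProm BD c N l →
    loc c s N ∈ BD D
  loc_inf : ∀ c s N N', loc c s N ⊓ loc c s N' = loc c s (fun n m => N n m ⊓ N' n m)
  loc_ext : ∀ {c s s' N N' x}, Stem.Le s s' →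
    (∀ n, s.len ≤ n → n < s'.len → x ≤ N n (s'.val n)) → (∀ n m, N' n m ≤ N n m) →
    x ⊓ loc c s' N' ≤ loc c s N
  tail : ∀ {D : Set L} {x : B} (t : CD BD), IsLowerSet D → x ∈ BD D → x ≠ ⊥ →
    (∀ c ∈ t.dom, c ∉ D) → x ⊓ t.val loc ≠ ⊥
  dense : ∀ {x : B} (t : CD BD), x ≠ ⊥ → x ≤ t.val loc → ∃ p : CD BD, p.Le loc t ∧ p.val loc ≤ x
  cyl_sup : ∀ c n, ⨆ m, cyl c n m = ⊤
  cyl_disj : ∀ c n m m', m ≠ m' → cyl c n m ⊓ cyl c n m' = ⊥
  cyl_mem : ∀ {D : Set L} {c : L} {n m}, IsLowerSet D → c ∈ D → cyl c n m ∈ BD D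
  loc_le_cyl : ∀ {c s N n}, n < s.len → loc c s N ≤ cyl c n (s.val n)
  loc_cyl : ∀ {c s N n m}, s.len ≤ n → loc c s N ⊓ cyl c n m ≤ N n m

end defs

end Pool.Agent.Lib.P6aeb5f
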