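import Pool.Agent.Lib.P6aeb5f.KL

/-!
Delta-systems and the countable chain condition.
-/

open Set Classical

namespace Pool.Agent.Lib.P6aeb5f

/-! ### Uncountable sets -/

theorem pigeonhole {ι C : Type*} [Countable C] {I : Set ι} (hI : ¬ I.Countable) (f : ι → C) :
    ∃ c, ¬ {i | i ∈ I ∧ f i = c}.Countable := by
  by_contra hcon
  push Not at hcon
  apply hI
  have : I = ⋃ c, {i | i ∈ I ∧ f i = c} := by
    ext i
    simp
  rw [this]
  exact countable_iUnion hcon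

theorem delta_aux {α : Type*} [DecidableEq α] (n : ℕ) : ∀ {ι : Type} (F : ι → Finset α) (I : Set ι),
    ¬ I.Countable → (∀ i ∈ I, (F i).card = n) →
    ∃ J ⊆ I, ¬ J.Countable ∧ ∃ R : Finset α, (∀ i ∈ J, R ⊆ F i) ∧
      ∀ i ∈ J, ∀ j ∈ J, i ≠ j → F i ∩ F j ⊆ R := by
  induction n with
  | zero =>
    intro ι F I hI hF
    refine ⟨I, Subset.rfl, hI, ∅, by simp, fun i hi j hj _ => ?_⟩
    rw [Finset.card_eq_zero.1 (hF i hi)]
    simp
  | succ n ih =>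
    intro ι F I hI hF
    by_cases hcase : ∃ a, ¬ {i | i ∈ I ∧ a ∈ F i}.Countable
    · obtain ⟨a, ha⟩ := hcase
      obtain ⟨J, hJ, hJc, R, hR1, hR2⟩ := ih (fun i => (F i).erase a) _ ha (fun i hi => by
        rw [Finset.card_erase_of_mem hi.2, hF i hi.1]; rfl)
      refine ⟨J, fun i hi => (hJ hi).1, hJc, insert a R, fun i hi => ?_, fun i hi j hj hij => ?_⟩
      · intro x hx
        rcases Finset.mem_insert.1 hx with rfl | hx
        · exact (hJ hi).2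
        · exact Finset.mem_of_mem_erase (hR1 i hi hx)
      · intro x hx
        rw [Finset.mem_inter] at hx
        by_cases hxa : x = a
        · exact Finset.mem_insert.2 (Or.inl hxa)
        · refine Finset.mem_insert_of_mem (hR2 i hi j hj hij ?_)
          rw [Finset.mem_inter, Finset.mem_erase, Finset.mem_erase]
          exact ⟨⟨hxa, hx.1⟩, hxa, hx.2⟩
    · push Not at hcase
      obtain ⟨J, hJmax⟩ := zorn_subset {J : Set ι | J ⊆ I ∧ ∀ i ∈ J, ∀ j ∈ J, i ≠ j →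
          F i ∩ F j ⊆ ∅} (by
        intro c hc hchain
        refine ⟨⋃₀ c, ⟨sUnion_subset fun s hs => (hc hs).1, ?_⟩, fun s hs => subset_sUnion_of_mem hs⟩
        rintro i ⟨s, hs, his⟩ j ⟨s', hs', hjs'⟩ hij
        rcases hchain.total hs hs' with h | h
        · exact (hc hs').2 i (h his) j hjs' hij
        · exact (hc hs).2 i his j (h hjs') hij)
      have hJ := hJmax.1
      refine ⟨J, hJ.1, ?_, ∅, by simp, hJ.2⟩
      intro hJc
      have h1 : (⋃ j ∈ J, ⋃ a ∈ F j, {i | i ∈ I ∧ a ∈ F i}).Countable := by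
        refine hJc.biUnion fun j _ => ?_
        refine ((F j).countable_toSet).biUnion fun a _ => hcase a
      have h2 : ¬ I ⊆ J ∪ (⋃ j ∈ J, ⋃ a ∈ F j, {i | i ∈ I ∧ a ∈ F i}) := fun h =>
        hI ((hJc.union h1).mono h)
      obtain ⟨i, hi, hi2⟩ := not_subset.1 h2
      rw [mem_union, not_or] at hi2
      have hdis : ∀ j ∈ J, F i ∩ F j ⊆ ∅ := by
        intro j hj x hx
        rw [Finset.mem_inter] at hx
        exact absurd (mem_biUnion hj (mem_biUnion (show x ∈ (F j : Set α) from hx.2)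
          (show i ∈ {i | i ∈ I ∧ x ∈ F i} from ⟨hi, hx.1⟩))) hi2.2
      have h3 : insert i J ∈ {J : Set ι | J ⊆ I ∧ ∀ i ∈ J, ∀ j ∈ J, i ≠ j → F i ∩ F j ⊆ ∅} := by
        refine ⟨insert_subset hi hJ.1, ?_⟩
        rintro x (rfl | hx) y (rfl | hy) hxy
        · exact absurd rfl hxy
        · exact hdis y hy
        · rw [Finset.inter_comm]; exact hdis x hx
        · exact hJ.2 x hx y hy hxy
      exact hi2.1 (hJmax.2 h3 (subset_insert i J) (mem_insert i J))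

theorem delta_system {α : Type*} [DecidableEq α] {ι : Type} (F : ι → Finset α) {I : Set ι}
    (hI : ¬ I.Countable) :
    ∃ J ⊆ I, ¬ J.Countable ∧ ∃ R : Finset α, (∀ i ∈ J, R ⊆ F i) ∧
      ∀ i ∈ J, ∀ j ∈ J, i ≠ j → F i ∩ F j ⊆ R := by
  obtain ⟨n, hn⟩ := pigeonhole hI (fun i => (F i).card)
  obtain ⟨J, hJ, h⟩ := delta_aux n F _ hn (fun i hi => hi.2)
  exact ⟨J, fun i hi => (hJ hi).1, h⟩

variable {L : Type} [LinearOrder L] {B : Type} [CompleteBooleanAlgebra B]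
variable {BD : Set L → Set B} {loc : L → Stem → (ℕ → ℕ → B) → B} {cyl : L → ℕ → ℕ → B}

/-- A Delta-system of conditions. -/
structure IsDelta {ι : Type} (J : Set ι) (t : ι → CD BD) (d : Finset L) (s : L → Stem)
    (l : L → ℕ) : Prop where
  sub : ∀ i ∈ J, d ⊆ (t i).dom
  data : ∀ i ∈ J, ∀ c ∈ d, (t i).stem c = s c ∧ (t i).bd c = l c
  inter : ∀ i ∈ J, ∀ j ∈ J, i ≠ j → (t i).dom ∩ (t j).dom ⊆ d

theorem IsDelta.mono {ι : Type} {J J' : Set ι} {t : ι → CD BD} {d : Finset L} {s : L → Stem}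
    {l : L → ℕ} (h : IsDelta J t d s l) (hJ : J' ⊆ J) : IsDelta J' t d s l :=
  ⟨fun i hi => h.sub i (hJ hi), fun i hi => h.data i (hJ hi),
    fun i hi j hj => h.inter i (hJ hi) j (hJ hj)⟩

theorem thin {ι : Type} {I : Set ι} (hI : ¬ I.Countable) (t : ι → CD BD) {C : Type*}
    [Countable C] (f : ι → C) :
    ∃ J ⊆ I, ¬ J.Countable ∧ (∃ k, ∀ i ∈ J, f i = k) ∧ ∃ d s l, IsDelta J t d s l := by
  obtain ⟨J1, h1, h2, d, h3, h4⟩ := delta_system (fun i => (t i).dom) hI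
  obtain ⟨k, hk⟩ := pigeonhole h2 f
  obtain ⟨g, hg⟩ := pigeonhole hk
    (fun i => fun c : d => (((t i).stem c.1, (t i).bd c.1) : Stem × ℕ))
  refine ⟨_, ?_, hg, ⟨k, fun i hi => hi.1.2⟩, d,
    fun c => if h : c ∈ d then (g ⟨c, h⟩).1 else Stem.emp,
    fun c => if h : c ∈ d then (g ⟨c, h⟩).2 else 0, ⟨fun i hi => h3 i hi.1.1, ?_, ?_⟩⟩
  · exact fun i hi => h1 hi.1.1
  · intro i hi c hc
    simp only [hc, dif_pos]
    have := congrFun hi.2 ⟨c, hc⟩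
    simp only at this
    rw [← this]
    exact ⟨rfl, rfl⟩
  · exact fun i hi j hj hij => h4 i hi.1.1 j hj.1.1 hij

namespace IsIter

variable (H : IsIter BD loc cyl)
include H

theorem delta_comb_right {ι : Type} {J : Set ι} {t : ι → CD BD} {d : Finset L} {s : L → Stem}
    {l : L → ℕ} (h : IsDelta J t d s l) {i j : ι} (hi : i ∈ J) (hj : j ∈ J) (hij : i ≠ j) :
    (H.comb (t i) (t j)).val loc ≤ (t j).val loc := by
  refine H.comb_val_le_right _ _ fun c hc hc' => ?_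
  have hcd : c ∈ d := h.inter i hi j hj hij (Finset.mem_inter.2 ⟨hc', hc⟩)
  rw [(h.data i hi c hcd).1, (h.data j hj c hcd).1]

/-- The countable chain condition. -/
theorem ccc {ι : Type} {I : Set ι} (hI : ¬ I.Countable) (x : ι → B) (hx : ∀ i ∈ I, x i ≠ ⊥) :
    ∃ i ∈ I, ∃ j ∈ I, i ≠ j ∧ x i ⊓ x j ≠ ⊥ := by
  have hch : ∀ i : ι, ∃ p : CD BD, i ∈ I → p.val loc ≤ x i := by
    intro i
    by_cases hi : i ∈ I
    · obtain ⟨p, _, hp⟩ := H.dense H.triv (hx i hi) (by rw [H.val_triv]; exact le_top)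
      exact ⟨p, fun _ => hp⟩
    · exact ⟨H.triv, fun h => absurd h hi⟩
  choose p hp using hch
  obtain ⟨J, hJ, hJc, _, d, s, l, hd⟩ := thin hI p (fun _ => ())
  have h1 : ∃ i ∈ J, ∃ j ∈ J, i ≠ j := by
    by_contra hcon
    push Not at hcon
    apply hJc
    have : J.Subsingleton := fun i hi j hj => hcon i hi j hj
    exact this.countable
  obtain ⟨i, hi, j, hj, hij⟩ := h1
  refine ⟨i, hJ hi, j, hJ hj, hij, ?_⟩
  have : Nontrivial B := ⟨x i, ⊥, hx i (hJ hi)⟩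
  refine ne_bot_mono (le_inf ?_ ?_) (H.val_ne_bot (H.comb (p i) (p j)))
  · exact (H.comb_val_le_left _ _).trans (hp i (hJ hi))
  · exact (H.delta_comb_right hd hi hj hij).trans (hp j (hJ hj))

end IsIter

/-- Abstract countable chain condition. -/
def CCC (B : Type) [CompleteBooleanAlgebra B] : Prop :=
  ∀ I : Set B, (∀ x ∈ I, x ≠ ⊥) → (∀ x ∈ I, ∀ y ∈ I, x ≠ y → x ⊓ y = ⊥) → I.Countable

theorem IsIter.CCC (H : IsIter BD loc cyl) : CCC B := by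
  intro I h1 h2
  by_contra hcon
  obtain ⟨x, hx, y, hy, hxy, hne⟩ := H.ccc hcon (fun x => x) h1
  exact hne (h2 x hx y hy hxy)

theorem ccc_iSup (hC : CCC B) {ι : Type*} (x : ι → B) :
    ∃ C : Set ι, C.Countable ∧ ⨆ i ∈ C, x i = ⨆ i, x i := by
  obtain ⟨I, hImax⟩ := zorn_subset {I : Set B | (∀ y ∈ I, y ≠ ⊥ ∧ ∃ i, y ≤ x i) ∧
      ∀ y ∈ I, ∀ z ∈ I, y ≠ z → y ⊓ z = ⊥} (by
    intro c hc hchain
    refine ⟨⋃₀ c, ⟨?_, ?_⟩, fun s hs => subset_sUnion_of_mem hs⟩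
    · rintro y ⟨s, hs, hy⟩
      exact (hc hs).1 y hy
    · rintro y ⟨s, hs, hys⟩ z ⟨s', hs', hzs'⟩ hyz
      rcases hchain.total hs hs' with h | h
      · exact (hc hs').2 y (h hys) z hzs' hyz
      · exact (hc hs).2 y hys z (h hzs') hyz)
  obtain ⟨hI1, hI2⟩ := hImax.1
  have hIc : I.Countable := hC I (fun y hy => (hI1 y hy).1) hI2
  have hch : ∀ y : I, ∃ i, y.1 ≤ x i := fun y => (hI1 y.1 y.2).2
  choose g hg using hch
  have : Countable I := hIc.to_subtype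
  refine ⟨range g, countable_range g, le_antisymm (iSup₂_le fun i _ => le_iSup x i) ?_⟩
  by_contra hcon
  have h1 : ∃ i, ¬ x i ≤ ⨆ i ∈ range g, x i := by
    by_contra h
    push Not at h
    exact hcon (iSup_le h)
  obtain ⟨i, hi⟩ := h1
  set w := x i ⊓ (⨆ i ∈ range g, x i)ᶜ with hw
  have hwne : w ≠ ⊥ := by
    intro h2
    exact hi (by rwa [hw, ← disjoint_iff, disjoint_compl_right_iff] at h2)
  have hwd : ∀ y ∈ I, w ⊓ y = ⊥ := by
    intro y hy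
    rw [← le_bot_iff]
    have h2 : y ≤ ⨆ i ∈ range g, x i :=
      (hg ⟨y, hy⟩).trans (le_iSup₂_of_le (g ⟨y, hy⟩) (mem_range_self _) le_rfl)
    calc w ⊓ y ≤ (⨆ i ∈ range g, x i)ᶜ ⊓ ⨆ i ∈ range g, x i := inf_le_inf inf_le_right h2
      _ = ⊥ := compl_inf_self _
      _ ≤ ⊥ := le_rfl
  have h3 : insert w I ∈ {I : Set B | (∀ y ∈ I, y ≠ ⊥ ∧ ∃ i, y ≤ x i) ∧
      ∀ y ∈ I, ∀ z ∈ I, y ≠ z → y ⊓ z = ⊥} := by
    refine ⟨?_, ?_⟩
    · rintro y (rfl | hy)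
      · exact ⟨hwne, i, inf_le_left⟩
      · exact hI1 y hy
    · rintro y (rfl | hy) z (rfl | hz) hyz
      · exact absurd rfl hyz
      · exact hwd z hz
      · rw [inf_comm]; exact hwd y hy
      · exact hI2 y hy z hz hyz
  have h4 : w ∈ I := hImax.2 h3 (subset_insert w I) (mem_insert w I)
  have h5 := hwd w h4
  rw [inf_idem] at h5
  exact hwne h5

theorem ccc_iInf (hC : CCC B) {ι : Type*} (x : ι → B) :
    ∃ C : Set ι, C.Countable ∧ ⨅ i ∈ C, x i = ⨅ i, x i := by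
  obtain ⟨C, h1, h2⟩ := ccc_iSup hC (fun i => (x i)ᶜ)
  refine ⟨C, h1, ?_⟩
  have h3 := congrArg compl h2
  simpa [compl_iSup] using h3

theorem ccc_iSup_subset (hC : CCC B) {ι : Type*} (x : ι → B) (J : Set ι) :
    ∃ C ⊆ J, C.Countable ∧ ⨆ i ∈ C, x i = ⨆ i ∈ J, x i := by
  obtain ⟨C, h1, h2⟩ := ccc_iSup hC (fun i : J => x i)
  refine ⟨(↑) '' C, ?_, h1.image _, ?_⟩
  · rintro _ ⟨i, _, rfl⟩
    exact i.2
  · rw [iSup_image, h2, iSup_subtype]

/-- essential upper limit of an uncountable family -/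
noncomputable def elim {ι : Type*} (J : Set ι) (x : ι → B) : B :=
  ⨅ C : {C : Set ι // C.Countable}, ⨆ i ∈ J \ C.1, x i

theorem elim_le {ι : Type*} (J : Set ι) (x : ι → B) {C : Set ι} (hC : C.Countable) :
    elim J x ≤ ⨆ i ∈ J \ C, x i := iInf_le (fun C : {C : Set ι // C.Countable} =>
      ⨆ i ∈ J \ C.1, x i) ⟨C, hC⟩

theorem le_elim {ι : Type*} {J : Set ι} {x : ι → B} {y : B}
    (h : ∀ C : Set ι, C.Countable → y ≤ ⨆ i ∈ J \ C, x i) : y ≤ elim J x :=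
  le_iInf fun C => h C.1 C.2

theorem elim_attained (hC : CCC B) {ι : Type*} (J : Set ι) (x : ι → B) :
    ∃ C : Set ι, C.Countable ∧ elim J x = ⨆ i ∈ J \ C, x i := by
  obtain ⟨E, h1, h2⟩ := ccc_iInf hC (fun C : {C : Set ι // C.Countable} => ⨆ i ∈ J \ C.1, x i)
  have h3 : (⋃ C ∈ E, C.1).Countable := h1.biUnion fun C _ => C.2
  refine ⟨_, h3, le_antisymm (elim_le J x h3) ?_⟩
  unfold elim
  rw [← h2]
  refine le_iInf₂ fun C hCE => ?_
  refine iSup₂_le fun i hi => le_iSup₂_of_le i ⟨hi.1, fun hiC => hi.2 ?_⟩ le_rfl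
  exact mem_biUnion hCE hiC

theorem elim_ne_bot (hC : CCC B) {ι : Type*} {J : Set ι} (hJ : ¬ J.Countable) {x : ι → B}
    (hx : ∀ i ∈ J, x i ≠ ⊥) : elim J x ≠ ⊥ := by
  obtain ⟨C, h1, h2⟩ := elim_attained hC J x
  rw [h2]
  have h3 : ∃ i, i ∈ J \ C := by
    by_contra hcon
    push Not at hcon
    refine hJ (h1.mono fun i hi => ?_)
    by_contra h
    exact hcon i ⟨hi, h⟩
  obtain ⟨i, hi⟩ := h3
  exact ne_bot_mono (le_iSup₂_of_le i hi le_rfl) (hx i hi.1)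

/-- Disjoint refinement of a family along a well-order. -/
theorem disjointify {ι : Type*} (x : ι → B) : ∃ a : ι → B, (∀ i, a i ≤ x i) ∧
    (∀ i j, i ≠ j → a i ⊓ a j = ⊥) ∧ (⨆ i, a i = ⨆ i, x i) ∧
    ∀ S : Set B, (∀ y ∈ S, yᶜ ∈ S) → (∀ y ∈ S, ∀ z ∈ S, y ⊓ z ∈ S) →
      (∀ T : Set B, T ⊆ S → sSup T ∈ S) → (∀ i, x i ∈ S) → ∀ i, a i ∈ S := by
  set r : ι → ι → Prop := WellOrderingRel with hr
  have hwo : IsWellOrder ι r := WellOrderingRel.isWellOrder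
  set a : ι → B := fun i => x i ⊓ (⨆ j : {j // r j i}, x j)ᶜ with ha
  have hdis : ∀ i j, r i j → a i ⊓ a j = ⊥ := by
    intro i j hij
    rw [← le_bot_iff]
    have h1 : a i ≤ ⨆ k : {k // r k j}, x k :=
      inf_le_left.trans (le_iSup (fun k : {k // r k j} => x k) ⟨i, hij⟩)
    calc a i ⊓ a j ≤ (⨆ k : {k // r k j}, x k) ⊓ (⨆ k : {k // r k j}, x k)ᶜ :=
          inf_le_inf h1 inf_le_right
      _ = ⊥ := inf_compl_self _
      _ ≤ ⊥ := le_rfl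
  refine ⟨a, fun i => inf_le_left, fun i j hij => ?_, ?_, ?_⟩
  · rcases trichotomous_of r i j with h | h | h
    · exact hdis i j h
    · exact absurd h hij
    · rw [inf_comm]; exact hdis j i h
  · refine le_antisymm (iSup_mono fun i => inf_le_left) (iSup_le fun i => ?_)
    refine hwo.wf.induction (C := fun i => x i ≤ ⨆ i, a i) i (fun i ih => ?_)
    have h1 : x i ≤ a i ⊔ ⨆ j : {j // r j i}, x j := by
      rw [ha]
      simp only
      rw [sup_inf_right, sup_comm _ᶜ, sup_compl_eq_top, inf_top_eq]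
      exact le_sup_left
    exact h1.trans (sup_le (le_iSup a i) (iSup_le fun j => ih j.1 j.2))
  · intro S hS1 hS2 hS3 hx i
    refine hS2 _ (hx i) _ (hS1 _ (hS3 _ ?_))
    rintro _ ⟨j, rfl⟩
    exact hx j

/-- Disjoint countable blocks for countably many essential limits. -/
theorem exists_blocks (hC : CCC B) {ι : Type*} (J : Set ι) (x : ℕ → ι → B) :
    ∃ G : ℕ → Set ι, (∀ b, G b ⊆ J) ∧ (∀ b b', b ≠ b' → Disjoint (G b) (G b')) ∧
      ∀ b, elim J (x b) ≤ ⨆ i ∈ G b, x b i := by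
  have hstep : ∀ (b : ℕ) (E : {E : Set ι // E.Countable}), ∃ G : Set ι, G ⊆ J \ E.1 ∧
      G.Countable ∧ elim J (x b) ≤ ⨆ i ∈ G, x b i := by
    intro b E
    obtain ⟨G, h1, h2, h3⟩ := ccc_iSup_subset hC (x b) (J \ E.1)
    exact ⟨G, h1, h2, h3 ▸ elim_le J (x b) E.2⟩
  choose g hg1 hg2 hg3 using hstep
  let E : ℕ → {E : Set ι // E.Countable} :=
    fun n => Nat.rec ⟨∅, countable_empty⟩ (fun b E => ⟨E.1 ∪ g b E, E.2.union (hg2 b E)⟩) n
  have hE : ∀ b, (E (b + 1)).1 = (E b).1 ∪ g b (E b) := fun b => rfl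
  have hmono : ∀ b b', b ≤ b' → (E b).1 ⊆ (E b').1 := by
    intro b b' h
    induction b', h using Nat.le_induction with
    | base => exact Subset.rfl
    | succ b' _ ih => rw [hE]; exact ih.trans subset_union_left
  have hdis : ∀ b b', b < b' → Disjoint (g b (E b)) (g b' (E b')) := by
    intro b b' h
    rw [Set.disjoint_left]
    intro i hi hi'
    refine (hg1 b' (E b') hi').2 (hmono (b + 1) b' h ?_)
    rw [hE]
    exact Or.inr hi
  refine ⟨fun b => g b (E b), fun b => (hg1 b (E b)).trans sdiff_subset, fun b b' h => ?_,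
    fun b => hg3 b (E b)⟩
  rcases lt_or_gt_of_ne h with h | h
  · exact hdis b b' h
  · exact (hdis b' b h).symm

namespace IsIter

variable (H : IsIter BD loc cyl)
include H

/-- The limit lemma for Delta-systems. -/
theorem KLe {D : Set L} (hD : IsLowerSet D) {ι V : Type} {J : Set ι} {t : ι → CD BD}
    {d : Finset L} {s : L → Stem} {l : L → ℕ} (hd : IsDelta J t d s l)
    (htD : ∀ i ∈ J, ∀ c ∈ (t i).dom, c ∉ D)
    (t' : ι → V → CD BD) (ht'd : ∀ i v, (t' i v).dom = (t i).dom)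
    (ht's : ∀ i v, ∀ c ∈ d, (t' i v).stem c = (t i).stem c ∧ (t' i v).bd c = (t i).bd c)
    (x : ℕ → ι → V → B) (hx : ∀ b i v, x b i v ∈ BD D) {u : B} (hu : u ∈ BD D)
    (hlim : ∀ b, u ≤ elim J (fun i => ⨆ v, x b i v)) (hdD : ∀ c ∈ d, c ∉ D) :
    ∃ r : CD BD, r.dom = d ∧ (∀ c ∈ d, r.stem c = s c) ∧
      ∀ y, y ≠ ⊥ → y ≤ u ⊓ r.val loc → ∀ N, ∃ b, N ≤ b ∧ ∃ i ∈ J, ∃ v,
        y ⊓ x b i v ⊓ (t' i v).val loc ≠ ⊥ := by
  obtain ⟨G, hG1, hG2, hG3⟩ := exists_blocks H.CCC J (fun b i => ⨆ v, x b i v)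
  have hdj : ∀ b, ∃ a : G b × V → B, (∀ γ, a γ ≤ x b γ.1.1 γ.2) ∧
      (∀ γ γ', γ ≠ γ' → a γ ⊓ a γ' = ⊥) ∧
      (⨆ γ, a γ = ⨆ γ : G b × V, x b γ.1.1 γ.2) ∧ ∀ γ, a γ ∈ BD D := by
    intro b
    obtain ⟨a, h1, h2, h3, h4⟩ := disjointify (fun γ : G b × V => x b γ.1.1 γ.2)
    refine ⟨a, h1, h2, h3, h4 (BD D) (fun y hy => H.BD_compl hD hy)
      (fun y hy z hz => H.BD_inf hD hy hz) (fun T hT => H.BD_sSup hD hT) (fun γ => hx _ _ _)⟩
  choose a ha1 ha2 ha3 ha4 using hdj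
  have hlim' : u ≤ lim (fun b => ⨆ γ, a b γ) := by
    rw [le_lim_iff]
    intro N
    refine le_iSup₂_of_le N le_rfl ?_
    rw [ha3]
    refine ((hlim N).trans (hG3 N)).trans (iSup₂_le fun i hi => iSup_le fun v => ?_)
    exact le_iSup (fun γ : G N × V => x N γ.1.1 γ.2) (⟨i, hi⟩, v)
  obtain ⟨r, hr1, hr2, hr3⟩ := H.KL hD (ι := fun b => G b × V) a ha4 ha2 hu hlim' l s d hdD
    (fun b γ => t' γ.1.1 γ.2)
    (fun b γ c hc => by
      rw [ht'd] at hc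
      exact htD _ (hG1 b γ.1.2) c hc)
    (fun b γ => by
      rw [ht'd]
      exact hd.sub _ (hG1 b γ.1.2))
    (fun b γ c hc => by
      obtain ⟨h1, h2⟩ := ht's γ.1.1 γ.2 c hc
      obtain ⟨h3, h4⟩ := hd.data _ (hG1 b γ.1.2) c hc
      rw [h1, h2]
      exact ⟨h3, h4.le⟩)
    (fun c hc => by
      refine Set.Subsingleton.finite ?_
      rintro b ⟨γ, hγ⟩ b' ⟨γ', hγ'⟩
      rw [ht'd] at hγ hγ'
      by_contra hbb
      have hne : γ.1.1 ≠ γ'.1.1 := by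
        intro h
        exact Set.disjoint_left.1 (hG2 b b' hbb) γ.1.2 (h ▸ γ'.1.2)
      exact hc (hd.inter _ (hG1 b γ.1.2) _ (hG1 b' γ'.1.2) hne (Finset.mem_inter.2 ⟨hγ, hγ'⟩)))
  refine ⟨r, hr1, hr2, fun y hy hyu N => ?_⟩
  obtain ⟨b, hb, γ, hγ⟩ := hr3 y hy hyu N
  exact ⟨b, hb, γ.1.1, hG1 b γ.1.2, γ.2,
    ne_bot_mono (inf_le_inf_right _ (inf_le_inf_left _ (ha1 b γ))) hγ⟩

/-- Simple version. -/
theorem KLs {D : Set L} (hD : IsLowerSet D) {ι : Type} {J : Set ι} {t : ι → CD BD}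
    {d : Finset L} {s : L → Stem} {l : L → ℕ} (hd : IsDelta J t d s l)
    (htD : ∀ i ∈ J, ∀ c ∈ (t i).dom, c ∉ D)
    (x : ℕ → ι → B) (hx : ∀ b i, x b i ∈ BD D) {u : B} (hu : u ∈ BD D)
    (hlim : ∀ b, u ≤ elim J (x b)) (hdD : ∀ c ∈ d, c ∉ D) :
    ∃ r : CD BD, r.dom = d ∧ (∀ c ∈ d, r.stem c = s c) ∧
      ∀ y, y ≠ ⊥ → y ≤ u ⊓ r.val loc → ∀ N, ∃ b, N ≤ b ∧ ∃ i ∈ J,
        y ⊓ x b i ⊓ (t i).val loc ≠ ⊥ := by
  obtain ⟨r, h1, h2, h3⟩ := H.KLe hD hd htD (V := Unit) (fun i _ => t i) (fun _ _ => rfl)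
    (fun _ _ _ _ => ⟨rfl, rfl⟩) (fun b i _ => x b i) (fun b i _ => hx b i) hu
    (fun b => by simpa using hlim b) hdD
  refine ⟨r, h1, h2, fun y hy hyu N => ?_⟩
  obtain ⟨b, hb, i, hi, _, hne⟩ := h3 y hy hyu N
  exact ⟨b, hb, i, hi, hne⟩

/-- Countable support of an element. -/
theorem support {D : Set L} (hD : IsLowerSet D) {x : B} (hx : x ∈ BD D) :
    ∃ C ⊆ D, C.Countable ∧ ∀ D', IsLowerSet D' → C ⊆ D' → x ∈ BD D' := by
  obtain ⟨E, h1, h2⟩ := ccc_iSup H.CCC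
    (fun p : {p : CD BD // (∀ c ∈ p.dom, c ∈ D) ∧ p.val loc ≤ x} => p.1.val loc)
  have hsup : ⨆ p : {p : CD BD // (∀ c ∈ p.dom, c ∈ D) ∧ p.val loc ≤ x}, p.1.val loc = x := by
    refine le_antisymm (iSup_le fun p => p.2.2) (le_of_dense fun z hz hzx => ?_)
    obtain ⟨p, _, hp⟩ := H.dense H.triv hz (by rw [H.val_triv]; exact le_top)
    have h3 : (p.res D).val loc ≤ x := H.proj hD hx (hp.trans hzx)
    have : Nontrivial B := ⟨z, ⊥, hz⟩
    refine ne_bot_mono (le_inf hp ?_) (H.val_ne_bot p)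
    refine (val_le_res p D).trans ?_
    exact le_iSup (fun p : {p : CD BD // (∀ c ∈ p.dom, c ∈ D) ∧ p.val loc ≤ x} => p.1.val loc)
      ⟨p.res D, fun c hc => (mem_res_dom.1 hc).2, h3⟩
  refine ⟨⋃ p ∈ E, {c | c ∈ p.1.dom}, ?_, ?_, ?_⟩
  · exact iUnion₂_subset fun p _ c hc => p.2.1 c hc
  · exact h1.biUnion fun p _ => p.1.dom.countable_toSet
  · intro D' hD' hC
    rw [← hsup, ← h2]
    refine H.BD_iSup hD' fun p => H.BD_iSup hD' fun hp => H.val_mem hD' fun c hc => ?_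
    exact hC (mem_biUnion hp hc)

end IsIter

end Pool.Agent.Lib.P6aeb5f
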