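import Pool.Agent.Lib.P6aeb5f.Names

/-!
The two local claims about towers of length omega_1.
-/

open Set Classical

namespace Pool.Agent.Lib.P6aeb5f

variable {L : Type} [LinearOrder L] {B : Type} [CompleteBooleanAlgebra B]
variable {BD : Set L → Set B} {loc : L → Stem → (ℕ → ℕ → B) → B} {cyl : L → ℕ → ℕ → B}

theorem exists_mem_diff {ι : Type*} {J C : Set ι} (hJ : ¬ J.Countable) (hC : C.Countable) :
    ∃ i ∈ J, i ∉ C := by
  by_contra hcon
  push Not at hcon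
  exact hJ (hC.mono hcon)

/-- Finite join of the values of `T` on the interval `[k, m)`. -/
def ivl (T : ℕ → B) (k m : ℕ) : B := (Finset.Ico k m).sup T

/-- The bounding statement for gaps. -/
def gap (b : ℕ × ℕ → B) (T : ℕ → B) : B :=
  ⨆ k'' : ℕ, ⨅ k' : ℕ, ⨅ _ : k'' ≤ k', ⨅ m : ℕ, (b (k', m) ⇨ ivl T k' m)

namespace IsIter

variable (H : IsIter BD loc cyl)
include H

/-- Choose a Delta-system of conditions deciding countably many facts. -/
theorem choose_delta {D : Set L} (hD : IsLowerSet D) {Ω : Type} (hΩ : ¬ (univ : Set Ω).Countable)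
    {p : B} (hpD : p ∈ BD D) {p1 : B} (hp1 : p1 ≠ ⊥) (hp1p : p1 ≤ p) (S : ℕ → B)
    (T : Ω → ℕ → B) (hST : ∀ ν, p1 ≤ bsub S (T ν)) :
    ∃ (J : Set Ω) (k : ℕ) (q : Ω → B) (t : Ω → CD BD) (d : Finset L) (s : L → Stem) (l : L → ℕ),
      ¬ J.Countable ∧ IsDelta J t d s l ∧ (∀ ν, q ν ∈ BD D) ∧ (∀ ν, q ν ≤ p) ∧
      (∀ ν, q ν ≠ ⊥) ∧ (∀ ν, ∀ c ∈ (t ν).dom, c ∉ D) ∧ (∀ ν, q ν ⊓ (t ν).val loc ≤ p1) ∧
      (∀ ν ∈ J, ∀ v, k ≤ v → q ν ⊓ (t ν).val loc ⊓ S v ≤ T ν v) := by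
  have hch : ∀ ν : Ω, ∃ (m : ℕ) (r : CD BD), r.val loc ≤ p1 ∧
      ∀ v, m ≤ v → r.val loc ⊓ S v ≤ T ν v := by
    intro ν
    obtain ⟨m, y, hy, hyp, h⟩ := exists_of_le_bsub hp1 (hST ν)
    obtain ⟨r, _, hr⟩ := H.dense H.triv hy (by rw [H.val_triv]; exact le_top)
    exact ⟨m, r, hr.trans hyp, fun v hv => (inf_le_inf_right _ hr).trans (h v hv)⟩
  choose m r hr1 hr2 using hch
  have : Nontrivial B := ⟨p1, ⊥, hp1⟩
  obtain ⟨J, _, hJ, ⟨k, hk⟩, d, s, l, hd⟩ := thin hΩ (fun ν => (r ν).res Dᶜ) m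
  refine ⟨J, k, fun ν => ((r ν).res D).val loc, fun ν => (r ν).res Dᶜ, d, s, l, hJ, hd,
    fun ν => H.val_res_mem hD _, fun ν => H.proj hD hpD ((hr1 ν).trans hp1p),
    fun ν => H.val_ne_bot _, fun ν c hc => (mem_res_dom.1 hc).2, fun ν => ?_, fun ν hν v hv => ?_⟩
  · rw [← val_split]
    exact hr1 ν
  · rw [← val_split]
    exact hr2 ν v (by rw [hk ν hν]; exact hv)

omit H in
theorem elim_le_tail {Ω : Type} {J C E : Set Ω} (hC : C.Countable) (hE : E.Countable)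
    (q : Ω → B) : elim J q ≤ ⨆ ν ∈ J \ (C ∪ E), q ν := elim_le J q (hC.union hE)

theorem claim1_local {D : Set L} (hD : IsLowerSet D) {Ω : Type} [LinearOrder Ω]
    (hΩ : ¬ (univ : Set Ω).Countable) (hΩ2 : ∀ ν : Ω, (Iic ν).Countable) {w : B}
    (T : Ω → ℕ → B) (hT : ∀ ν v, T ν v ∈ BD D) (hTT : ∀ ν ν', ν < ν' → w ≤ bsub (T ν') (T ν))
    (S : ℕ → B) (hS : w ≤ binf S) (hST : ∀ ν, w ≤ bsub S (T ν)) :
    ∀ p ∈ BD D, p ≠ ⊥ → p ≤ w → ∃ w' ∈ BD D, w' ≠ ⊥ ∧ w' ≤ p ∧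
      ∃ b : ℕ × ℕ → B, (∀ n, b n ∈ BD D) ∧ w' ≤ (⨅ k, ⨆ m, b (k, m)) ⊓ ⨅ ν, gap b (T ν) := by
  intro p hpD hp hpw
  obtain ⟨J, k, q, t, d, s, l, hJ, hd, hqD, hqp, hq0, htD, hqt, hqT⟩ :=
    H.choose_delta hD hΩ hpD hp le_rfl S T (fun ν => hpw.trans (hST ν))
  have hdD : ∀ c ∈ d, c ∉ D := by
    obtain ⟨ν, hν, _⟩ := exists_mem_diff hJ countable_empty
    exact fun c hc => htD ν c (hd.sub ν hν hc)
  set R : ℕ → ℕ → B := fun k' m => elim J (fun ν => q ν ⊓ (ivl (T ν) k' m)ᶜ) with hR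
  have hxD : ∀ k' m ν, q ν ⊓ (ivl (T ν) k' m)ᶜ ∈ BD D := fun k' m ν =>
    H.BD_inf hD (hqD ν) (H.BD_compl hD (H.BD_finset_sup hD fun v _ => hT ν v))
  have hRD : ∀ k' m, R k' m ∈ BD D := fun k' m => H.BD_elim hD (hxD k' m)
  have hR0 : ∀ k', k ≤ k' → ⨅ m, R k' m = ⊥ := by
    intro k' hk'
    by_contra hne
    set u := ⨅ m, R k' m with hu
    obtain ⟨r, hr1, hr2, hr3⟩ := H.KLs hD hd (fun ν _ => htD ν)
      (fun m ν => q ν ⊓ (ivl (T ν) k' m)ᶜ) (fun m ν => hxD k' m ν) (u := u)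
      (H.BD_iInf hD fun m => hRD k' m) (fun m => iInf_le _ m) hdD
    have hy : u ⊓ r.val loc ≠ ⊥ := H.tail r hD (H.BD_iInf hD fun m => hRD k' m) hne
      (fun c hc => hdD c (hr1 ▸ hc))
    obtain ⟨b0, _, ν0, _, hν0⟩ := hr3 _ hy le_rfl 0
    have hy1 : u ⊓ r.val loc ⊓ w ≠ ⊥ := by
      refine ne_bot_mono (le_inf (inf_le_left.trans inf_le_left) ?_) hν0
      refine le_trans (inf_le_inf_right _ (inf_le_right.trans inf_le_left)) ?_
      exact (hqt ν0).trans hpw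
    have h1 : u ⊓ r.val loc ⊓ w ≤ lim S := inf_le_right.trans hS
    obtain ⟨v, hv, hne2⟩ := exists_of_le_lim hy1 h1 k'
    obtain ⟨b, hb, ν, hν, hne3⟩ := hr3 _ hne2 (inf_le_left.trans inf_le_left) (v + 1)
    apply hne3
    rw [← le_bot_iff]
    have h2 : u ⊓ r.val loc ⊓ w ⊓ S v ⊓ (q ν ⊓ (ivl (T ν) k' b)ᶜ) ⊓ (t ν).val loc ≤ T ν v := by
      refine le_trans (le_inf (le_inf ?_ inf_le_right) ?_) (hqT ν hν v (hk'.trans hv))
      · exact inf_le_left.trans (inf_le_right.trans inf_le_left)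
      · exact inf_le_left.trans (inf_le_left.trans inf_le_right)
    have h3 : T ν v ≤ ivl (T ν) k' b := Finset.le_sup (f := T ν) (Finset.mem_Ico.2 ⟨hv, hb⟩)
    calc _ ≤ ivl (T ν) k' b ⊓ (ivl (T ν) k' b)ᶜ := le_inf (h2.trans h3)
          (inf_le_left.trans (inf_le_right.trans inf_le_right))
      _ = ⊥ := inf_compl_self _
      _ ≤ ⊥ := le_rfl
  have hatt : ∀ n : ℕ × ℕ, ∃ C : Set Ω, C.Countable ∧
      R n.1 n.2 = ⨆ ν ∈ J \ C, (q ν ⊓ (ivl (T ν) n.1 n.2)ᶜ) := fun n =>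
    elim_attained H.CCC J _
  choose C hC1 hC2 using hatt
  have hCc : (⋃ n, C n).Countable := countable_iUnion hC1
  set b : ℕ × ℕ → B := fun n => if k ≤ n.1 then (R n.1 n.2)ᶜ else ⊤ with hb
  have hbD : ∀ n, b n ∈ BD D := by
    intro n
    rw [hb]
    simp only
    split_ifs
    · exact H.BD_compl hD (hRD _ _)
    · exact H.BD_top hD
  have hkey : ∀ ν ∈ J \ ⋃ n, C n, ∀ k' m, k ≤ k' → q ν ⊓ b (k', m) ≤ ivl (T ν) k' m := by
    intro ν hν k' m hk'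
    have h1 : q ν ⊓ (ivl (T ν) k' m)ᶜ ≤ R k' m := by
      rw [hC2 (k', m)]
      exact le_iSup₂_of_le ν ⟨hν.1, fun h => hν.2 (mem_iUnion.2 ⟨_, h⟩)⟩ le_rfl
    have h2 : b (k', m) = (R k' m)ᶜ := if_pos hk'
    rw [h2]
    have h3 : q ν ⊓ (R k' m)ᶜ ⊓ (ivl (T ν) k' m)ᶜ ≤ ⊥ := by
      calc _ ≤ R k' m ⊓ (R k' m)ᶜ := le_inf
            ((le_inf (inf_le_left.trans inf_le_left) inf_le_right).trans h1)
            (inf_le_left.trans inf_le_right)
        _ = ⊥ := inf_compl_self _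
        _ ≤ ⊥ := le_rfl
    rwa [le_bot_iff, ← disjoint_iff, disjoint_compl_right_iff] at h3
  refine ⟨elim J q, H.BD_elim hD hqD, elim_ne_bot H.CCC hJ (fun ν _ => hq0 ν), ?_, b, hbD, ?_⟩
  · refine (elim_le J q countable_empty).trans (iSup₂_le fun ν _ => hqp ν)
  · refine le_inf (le_iInf fun k' => ?_) (le_iInf fun ν0 => ?_)
    · by_cases hk' : k ≤ k'
      · have h1 : ⨆ m, b (k', m) = ⊤ := by
          have h2 : ∀ m, b (k', m) = (R k' m)ᶜ := fun m => if_pos hk'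
          simp only [h2]
          rw [← compl_iInf, hR0 k' hk', compl_bot]
        rw [h1]
        exact le_top
      · have h1 : b (k', 0) = ⊤ := if_neg hk'
        exact le_iSup_of_le 0 (by rw [h1]; exact le_top)
    · refine (elim_le_tail hCc (hΩ2 ν0) q).trans (iSup₂_le fun ν hν => ?_)
      have hν1 : ν ∈ J \ ⋃ n, C n := ⟨hν.1, fun h => hν.2 (Or.inl h)⟩
      have hν2 : ν0 < ν := not_le.1 fun h => hν.2 (Or.inr h)
      refine le_of_le_bsub (((hqp ν).trans hpw).trans (hTT ν0 ν hν2)) fun m y hy h1 => ?_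
      refine le_iSup_of_le (max k m) (le_iInf₂ fun k' hk' => le_iInf fun m' => ?_)
      rw [le_himp_iff]
      have h2 : y ⊓ b (k', m') ≤ ivl (T ν) k' m' :=
        (inf_le_inf_right _ hy).trans (hkey ν hν1 k' m' ((le_max_left _ _).trans hk'))
      calc y ⊓ b (k', m') ≤ y ⊓ ivl (T ν) k' m' := le_inf inf_le_left h2
        _ = (Finset.Ico k' m').sup (fun v => y ⊓ T ν v) := by
            unfold ivl
            rw [Finset.sup_inf_distrib_left]
        _ ≤ ivl (T ν0) k' m' := by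
            refine Finset.sup_mono_fun fun v hv => h1 v ?_
            exact ((le_max_right _ _).trans hk').trans (Finset.mem_Ico.1 hv).1

theorem claim3_local {D : Set L} (hD : IsLowerSet D) {Ω : Type} [LinearOrder Ω]
    (hΩ : ¬ (univ : Set Ω).Countable) (hΩ2 : ∀ ν : Ω, (Iic ν).Countable) {w : B}
    (T : Ω → ℕ → B) (hT : ∀ ν v, T ν v ∈ BD D) (hTT : ∀ ν ν', ν < ν' → w ≤ bsub (T ν') (T ν))
    (S : ℕ → B) (hST : ∀ ν, w ≤ bsub S (T ν)) (b : ℕ × ℕ → B) (hb : ∀ n, b n ∈ BD D)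
    (hbw : w ≤ ⨅ k, ⨆ m, b (k, m)) (hgap : w ≤ gap b S) :
    ∀ p ∈ BD D, p ≠ ⊥ → p ≤ w → ∃ w' ∈ BD D, w' ≠ ⊥ ∧ w' ≤ p ∧
      ∃ y : ℕ → B, (∀ n, y n ∈ BD D) ∧ w' ≤ binf y ⊓ ⨅ ν, bsub y (T ν) := by
  intro p hpD hp hpw
  obtain ⟨k'', hk''⟩ := exists_inf_ne_bot hp (hpw.trans hgap)
  set p1 := p ⊓ ⨅ k' : ℕ, ⨅ _ : k'' ≤ k', ⨅ m : ℕ, (b (k', m) ⇨ ivl S k' m) with hp1
  have hp1gap : ∀ k', k'' ≤ k' → ∀ m, p1 ⊓ b (k', m) ≤ ivl S k' m := by
    intro k' hk' m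
    rw [← le_himp_iff]
    exact inf_le_right.trans ((iInf₂_le k' hk').trans (iInf_le _ m))
  obtain ⟨J, k, q, t, d, s, l, hJ, hd, hqD, hqp, hq0, htD, hqt, hqT⟩ :=
    H.choose_delta hD hΩ hpD hk'' inf_le_left S T
      (fun ν => (inf_le_left.trans hpw).trans (hST ν))
  have hdD : ∀ c ∈ d, c ∉ D := by
    obtain ⟨ν, hν, _⟩ := exists_mem_diff hJ countable_empty
    exact fun c hc => htD ν c (hd.sub ν hν hc)
  have hxD : ∀ v ν, q ν ⊓ (T ν v)ᶜ ∈ BD D := fun v ν =>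
    H.BD_inf hD (hqD ν) (H.BD_compl hD (hT ν v))
  set y : ℕ → B := fun v => (elim J (fun ν => q ν ⊓ (T ν v)ᶜ))ᶜ with hy
  have hyD : ∀ v, y v ∈ BD D := fun v => H.BD_compl hD (H.BD_elim hD (hxD v))
  have hw'D : elim J q ∈ BD D := H.BD_elim hD hqD
  have hw'p : elim J q ≤ p :=
    (elim_le J q countable_empty).trans (iSup₂_le fun ν _ => hqp ν)
  refine ⟨elim J q, hw'D, elim_ne_bot H.CCC hJ (fun ν _ => hq0 ν), hw'p, y, hyD, le_inf ?_ ?_⟩
  · -- infinite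
    refine le_iInf fun N => ?_
    by_contra hcon
    have h0 : elim J q ⊓ (⨆ v : ℕ, ⨆ _ : N ≤ v, y v)ᶜ ≠ ⊥ := by
      intro h2
      exact hcon (by rwa [← disjoint_iff, disjoint_compl_right_iff] at h2)
    set W0 := elim J q ⊓ (⨆ v : ℕ, ⨆ _ : N ≤ v, y v)ᶜ with hW0
    have hW0D : W0 ∈ BD D := H.BD_inf hD hw'D (H.BD_compl hD
      (H.BD_iSup hD fun v => H.BD_iSup hD fun _ => hyD v))
    have hW0y : ∀ v, N ≤ v → W0 ≤ elim J (fun ν => q ν ⊓ (T ν v)ᶜ) := by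
      intro v hv
      have h1 : W0 ≤ (y v)ᶜ :=
        inf_le_right.trans (compl_le_compl (le_iSup₂_of_le v hv le_rfl))
      rw [hy] at h1
      simpa using h1
    set k' := max N (max k k'') with hk'
    have h1 : W0 ≤ ⨆ m, b (k', m) :=
      ((inf_le_left.trans (hw'p.trans hpw)).trans hbw).trans (iInf_le _ k')
    obtain ⟨m, hm⟩ := exists_inf_ne_bot h0 h1
    set W1 := W0 ⊓ b (k', m) with hW1
    have hW1D : W1 ∈ BD D := H.BD_inf hD hW0D (hb _)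
    have hr : ∀ v, ∃ r : CD BD, k' ≤ v → (r.dom = d ∧ (∀ c ∈ d, r.stem c = s c) ∧
        W1 ⊓ r.val loc ⊓ S v = ⊥) := by
      intro v
      by_cases hv : k' ≤ v
      · obtain ⟨r, hr1, hr2, hr3⟩ := H.KLs hD hd (fun ν _ => htD ν)
          (fun _ ν => q ν ⊓ (T ν v)ᶜ) (fun _ ν => hxD v ν) (u := W1) hW1D
          (fun _ => inf_le_left.trans (hW0y v ((le_max_left _ _).trans hv))) hdD
        refine ⟨r, fun _ => ⟨hr1, hr2, ?_⟩⟩
        by_contra hne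
        obtain ⟨_, _, ν, hν, hne2⟩ := hr3 _ hne inf_le_left 0
        apply hne2
        rw [← le_bot_iff]
        have hkv : k ≤ v := ((le_max_left _ _).trans (le_max_right _ _)).trans hv
        have h2 : W1 ⊓ r.val loc ⊓ S v ⊓ (q ν ⊓ (T ν v)ᶜ) ⊓ (t ν).val loc ≤ T ν v := by
          refine le_trans (le_inf (le_inf ?_ inf_le_right) ?_) (hqT ν hν v hkv)
          · exact inf_le_left.trans (inf_le_right.trans inf_le_left)
          · exact inf_le_left.trans (inf_le_left.trans inf_le_right)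
        calc _ ≤ T ν v ⊓ (T ν v)ᶜ := le_inf h2
              (inf_le_left.trans (inf_le_right.trans inf_le_right))
          _ = ⊥ := inf_compl_self _
          _ ≤ ⊥ := le_rfl
      · exact ⟨H.triv, fun h => absurd h hv⟩
    choose r hr using hr
    have h2 : W1 ≤ ⨆ ν, ⨆ _ : ν ∈ J, q ν := by
      refine (inf_le_left.trans inf_le_left).trans ((elim_le J q countable_empty).trans ?_)
      exact iSup₂_le fun ν hν => le_iSup₂_of_le ν hν.1 le_rfl
    obtain ⟨ν0, hν0⟩ := exists_inf_ne_bot hm h2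
    obtain ⟨hν0J, hν0⟩ : ν0 ∈ J ∧ W1 ⊓ q ν0 ≠ ⊥ := by
      by_cases h : ν0 ∈ J
      · refine ⟨h, ?_⟩
        simpa [h] using hν0
      · simp [h] at hν0
    have hcomb : ∀ n, ∃ g : CD BD, g.dom = (t ν0).dom ∧ (∀ c ∈ (t ν0).dom,
        g.stem c = (t ν0).stem c) ∧ g.val loc ≤ (t ν0).val loc ∧
        ∀ v, k' ≤ v → v < n → g.val loc ≤ (r v).val loc := by
      intro n
      induction n with
      | zero => exact ⟨t ν0, rfl, fun _ _ => rfl, le_rfl, fun v _ hv => absurd hv (Nat.not_lt_zero v)⟩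
      | succ n ih =>
        obtain ⟨g, hg1, hg2, hg3, hg4⟩ := ih
        by_cases hn : k' ≤ n
        · obtain ⟨hr1, hr2, _⟩ := hr n hn
          refine ⟨H.comb g (r n), ?_, ?_, (H.comb_val_le_left _ _).trans hg3, ?_⟩
          · change g.dom ∪ (r n).dom = _
            rw [hg1, hr1]
            exact Finset.union_eq_left.2 (hd.sub ν0 hν0J)
          · intro c hc
            rw [← hg2 c hc]
            exact if_pos (hg1 ▸ hc)
          · intro v hv hvn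
            rcases Nat.lt_succ_iff_lt_or_eq.1 hvn with h | h
            · exact (H.comb_val_le_left _ _).trans (hg4 v hv h)
            · subst h
              refine H.comb_val_le_right _ _ fun c hc hc' => ?_
              rw [hr1] at hc
              rw [hg2 c (hg1 ▸ hc'), (hd.data ν0 hν0J c hc).1, hr2 c hc]
        · exact ⟨g, hg1, hg2, hg3, fun v hv hvn => by omega⟩
    obtain ⟨g, hg1, _, hg3, hg4⟩ := hcomb m
    have h3 : W1 ⊓ q ν0 ⊓ g.val loc ≠ ⊥ := H.tail g hD (H.BD_inf hD hW1D (hqD ν0)) hν0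
      (fun c hc => htD ν0 c (hg1 ▸ hc))
    have h4 : W1 ⊓ q ν0 ⊓ g.val loc ≤ ivl S k' m := by
      refine le_trans (le_inf ?_ ?_) (hp1gap k' ((le_max_right _ _).trans (le_max_right _ _)) m)
      · exact (le_inf (inf_le_left.trans inf_le_right) (inf_le_right.trans hg3)).trans (hqt ν0)
      · exact inf_le_left.trans (inf_le_left.trans inf_le_right)
    have h5 : W1 ⊓ q ν0 ⊓ g.val loc ≤ ⊥ := by
      calc W1 ⊓ q ν0 ⊓ g.val loc ≤ (W1 ⊓ q ν0 ⊓ g.val loc) ⊓ ivl S k' m := le_inf le_rfl h4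
        _ = (Finset.Ico k' m).sup (fun v => (W1 ⊓ q ν0 ⊓ g.val loc) ⊓ S v) := by
            unfold ivl
            rw [Finset.sup_inf_distrib_left]
        _ ≤ ⊥ := by
            refine Finset.sup_le fun v hv => ?_
            rw [Finset.mem_Ico] at hv
            rw [← (hr v hv.1).2.2]
            refine inf_le_inf_right _ (le_inf (inf_le_left.trans inf_le_left) ?_)
            exact inf_le_right.trans (hg4 v hv.1 hv.2)
    exact h3 (le_bot_iff.1 h5)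
  · -- below the tower
    have hatt : ∀ v : ℕ, ∃ C : Set Ω, C.Countable ∧
        elim J (fun ν => q ν ⊓ (T ν v)ᶜ) = ⨆ ν ∈ J \ C, (q ν ⊓ (T ν v)ᶜ) := fun v =>
      elim_attained H.CCC J _
    choose C hC1 hC2 using hatt
    have hCc : (⋃ n, C n).Countable := countable_iUnion hC1
    refine le_iInf fun ν0 => ?_
    refine (elim_le_tail hCc (hΩ2 ν0) q).trans (iSup₂_le fun ν hν => ?_)
    have hν2 : ν0 < ν := not_le.1 fun h => hν.2 (Or.inr h)
    have h1 : q ν ≤ bsub y (T ν) := by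
      refine le_bsub_of 0 fun v _ => ?_
      have h1 : q ν ⊓ (T ν v)ᶜ ≤ (y v)ᶜ := by
        rw [hy]
        simp only [compl_compl]
        rw [hC2 v]
        exact le_iSup₂_of_le ν ⟨hν.1, fun h => hν.2 (Or.inl (mem_iUnion.2 ⟨_, h⟩))⟩ le_rfl
      have h3 : q ν ⊓ y v ⊓ (T ν v)ᶜ ≤ ⊥ := by
        calc _ ≤ (y v)ᶜ ⊓ y v := le_inf
              ((le_inf (inf_le_left.trans inf_le_left) inf_le_right).trans h1)
              (inf_le_left.trans inf_le_right)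
          _ = ⊥ := compl_inf_self _
          _ ≤ ⊥ := le_rfl
      rwa [le_bot_iff, ← disjoint_iff, disjoint_compl_right_iff] at h3
    exact (le_inf h1 (((hqp ν).trans hpw).trans (hTT ν0 ν hν2))).trans bsub_trans

end IsIter

end Pool.Agent.Lib.P6aeb5f
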