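import Pool.Agent.Lib.P6aeb5f.Topo2
import Pool.Agent.Lib.P6aeb5f.Abs

/-!
The topological model satisfies the abstract interface.
-/

open Set TopologicalSpace Topology Classical

namespace Pool.Agent.Lib.P6aeb5f

variable {L : Type} [LinearOrder L] [WellFoundedLT L]

noncomputable instance instTopPt : TopologicalSpace (Pt L) := TD univ

theorem isOpen_of_TD {D : Set L} {V : Set (Pt L)} (h : IsOpen[TD D] V) : IsOpen V :=
  TD_mono (subset_univ D) h

/-- The algebra. -/
abbrev Alg (L : Type) [LinearOrder L] [WellFoundedLT L] : Type := RO (Opens (Pt L))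

/-- underlying set -/
def uset (x : Alg L) : Set (Pt L) := (x.val : Opens (Pt L))

theorem isOpen_uset (x : Alg L) : IsOpen (uset x) := x.val.2

theorem le_iff_uset {x y : Alg L} : x ≤ y ↔ uset x ⊆ uset y := Iff.rfl

/-- regularization of an open set -/
noncomputable def reg (V : Set (Pt L)) (h : IsOpen V) : Alg L := RO.mk ⟨V, h⟩

theorem subset_uset_reg (V : Set (Pt L)) (h : IsOpen V) : V ⊆ uset (reg V h) := by
  have : (⟨V, h⟩ : Opens (Pt L)) ≤ (RO.mk (⟨V, h⟩ : Opens (Pt L))).val := RO.mk_le_iff.1 le_rfl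
  exact this

theorem reg_le_iff {V : Set (Pt L)} {h : IsOpen V} {x : Alg L} : reg V h ≤ x ↔ V ⊆ uset x :=
  RO.mk_le_iff

theorem reg_uset (x : Alg L) : reg (uset x) (isOpen_uset x) = x := RO.mk_val x

theorem uset_inf (x y : Alg L) : uset (x ⊓ y) = uset x ∩ uset y := rfl

theorem uset_bot : uset (⊥ : Alg L) = ∅ := rfl

theorem uset_top : uset (⊤ : Alg L) = univ := rfl

theorem ne_bot_iff {x : Alg L} : x ≠ ⊥ ↔ (uset x).Nonempty := by
  rw [Ne, ← le_bot_iff, le_iff_uset, uset_bot, subset_empty_iff, nonempty_iff_ne_empty]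

theorem reg_inf (V W : Set (Pt L)) (hV : IsOpen V) (hW : IsOpen W) :
    reg V hV ⊓ reg W hW = reg (V ∩ W) (hV.inter hW) := by
  apply le_antisymm
  · rw [le_iff_uset]
    have : ((⟨V, hV⟩ : Opens (Pt L)) ⊓ ⟨W, hW⟩)ᶜᶜ = (⟨V, hV⟩ : Opens (Pt L))ᶜᶜ ⊓ (⟨W, hW⟩)ᶜᶜ :=
      compl_compl_inf_distrib _ _
    have h2 := this.symm.le
    exact h2
  · refine le_inf ?_ ?_
    · rw [reg_le_iff]
      exact inter_subset_left.trans (subset_uset_reg V hV)
    · rw [reg_le_iff]
      exact inter_subset_right.trans (subset_uset_reg W hW)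

theorem uset_compl (x : Alg L) : uset xᶜ = interior (uset x)ᶜ := by
  have h : (xᶜ).val = (x.val)ᶜ := rfl
  unfold uset
  rw [h, Opens.coe_compl_eq_interior_compl]

theorem disjoint_of_inf_eq_bot {x y : Alg L} (h : x ⊓ y = ⊥) : uset x ∩ uset y = ∅ := by
  rw [← uset_inf, h, uset_bot]

/-- The exterior of a `D`-set is a `D`-set. -/
theorem isOpen_ext {D : Set L} (hD : IsLowerSet D) {W : Set (Pt L)} (hW : IsOpen[TD D] W) :
    IsOpen[TD D] (interior Wᶜ) := by
  have key : ∀ z ∈ interior Wᶜ, ∃ V, V ⊆ interior Wᶜ ∧ IsOpen[TD D] V ∧ z ∈ V := by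
    intro z hz
    obtain ⟨q, h1, h2, h3, h4⟩ := Cond.refine isLowerSet_univ (isOpen_interior (s := Wᶜ))
      Cond.triv z (fun c hc => by simp [Cond.triv] at hc) hz
    have hop : IsOpen[TD D] (q.res D).U :=
      Cond.isOpen_U _ _ (fun c hc => (Cond.mem_res_dom.1 hc).2)
    refine ⟨(q.res D).U, ?_, hop, Cond.U_subset_res _ _ h2⟩
    apply interior_maximal ?_ (isOpen_of_TD hop)
    intro x hx hxW
    have hop2 : IsOpen[TD D] ((q.res D).U ∩ W) := @IsOpen.inter _ (TD D) _ _ hop hW
    obtain ⟨y, ⟨hy1, hy2⟩, hy3⟩ := Cond.tail hD hop2 ⟨x, hx, hxW⟩ (q.res Dᶜ)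
      (fun c hc => (Cond.mem_res_dom.1 hc).2)
    have hyq : y ∈ q.U := by
      rw [Cond.U_eq_inter q D]
      exact ⟨hy1, hy3⟩
    exact interior_subset (h3 hyq) hy2
  have : interior Wᶜ = ⋃₀ {V | V ⊆ interior Wᶜ ∧ IsOpen[TD D] V} := by
    ext z
    constructor
    · intro hz
      obtain ⟨V, h1, h2, h3⟩ := key z hz
      exact ⟨V, ⟨h1, h2⟩, h3⟩
    · rintro ⟨V, ⟨h1, _⟩, h3⟩
      exact h1 h3
  rw [this]
  exact @isOpen_sUnion _ (TD D) _ (fun V hV => hV.2)

/-- Elements supported by `D`. -/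
noncomputable def cBD (D : Set L) : Set (Alg L) := {x | IsOpen[TD D] (uset x)}

theorem uset_reg (V : Set (Pt L)) (h : IsOpen V) :
    uset (reg V h) = interior (interior Vᶜ)ᶜ := by
  have h2 : (reg V h).val = (⟨V, h⟩ : Opens (Pt L))ᶜᶜ := rfl
  unfold uset
  rw [h2, Opens.coe_compl_eq_interior_compl, Opens.coe_compl_eq_interior_compl]
  rfl

theorem reg_mem {D : Set L} (hD : IsLowerSet D) {V : Set (Pt L)} (hV : IsOpen[TD D] V) :
    reg V (isOpen_of_TD hV) ∈ cBD D := by
  change IsOpen[TD D] (uset (reg V _))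
  rw [uset_reg]
  exact isOpen_ext hD (isOpen_ext hD hV)

theorem sSup_eq_reg (S : Set (Alg L)) :
    sSup S = reg (⋃ x ∈ S, uset x) (isOpen_biUnion fun x _ => isOpen_uset x) := by
  apply le_antisymm
  · refine sSup_le fun x hx => ?_
    rw [le_iff_uset]
    exact (subset_biUnion_of_mem (u := fun x => uset x) hx).trans (subset_uset_reg _ _)
  · rw [reg_le_iff]
    refine iUnion₂_subset fun x hx => ?_
    exact le_iff_uset.1 (le_sSup hx)

/-- Promises in the algebra are promises in the topology. -/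
theorem isPromise_of_isProm {c : L} {N : ℕ → ℕ → Alg L} {l : ℕ} (h : IsProm cBD c N l) :
    IsPromise (Tlt c) (fun n m => uset (N n m)) l := by
  refine ⟨fun n m => ?_, fun n m V hV hd => ?_, fun n S hS V hV hne => ?_⟩
  · rw [Tlt_eq]
    exact h.1 n m
  · rw [Tlt_eq] at hV hd
    have h1 : IsOpen[TD (Iio c)] (V ∩ interior (uset (N n m))ᶜ) :=
      @IsOpen.inter _ (TD (Iio c)) _ _ hV (isOpen_ext (isLowerSet_Iio c) (h.1 n m))
    have h2 : ¬ (V ∩ interior (uset (N n m))ᶜ).Nonempty := by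
      intro hne
      obtain ⟨z, hz1, hz2⟩ := hd _ inter_subset_left h1 hne
      exact interior_subset hz1.2 hz2
    have h3 : uset (N n m) = interior (interior (uset (N n m))ᶜ)ᶜ := by
      conv_lhs => rw [← reg_uset (N n m)]
      exact uset_reg _ _
    change V ⊆ uset (N n m)
    rw [h3]
    refine interior_maximal ?_ (isOpen_of_TD hV)
    intro z hz hz2
    exact h2 ⟨z, hz, hz2⟩
  · rw [Tlt_eq] at hV
    by_contra hcon
    push Not at hcon
    have hVo := isOpen_of_TD hV
    have h1 : S.sup (N n) ≤ (reg V hVo)ᶜ := by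
      refine Finset.sup_le fun m hm => ?_
      rw [le_compl_iff_disjoint_right, disjoint_iff]
      rw [← reg_uset (N n m), reg_inf]
      have h2 := hcon m hm
      rw [← le_bot_iff, reg_le_iff, uset_bot, inter_comm]
      exact h2.subset
    rw [h.2 n S hS, top_le_iff, compl_eq_top, ← le_bot_iff, reg_le_iff, uset_bot] at h1
    exact (hne.mono h1).ne_empty rfl

theorem uset_reg_of_promise {c : L} {N : ℕ → ℕ → Set (Pt L)} {l : ℕ} (h : IsPromise (Tlt c) N l)
    (n m : ℕ) (ho : IsOpen (N n m)) : uset (reg (N n m) ho) = N n m := by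
  apply Subset.antisymm _ (subset_uset_reg _ _)
  have hN := h.1 n m
  have h1 : IsOpen[Tlt c] (uset (reg (N n m) ho)) := by
    rw [uset_reg, Tlt_eq]
    rw [Tlt_eq] at hN
    exact isOpen_ext (isLowerSet_Iio c) (isOpen_ext (isLowerSet_Iio c) hN)
  refine h.2.1 n m _ h1 (fun V' hV' hV'o hne => ?_)
  by_contra hcon
  rw [not_nonempty_iff_eq_empty] at hcon
  obtain ⟨z, hz⟩ := hne
  have hV'o' : IsOpen V' := by
    rw [Tlt_eq] at hV'o
    exact isOpen_of_TD hV'o
  have h2 : V' ⊆ interior (N n m)ᶜ := by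
    refine interior_maximal ?_ hV'o'
    intro x hx hx2
    exact (hcon.subset ⟨hx, hx2⟩)
  have h3 := hV' hz
  rw [uset_reg] at h3
  exact interior_subset h3 (h2 hz)

theorem isOpen_prom {c : L} {N : ℕ → ℕ → Set (Pt L)} {l : ℕ} (h : IsPromise (Tlt c) N l)
    (n m : ℕ) : IsOpen (N n m) := by
  have := h.1 n m
  rw [Tlt_eq] at this
  exact isOpen_of_TD this

theorem isProm_of_isPromise {c : L} {N : ℕ → ℕ → Set (Pt L)} {l : ℕ} (h : IsPromise (Tlt c) N l) :
    IsProm cBD c (fun n m => reg (N n m) (isOpen_prom h n m)) l := by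
  refine ⟨fun n m => ?_, fun n S hS => ?_⟩
  · change IsOpen[TD (Iio c)] (uset _)
    rw [uset_reg_of_promise h, ← Tlt_eq]
    exact h.1 n m
  · rw [← compl_eq_bot]
    by_contra hcon
    have hne := ne_bot_iff.1 hcon
    have hmem : IsOpen[TD (Iio c)] (uset (S.sup fun m => reg (N n m) (isOpen_prom h n m))ᶜ) := by
      rw [uset_compl]
      apply isOpen_ext (isLowerSet_Iio c)
      have : (S.sup fun m => reg (N n m) (isOpen_prom h n m)) =
          sSup ((fun m => reg (N n m) (isOpen_prom h n m)) '' S) := by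
        rw [Finset.sup_eq_sSup_image]
      rw [this, sSup_eq_reg, uset_reg]
      apply isOpen_ext (isLowerSet_Iio c)
      apply isOpen_ext (isLowerSet_Iio c)
      refine @isOpen_biUnion _ _ (TD (Iio c)) _ _ ?_
      rintro _ ⟨m, _, rfl⟩
      rw [uset_reg_of_promise h, ← Tlt_eq]
      exact h.1 n m
    rw [← Tlt_eq] at hmem
    obtain ⟨m, hm, z, hz1, hz2⟩ := h.2.2 n S hS _ hmem hne
    rw [uset_compl] at hz1
    refine interior_subset hz1 ?_
    have h4 : reg (N n m) (isOpen_prom h n m) ≤ S.sup fun m => reg (N n m) (isOpen_prom h n m) :=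
      Finset.le_sup (f := fun m => reg (N n m) (isOpen_prom h n m)) hm
    exact le_iff_uset.1 h4 (subset_uset_reg _ _ hz2)

/-- local value -/
noncomputable def cloc (c : L) (s : Stem) (N : ℕ → ℕ → Alg L) : Alg L :=
  reg (interior (Loc c s (fun n m => uset (N n m)))) isOpen_interior

/-- from abstract conditions to topological ones -/
noncomputable def toC (p : CD (cBD (L := L))) : Cond L where
  dom := p.dom
  stem := p.stem
  prom c n m := uset (p.prom c n m)
  bd := p.bd
  ok c := isPromise_of_isProm (p.ok c)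

/-- from topological conditions to abstract ones -/
noncomputable def ofC (p : Cond L) : CD (cBD (L := L)) where
  dom := p.dom
  stem := p.stem
  prom c n m := reg (p.prom c n m) (isOpen_prom (p.ok c) n m)
  bd := p.bd
  ok c := isProm_of_isPromise (p.ok c)

theorem isOpen_U' (p : Cond L) : IsOpen p.U := Cond.isOpen_U p univ (fun _ _ => mem_univ _)

theorem cloc_eq {c : L} {s : Stem} {N : ℕ → ℕ → Alg L} {l : ℕ} (h : IsProm cBD c N l) :
    cloc c s N = reg (Loc c s (fun n m => uset (N n m)))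
      (isOpen_of_TD (isOpen_Loc (mem_univ c) (isPromise_of_isProm h))) := by
  unfold cloc
  congr 1
  exact (isOpen_of_TD (isOpen_Loc (mem_univ c) (isPromise_of_isProm h))).interior_eq

theorem val_eq_aux (p : CD (cBD (L := L))) (S : Finset L) :
    (S.inf fun c => cloc c (p.stem c) (p.prom c)) =
      reg (⋂ c ∈ S, Loc c (p.stem c) (fun n m => uset (p.prom c n m)))
        (isOpen_biInter_finset fun c _ =>
          isOpen_of_TD (isOpen_Loc (mem_univ c) (isPromise_of_isProm (p.ok c)))) := by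
  induction S using Finset.induction_on with
  | empty =>
    rw [Finset.inf_empty]
    apply le_antisymm _ le_top
    rw [le_iff_uset]
    refine Subset.trans ?_ (subset_uset_reg _ _)
    simp
  | insert a S ha ih =>
    rw [Finset.inf_insert, ih, cloc_eq (p.ok a), reg_inf]
    congr 1
    rw [Finset.set_biInter_insert]

theorem val_eq (p : CD (cBD (L := L))) : p.val cloc = reg (toC p).U (isOpen_U' _) := by
  unfold CD.val
  rw [val_eq_aux]
  congr 1
  ext z
  simp [Cond.U, toC]

theorem toC_res (p : CD (cBD (L := L))) (D : Set L) : toC (p.res D) = (toC p).res D := rfl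

theorem U_toC_ofC (p : Cond L) : (toC (ofC p)).U = p.U := by
  have h : ∀ c, (toC (ofC p)).prom c = p.prom c := by
    intro c
    funext n m
    exact uset_reg_of_promise (p.ok c) n m _
  ext z
  constructor
  · intro hz c hc
    rw [← h c]
    exact hz c hc
  · intro hz c hc
    have h2 := hz c hc
    rw [← h c] at h2
    exact h2

/-- The cylinder sets. -/
theorem isOpen_cyl {D : Set L} {c : L} (hc : c ∈ D) (n m : ℕ) :
    IsOpen[TD D] {z : Pt L | z c n = m} := by
  have : {z : Pt L | z c n = m} = ⋃₀ {V | ∃ s : Stem, n < s.len ∧ s.val n = m ∧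
      V = Loc c s (fun _ _ => univ)} := by
    ext z
    constructor
    · intro hz
      refine ⟨_, ⟨Stem.ofFun (z c) (n + 1), Nat.lt_succ_self n, ?_, rfl⟩, ?_⟩
      · rw [Stem.ofFun_val (Nat.lt_succ_self n)]
        exact hz
      · exact ⟨fun i hi => (Stem.ofFun_val hi).symm, fun n _ => mem_univ _⟩
    · rintro ⟨_, ⟨s, hs, rfl, rfl⟩, hz⟩
      exact hz.1 n hs
  rw [this]
  refine @isOpen_sUnion _ (TD D) _ ?_
  rintro _ ⟨s, _, _, rfl⟩
  exact isOpen_Loc hc (isPromise_univ _)

/-- Boolean value of `e_c(n) = m`. -/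
noncomputable def ccyl (c : L) (n m : ℕ) : Alg L :=
  reg {z | z c n = m} (isOpen_of_TD (isOpen_cyl (mem_univ c) n m))

theorem isIter : IsIter (L := L) cBD cloc ccyl where
  BD_mono h x hx := TD_mono h hx
  BD_univ x := isOpen_uset x
  BD_compl {D} hD x hx := by
    change IsOpen[TD D] (uset xᶜ)
    rw [uset_compl]
    exact isOpen_ext hD hx
  BD_sSup {D} hD S hS := by
    rw [sSup_eq_reg]
    exact reg_mem hD (@isOpen_biUnion _ _ (TD D) _ _ hS)
  loc_mem {D c s N l} hD hc h := by
    rw [cloc_eq h]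
    exact reg_mem hD (isOpen_Loc hc (isPromise_of_isProm h))
  loc_inf c s N N' := by
    unfold cloc
    rw [reg_inf]
    congr 1
    rw [← interior_inter]
    congr 1
    ext z
    simp only [Loc, mem_inter_iff, mem_ofPred_eq, uset_inf]
    constructor
    · rintro ⟨⟨h1, h2⟩, h3, h4⟩
      exact ⟨h1, fun n hn => ⟨h2 n hn, h4 n hn⟩⟩
    · rintro ⟨h1, h2⟩
      exact ⟨⟨h1, fun n hn => (h2 n hn).1⟩, h1, fun n hn => (h2 n hn).2⟩
  loc_ext {c s s' N N' x} h1 h2 h3 := by
    unfold cloc
    rw [← reg_uset x, reg_inf, reg_le_iff]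
    refine Subset.trans ?_ (subset_uset_reg _ _)
    refine interior_maximal ?_ ((isOpen_uset x).inter isOpen_interior)
    rintro z ⟨hz1, hz2⟩
    obtain ⟨hz3, hz4⟩ := interior_subset hz2
    refine ⟨fun i hi => (hz3 i (hi.trans_le h1.1)).trans (h1.2 i hi), fun n hn => ?_⟩
    by_cases hn' : n < s'.len
    · rw [hz3 n hn']
      exact le_iff_uset.1 (h2 n hn hn') hz1
    · exact le_iff_uset.1 (h3 _ _) (hz4 n (not_lt.1 hn'))
  tail {D x} t hD hx hne ht := by
    rw [ne_bot_iff, uset_inf]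
    rw [ne_bot_iff] at hne
    obtain ⟨z, hz1, hz2⟩ := Cond.tail hD hx hne (toC t) ht
    refine ⟨z, hz1, ?_⟩
    rw [val_eq]
    exact subset_uset_reg _ _ hz2
  dense {x} t hne hle := by
    rw [ne_bot_iff] at hne
    rw [val_eq, le_iff_uset] at hle
    have h1 : (uset x ∩ (toC t).U).Nonempty := by
      by_contra hcon
      rw [not_nonempty_iff_eq_empty] at hcon
      obtain ⟨z, hz⟩ := hne
      have h2 := hle hz
      rw [uset_reg] at h2
      refine interior_subset h2 ?_
      refine interior_maximal ?_ (isOpen_uset x) hz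
      intro y hy hy2
      exact hcon.subset ⟨hy, hy2⟩
    obtain ⟨z, hz1, hz2⟩ := h1
    obtain ⟨q, k1, k2, k3, _⟩ := Cond.refine isLowerSet_univ (isOpen_uset x) (toC t) z hz2 hz1
    refine ⟨ofC q, ⟨k1.1, fun c hc => ?_⟩, ?_⟩
    · obtain ⟨j1, j2, j3⟩ := k1.2 c hc
      refine ⟨j1, fun n m => ?_, fun n hn hn' => ?_⟩
      · change reg _ _ ≤ _
        rw [reg_le_iff]
        exact j2 n m
      · rw [val_eq, reg_le_iff, toC_res]
        have h5 : ((toC (ofC q)).res (Iio c)).U = (q.res (Iio c)).U := U_toC_ofC (q.res (Iio c))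
        rw [h5]
        exact j3 n hn hn'
    · rw [val_eq, reg_le_iff, U_toC_ofC]
      exact k3
  cyl_sup c n := by
    rw [← compl_eq_bot]
    by_contra hcon
    obtain ⟨z, hz⟩ := ne_bot_iff.1 hcon
    have h1 : z ∈ uset (⨆ m, ccyl c n m) := by
      have h2 : ccyl c n (z c n) ≤ ⨆ m, ccyl c n m := le_iSup (fun m => ccyl c n m) _
      exact le_iff_uset.1 h2 (subset_uset_reg _ _ rfl)
    rw [uset_compl] at hz
    exact interior_subset hz h1
  cyl_disj c n m m' h := by
    unfold ccyl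
    rw [reg_inf, ← le_bot_iff, reg_le_iff]
    rintro z ⟨hz1, hz2⟩
    exact absurd (hz1.symm.trans hz2) h
  cyl_mem {D c n m} hD hc := reg_mem hD (isOpen_cyl hc n m)
  loc_le_cyl {c s N n} hn := by
    unfold cloc ccyl
    rw [reg_le_iff]
    refine Subset.trans ?_ (subset_uset_reg _ _)
    intro z hz
    exact (interior_subset hz).1 n hn
  loc_cyl {c s N n m} hn := by
    unfold cloc ccyl
    rw [reg_inf, reg_le_iff]
    rintro z ⟨hz1, hz2⟩
    have h1 := (interior_subset hz1).2 n hn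
    have h2 : z c n = m := hz2
    rw [h2] at h1
    exact h1

end Pool.Agent.Lib.P6aeb5f
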