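import Pool.Agent.Lib.P6aeb5f.ThmB
import Pool.Agent.Lib.P6aeb5f.Concrete

/-!
The concrete algebra.
-/

open Set Classical Cardinal

namespace Pool.Agent.Lib.P6aeb5f

/-- `ω₁` -/
abbrev Om : Type := (ℵ_ 1 : Cardinal.{0}).ord.ToType
/-- `ω₂` -/
abbrev KK : Type := (ℵ_ 2 : Cardinal.{0}).ord.ToType
/-- `ω₃` -/
abbrev JJ : Type := (ℵ_ 3 : Cardinal.{0}).ord.ToType
/-- the index set of the iteration -/
abbrev LL : Type := KK ×ₗ JJ

/-- first coordinate -/
def ppi : LL → KK := fun x => (ofLex x).1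

theorem card_Om : #Om = ℵ_ 1 := mk_ord_toType _
theorem card_KK : #KK = ℵ_ 2 := mk_ord_toType _
theorem card_JJ : #JJ = ℵ_ 3 := mk_ord_toType _

theorem aleph_two_eq : (ℵ_ 2 : Cardinal.{0}) = Order.succ (ℵ_ 1) := by
  rw [succ_aleph, one_add_one_eq_two]

theorem aleph_three_eq : (ℵ_ 3 : Cardinal.{0}) = Order.succ (ℵ_ 2) := by
  rw [succ_aleph, two_add_one_eq_three]

theorem card_Iio_KK (μ : KK) : #(Iio μ) ≤ ℵ_ 1 := by
  have h : #(Iio μ) < #KK := mk_Iio_lt μ (by simp)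
  have h2 : #(Iio μ) < Order.succ (ℵ_ 1) := h.trans_eq (card_KK.trans aleph_two_eq)
  exact Order.lt_succ_iff.1 h2

theorem card_Iic_KK (μ : KK) : #(Iic μ) ≤ ℵ_ 1 := by
  have h : Iic μ = insert μ (Iio μ) := by
    ext x
    simp [le_iff_eq_or_lt]
  rw [h]
  refine (mk_insert_le).trans ?_
  refine (add_le_add (card_Iio_KK μ) (one_le_aleph0.trans (aleph0_le_aleph 1))).trans ?_
  rw [add_eq_self (aleph0_le_aleph 1)]

theorem levels : Levels LL KK Om ppi where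
  mono := Prod.Lex.monotone_fst_ofLex
  bdd f := by
    by_contra hcon
    push Not at hcon
    have h1 : (univ : Set KK) = ⋃ ν, Iic (f ν) := by
      ext k
      simp only [mem_univ, mem_iUnion, mem_Iic, true_iff]
      exact hcon k
    have h2 : #(univ : Set KK) ≤ ℵ_ 1 := by
      rw [h1]
      refine (mk_iUnion_le _).trans ?_
      rw [card_Om]
      refine (mul_le_mul' le_rfl (ciSup_le' fun ν => card_Iic_KK (f ν))).trans ?_
      rw [mul_eq_self (aleph0_le_aleph 1)]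
    rw [mk_univ, card_KK, aleph_two_eq] at h2
    exact absurd h2 (not_le.2 (Order.lt_succ _))
  seg μ := by
    have h1 : #(Iio μ) ≤ #Om := by
      rw [card_Om]
      exact card_Iio_KK μ
    obtain ⟨e⟩ := h1
    refine ⟨fun ν => if h : ∃ α : Iio μ, e α = ν then h.choose.1 else μ, fun α hα => ?_⟩
    obtain ⟨x, hx⟩ : ∃ x : Iio μ, x.1 = α := ⟨⟨α, hα⟩, rfl⟩
    refine ⟨e x, ?_⟩
    have h : ∃ β : Iio μ, e β = e x := ⟨x, rfl⟩
    simp only [dif_pos h]
    rw [e.injective h.choose_spec, hx]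
  unc := by
    intro h
    have h1 : #Om ≤ ℵ₀ := by
      have h2 := h.le_aleph0
      rwa [mk_univ] at h2
    rw [card_Om] at h1
    exact absurd h1 (not_le.2 aleph0_lt_aleph_one)
  cnt ν := by
    have h : #(Iio ν) < #Om := mk_Iio_lt ν (by simp)
    have h3 : #(Iio ν) < Order.succ ℵ₀ := h.trans_eq (card_Om.trans succ_aleph0.symm)
    have h1 : (Iio ν).Countable := (le_aleph0_iff_set_countable).1 (Order.lt_succ_iff.1 h3)
    have h2 : Iic ν = insert ν (Iio ν) := by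
      ext x
      simp [le_iff_eq_or_lt]
    rw [h2]
    exact h1.insert ν
  ne := by
    rw [← mk_ne_zero_iff, card_KK]
    exact (aleph_pos 2).ne'
  wf := inferInstance

theorem fib (ζ : KK) (f : LL → KK) : ∃ α, ¬ {c | ppi c = ζ ∧ f c = α}.Countable := by
  by_contra hcon
  push Not at hcon
  have h1 : #JJ ≤ ℵ_ 2 := by
    have h2 : #JJ ≤ #(⋃ α, {c | ppi c = ζ ∧ f c = α} : Set LL) := by
      refine mk_le_of_injective (f := fun j : JJ =>
        (⟨toLex (ζ, j), mem_iUnion.2 ⟨f (toLex (ζ, j)), rfl, rfl⟩⟩ :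
          (⋃ α, {c | ppi c = ζ ∧ f c = α} : Set LL))) ?_
      intro j j' h
      have h3 := congrArg Subtype.val h
      have h4 : (ζ, j) = (ζ, j') := toLex.injective h3
      exact congrArg Prod.snd h4
    refine h2.trans ((mk_iUnion_le _).trans ?_)
    rw [card_KK]
    refine (mul_le_mul' le_rfl (ciSup_le' fun α => (hcon α).le_aleph0)).trans ?_
    rw [mul_aleph0_eq (aleph0_le_aleph 2)]
  rw [card_JJ, aleph_three_eq] at h1
  exact absurd h1 (not_le.2 (Order.lt_succ _))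

/-- The core facts: a complete Boolean algebra with the covering and diagonalization
properties. -/
theorem exists_algebra : ∃ (B : Type) (_ : CompleteBooleanAlgebra B) (_ : Nontrivial B)
    (K L : Type) (cyl : L → ℕ → ℕ → B) (e : K → L),
    (∀ c n, ⨆ m, cyl c n m = ⊤) ∧
    (∀ c n m m', m ≠ m' → cyl c n m ⊓ cyl c n m' = ⊥) ∧
    (∀ y : ℕ → ℕ → B, (∀ n m m', m ≠ m' → y n m ⊓ y n m' = ⊥) →
      ∃ k : K, ⨆ N : ℕ, ⨅ n : ℕ, ⨅ _ : N ≤ n, ⨅ m : ℕ, (y n m ⊓ cyl (e k) n m)ᶜ = ⊤) ∧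
    (∀ (a : K → ℕ → ℕ → B) (b₀ : B), (∀ k n, b₀ ≤ binf (a k n)) →
      (∀ k k' n, b₀ ≤ bsub (a k n) (a k' n) ⊔ bsub (a k' n) (a k n)) →
      b₀ ≤ ⨆ c : L, ⨅ k : K, ⨆ n : ℕ, ⨆ v : ℕ, (cyl c n v ⊓ a k n v)) := by
  have H := isIter (L := LL)
  have hJ : Nonempty JJ := by
    rw [← mk_ne_zero_iff, card_JJ]
    exact (aleph_pos 3).ne'
  refine ⟨Alg LL, inferInstance, ?_, KK, LL, ccyl, fun k => toLex (k, Classical.choice hJ),
    H.cyl_sup, H.cyl_disj, fun y hy => ?_, fun a b₀ h1 h2 => ?_⟩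
  · refine ⟨⊤, ⊥, ?_⟩
    rw [ne_bot_iff, uset_top]
    exact ⟨fun _ _ => 0, trivial⟩
  · exact H.thmCov levels _ (fun _ => rfl) y hy
  · exact H.thmB levels fib a b₀ h1 h2

end Pool.Agent.Lib.P6aeb5f
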