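import Pool.Agent.Lib.BVM.ZFC
import Pool.Agent.Lib.BVM.Notions

/-!
The statement `cov(M) < od` inside a structure `(M, E)`.
-/

namespace Pool.Agent.Lib.P6aeb5f

open Pool.Agent.Lib.BVM

universe u

variable {M : Type u} (E : M → M → Prop)

/-- `x` and `y` agree below `n`. -/
def Agree (x y n : M) : Prop := ∀ k, E k n → ∀ v, App E x k v ↔ App E y k v

/-- The set `N` is nowhere dense in the Baire space `w^w`: every basic neighbourhood
`[x|n]` contains a basic neighbourhood `[y|m]` that misses `N`. -/
def IsNowhereDense (w N : M) : Prop :=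
  ∀ x n, IsFun E x w w → E n w → ∃ y m, IsFun E y w w ∧ E m w ∧ (∀ k, E k n → E k m) ∧
    Agree E x y n ∧ ∀ z, E z N → ¬ Agree E z y m

/-- `F` is a meager subset of the Baire space `w^w`: all its elements are functions from `w` to
`w`, and it is covered by a sequence of nowhere dense sets. -/
def IsMeager (w F : M) : Prop :=
  (∀ x, E x F → IsFun E x w w) ∧
  ∃ S, IsFunOn E S w ∧ (∀ n N, E n w → App E S n N → IsNowhereDense E w N) ∧
    ∀ x, E x F → ∃ n N, E n w ∧ App E S n N ∧ E x N

/-- `a` is an infinite subset of `w`. -/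
def IsInfSub (w a : M) : Prop :=
  (∀ k, E k a → E k w) ∧ ∀ m, E m w → ∃ k, E k a ∧ E m k

/-- `a \ b` is finite (for subsets `a`, `b` of `w`). -/
def AlmostSub (w a b : M) : Prop := ∃ m, E m w ∧ ∀ k, E k a → E m k → E k b

/-- `A` is a tau-family: a set of sequences (of length `w`) of infinite subsets of `w` such that
each coordinate family is linearly quasiordered by almost inclusion. -/
def IsTauFamily (w A : M) : Prop :=
  (∀ f, E f A → IsFunOn E f w ∧ ∀ n a, E n w → App E f n a → IsInfSub E w a) ∧
  ∀ f g n a b, E f A → E g A → E n w → App E f n a → App E g n b →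
    AlmostSub E w a b ∨ AlmostSub E w b a

/-- `A` is o-diagonalizable. -/
def IsODiag (w A : M) : Prop :=
  ∃ g, IsFun E g w w ∧ ∀ f, E f A → ∃ n a k, E n w ∧ App E f n a ∧ App E g n k ∧ E k a

/-- The model satisfies `cov(M) < od`: there is a family `F` of meager sets covering the Baire
space such that every tau-family of cardinality at most that of `F` (i.e. every tau-family which is
the image of `F` under a function) is o-diagonalizable. -/
def CovLtOd : Prop :=
  ∀ w, IsOmega E w → ∃ F,
    (∀ N, E N F → IsMeager E w N) ∧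
    (∀ x, IsFun E x w w → ∃ N, E N F ∧ E x N) ∧
    ∀ A h, IsSurj E h F A → IsTauFamily E w A → IsODiag E w A

end Pool.Agent.Lib.P6aeb5f
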