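import Pool.Agent.Lib.P6aeb5f.Names
import Pool.Agent.Lib.P6aeb5f.Model
import Pool.Agent.Lib.BVM.Facts

/-!
The quotient of the Boolean valued universe satisfies `cov(M) < od`.
-/

open Set Classical

namespace Pool.Agent.Lib.P6aeb5f

open Pool.Agent.Lib.BVM Pool.Agent.Lib.BVM.bSet

variable {B : Type} [CompleteBooleanAlgebra B]

/-! ### Boolean values -/

theorem bvAgree (x y n : bSet B) : BV (fun U => Agree (E U) (q U x) (q U y) (q U n)) :=
  BV.all fun k => (BV.mem _ _).imp (BV.all fun v => (BV.app x k v).biimp (BV.app y k v))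

theorem bvNwd (w N : bSet B) : BV (fun U => IsNowhereDense (E U) (q U w) (q U N)) :=
  BV.all fun x => BV.all fun n => (BV.isFun x w w).imp ((BV.mem _ _).imp
    (BV.ex fun y => BV.ex fun m => (BV.isFun y w w).and ((BV.mem _ _).and
      ((BV.all fun k => (BV.mem _ _).imp (BV.mem _ _)).and ((bvAgree x y n).and
        (BV.all fun z => (BV.mem _ _).imp (bvAgree z y m).not))))))

theorem bvMeager (w F : bSet B) : BV (fun U => IsMeager (E U) (q U w) (q U F)) :=
  BV.and (BV.all fun x => (BV.mem _ _).imp (BV.isFun x w w))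
    (BV.ex fun S => (BV.isFunOn S w).and ((BV.all fun n => BV.all fun N => (BV.mem _ _).imp
      ((BV.app S n N).imp (bvNwd w N))).and (BV.all fun x => (BV.mem _ _).imp
        (BV.ex fun n => BV.ex fun N => (BV.mem _ _).and ((BV.app S n N).and (BV.mem _ _))))))

theorem bvInfSub (w a : bSet B) : BV (fun U => IsInfSub (E U) (q U w) (q U a)) :=
  BV.and (BV.all fun k => (BV.mem _ _).imp (BV.mem _ _))
    (BV.all fun m => (BV.mem _ _).imp (BV.ex fun k => (BV.mem _ _).and (BV.mem _ _)))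

theorem bvAlmostSub (w a b : bSet B) :
    BV (fun U => AlmostSub (E U) (q U w) (q U a) (q U b)) :=
  BV.ex fun m => (BV.mem _ _).and (BV.all fun k => (BV.mem _ _).imp ((BV.mem _ _).imp
    (BV.mem _ _)))

theorem bvTau (w A : bSet B) : BV (fun U => IsTauFamily (E U) (q U w) (q U A)) :=
  BV.and (BV.all fun f => (BV.mem _ _).imp ((BV.isFunOn f w).and (BV.all fun n => BV.all fun a =>
      (BV.mem _ _).imp ((BV.app f n a).imp (bvInfSub w a)))))
    (BV.all fun f => BV.all fun g => BV.all fun n => BV.all fun a => BV.all fun b =>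
      (BV.mem _ _).imp ((BV.mem _ _).imp ((BV.mem _ _).imp ((BV.app f n a).imp
        ((BV.app g n b).imp ((bvAlmostSub w a b).or (bvAlmostSub w b a)))))))

theorem bvODiag (w A : bSet B) : BV (fun U => IsODiag (E U) (q U w) (q U A)) :=
  BV.ex fun g => (BV.isFun g w w).and (BV.all fun f => (BV.mem _ _).imp (BV.ex fun n =>
    BV.ex fun a => BV.ex fun k => (BV.mem _ _).and ((BV.app f n a).and ((BV.app g n k).and
      (BV.mem _ _)))))

/-! ### Matrices -/

/-- totality -/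
def total (y : ℕ → ℕ → B) : B := ⨅ n, ⨆ m, y n m

/-- single-valuedness -/
def single (y : ℕ → ℕ → B) : B := ⨅ n, ⨅ m, ⨅ m', ⨅ _ : m ≠ m', (y n m ⊓ y n m')ᶜ

theorem app_fnN_var {U : Ultra B} {y : ℕ → ℕ → B} {n : ℕ} {V : bSet B} :
    App (E U) (q U (fnN y)) (q U (num n)) (q U V) ↔ (⨆ m, y n m ⊓ beq V (num m)) ∈ U := by
  unfold fnN
  rw [app_graph]
  have h : (⨆ i : ℕ × ℕ, y i.1 i.2 ⊓ (beq (num n : bSet B) (num i.1) ⊓ beq V (num i.2))) =
      ⨆ m, y n m ⊓ beq V (num m) := by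
    apply le_antisymm
    · refine iSup_le fun i => ?_
      by_cases h1 : n = i.1
      · refine le_iSup_of_le i.2 ?_
        rw [h1]
        exact inf_le_inf_left _ inf_le_right
      · rw [beq_num_ne h1]
        simp
    · refine iSup_le fun m => le_iSup_of_le (n, m) ?_
      simp only
      rw [beq_refl, top_inf_eq]
  rw [h]

theorem isFun_total {X : bSet B} {b : B}
    (h1 : ∀ U, b ∈ U → IsFun (E U) (q U X) (q U omega) (q U omega)) (n : ℕ) :
    b ≤ ⨆ m, bv (fun U => App (E U) (q U X) (q U (num n)) (q U (num m))) := by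
  refine Ultra.le_of_forall fun U hb => ?_
  obtain ⟨v, hv, _⟩ := (h1 U hb).1.2 _ (E_num_omega U n)
  obtain ⟨V, rfl⟩ := q_surj v
  refine of_mem_omega (Z := V)
    (P := fun U => (⨆ m, bv (fun U => App (E U) (q U X) (q U (num n)) (q U (num m)))) ∈ U)
    (Q := fun U => App (E U) (q U X) (q U (num n)) (q U V)) (BV.of_mem _) (BV.app _ _ _)
    (fun m U hm hQ => ?_) ((h1 U hb).2 _ _ hv) hv
  rw [hm] at hQ
  refine Ultra.mono (((BV.app X (num n) (num m)).iff U).1 hQ) ?_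
  exact le_iSup (fun m => bv (fun U => App (E U) (q U X) (q U (num n)) (q U (num m)))) m

theorem isFun_single {X : bSet B} {b : B}
    (h1 : ∀ U, b ∈ U → IsFun (E U) (q U X) (q U omega) (q U omega)) (n m m' : ℕ) (hne : m ≠ m') :
    b ≤ (bv (fun U => App (E U) (q U X) (q U (num n)) (q U (num m))) ⊓
      bv (fun U => App (E U) (q U X) (q U (num n)) (q U (num m'))))ᶜ := by
  refine Ultra.le_of_forall fun U hb => ?_
  rw [Ultra.not_iff, Ultra.inf_iff]
  rintro ⟨h2, h3⟩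
  rw [← (BV.app X (num n) (num m)).iff U] at h2
  rw [← (BV.app X (num n) (num m')).iff U] at h3
  exact hne (num_inj (app_unique (h1 U hb).1 (E_num_omega U n) h2 h3))

section

variable {K L : Type} (cyl : L → ℕ → ℕ → B) (e : K → L)

/-- Boolean value of: `y(n) ≠ e_k(n)` for all `n ≥ N`. -/
def avoid (k : K) (y : ℕ → ℕ → B) (N : ℕ) : B :=
  ⨅ n, ⨅ _ : N ≤ n, ⨅ m, (y n m ⊓ cyl (e k) n m)ᶜ

/-- name of the meager set -/
def MkN (k : K) : bSet B :=
  mk (ℕ → ℕ → B) fnN (fun y => (total y ⊓ single y) ⊓ ⨆ N, avoid cyl e k y N)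

/-- name of the nowhere dense set -/
def TN (k : K) (N : ℕ) : bSet B :=
  mk (ℕ → ℕ → B) fnN (fun y => (total y ⊓ single y) ⊓ avoid cyl e k y N)

/-- name of the sequence of nowhere dense sets -/
def SN (k : K) : bSet B := graphName (ι := ℕ) num (TN cyl e k) (fun _ => ⊤)

/-- name of the covering family -/
def FN : bSet B := mk K (MkN cyl e) (fun _ => ⊤)

variable {cyl e}

theorem of_mem_FN {Z : bSet B} {P Q : Ultra B → Prop} (hP : BV P) (hQ : BV Q)
    (h : ∀ k U, q U Z = q U (MkN cyl e k) → Q U → P U) {U : Ultra B}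
    (h1 : E U (q U Z) (q U (FN cyl e))) (h2 : Q U) : P U :=
  of_mem (X := FN cyl e) hP hQ (fun k U _ hZ hQ => h k U hZ hQ) h1 h2

theorem Mk_mem_FN (U : Ultra B) (k : K) : E U (q U (MkN cyl e k)) (q U (FN cyl e)) :=
  Ultra.mono Ultra.top (le_bmem_mk (MkN cyl e) (fun _ => ⊤) k)

variable (hsup : ∀ c n, ⨆ m, cyl c n m = ⊤)
include hsup

theorem nwd (hdisj : ∀ c n m m', m ≠ m' → cyl c n m ⊓ cyl c n m' = ⊥) (k : K) (N0 : ℕ)
    (U : Ultra B) : IsNowhereDense (E U) (q U omega) (q U (TN cyl e k N0)) := by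
  intro x n hx hn
  obtain ⟨X, rfl⟩ := q_surj x
  obtain ⟨Nn, rfl⟩ := q_surj n
  refine of_mem_omega (Z := Nn) (P := fun U => ∃ y m, IsFun (E U) y (q U omega) (q U omega) ∧
      E U m (q U omega) ∧ (∀ k, E U k (q U Nn) → E U k m) ∧ Agree (E U) (q U X) y (q U Nn) ∧
      ∀ z, E U z (q U (TN cyl e k N0)) → ¬ Agree (E U) z y m)
    (Q := fun U => IsFun (E U) (q U X) (q U omega) (q U omega))
    (BV.ex fun y => BV.ex fun m => (BV.isFun y _ _).and ((BV.mem _ _).and
      ((BV.all fun k => (BV.mem _ _).imp (BV.mem _ _)).and ((bvAgree X y Nn).and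
        (BV.all fun z => (BV.mem _ _).imp (bvAgree z y m).not)))))
    (BV.isFun _ _ _) (fun n0 U hn0 hX => ?_) hn hx
  rw [hn0]
  set b : B := bv (fun U => IsFun (E U) (q U X) (q U omega) (q U omega)) with hb
  have hbU : b ∈ U := ((BV.isFun X omega omega).iff U).1 hX
  have hb1 : ∀ U : Ultra B, b ∈ U → IsFun (E U) (q U X) (q U omega) (q U omega) :=
    fun U h => ((BV.isFun X omega omega).iff U).2 h
  set x' : ℕ → ℕ → B := fun i j =>
    bv (fun U => App (E U) (q U X) (q U (num i)) (q U (num j))) with hx'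
  have hX' : q U X = q U (fnN x') :=
    fun_repr hb1 (fun U _ n m => (BV.app X (num n) (num m)).iff U) hbU
  set y' : ℕ → ℕ → B := fun i j => if i < n0 then x' i j else cyl (e k) i j with hy'
  have htot : total y' ∈ U := by
    refine Ultra.mono hbU (le_iInf fun i => ?_)
    by_cases hi : i < n0
    · simp only [hy', hi, if_true]
      exact isFun_total hb1 i
    · simp only [hy', hi, if_false, hsup]
      exact le_top
  have hsin : single y' ∈ U := by
    refine Ultra.mono hbU (le_iInf fun i => le_iInf fun m => le_iInf fun m' => le_iInf fun h => ?_)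
    by_cases hi : i < n0
    · simp only [hy', hi, if_true]
      exact isFun_single hb1 i m m' h
    · simp only [hy', hi, if_false]
      rw [hdisj _ _ _ _ h, compl_bot]
      exact le_top
  refine ⟨q U (fnN y'), q U (num (max n0 N0 + 1)), isFun_fnN htot hsin, E_num_omega U _, ?_, ?_, ?_⟩
  · intro k' hk'
    rw [E_num] at hk' ⊢
    obtain ⟨i, hi, h⟩ := hk'
    exact ⟨i, by omega, h⟩
  · intro k' hk' v
    obtain ⟨i, hi, rfl⟩ := (E_num _).1 hk'
    obtain ⟨V, rfl⟩ := q_surj v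
    rw [hX', app_fnN_var, app_fnN_var]
    simp only [hy', hi, if_true]
  · intro z hz hag
    obtain ⟨Z, rfl⟩ := q_surj z
    refine of_mem (X := TN cyl e k N0) (Z := Z) (P := fun _ => False)
      (Q := fun U => Agree (E U) (q U Z) (q U (fnN y')) (q U (num (max n0 N0 + 1))))
      (BV.const False) (bvAgree _ _ _) (fun z' U hz' hZ hag => ?_) hz hag
    change (total z' ⊓ single z') ⊓ avoid cyl e k z' N0 ∈ U at hz'
    change q U Z = q U (fnN z') at hZ
    rw [hZ] at hag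
    refine of_iSup (t := fun j => cyl (e k) (max n0 N0) j) (P := fun _ => False)
      (Q := fun U => avoid cyl e k z' N0 ∈ U ∧
        Agree (E U) (q U (fnN z')) (q U (fnN y')) (q U (num (max n0 N0 + 1))))
      (BV.const False) ((BV.of_mem _).and (bvAgree _ _ _)) (fun j U hj hQ => ?_)
      (by rw [hsup]; exact Ultra.top) ⟨(Ultra.inf_iff.1 hz').2, hag⟩
    have h1 : y' (max n0 N0) j = cyl (e k) (max n0 N0) j :=
      if_neg (not_lt.2 (le_max_left _ _))
    have h2 : App (E U) (q U (fnN y')) (q U (num (max n0 N0))) (q U (num j)) := by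
      rw [app_fnN, h1]
      exact hj
    have h3 := (hQ.2 (q U (num (max n0 N0))) (E_num_num.2 (Nat.lt_succ_self _))
      (q U (num j))).2 h2
    have h3' : z' (max n0 N0) j ∈ U :=
      (app_fnN (U := U) (y := z') (n := max n0 N0) (m := j)).1 h3
    have h4 : (z' (max n0 N0) j ⊓ cyl (e k) (max n0 N0) j)ᶜ ∈ U :=
      Ultra.mono hQ.1 ((iInf_le _ (max n0 N0)).trans ((iInf_le _ (le_max_right _ _)).trans
        (iInf_le _ j)))
    exact Ultra.not_iff.1 h4 (Ultra.inf_iff.2 ⟨h3', hj⟩)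

theorem meager_Mk (hdisj : ∀ c n m m', m ≠ m' → cyl c n m ⊓ cyl c n m' = ⊥) (k : K)
    (U : Ultra B) : IsMeager (E U) (q U omega) (q U (MkN cyl e k)) := by
  refine ⟨?_, q U (SN cyl e k), ⟨?_, ?_⟩, ?_, ?_⟩
  · intro x hx
    obtain ⟨X, rfl⟩ := q_surj x
    refine of_mem (X := MkN cyl e k) (Z := X)
      (P := fun U => IsFun (E U) (q U X) (q U omega) (q U omega)) (BV.isFun _ _ _) (BV.const True)
      (fun y U hy hX _ => ?_) hx trivial
    change (total y ⊓ single y) ⊓ (⨆ N, avoid cyl e k y N) ∈ U at hy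
    change q U X = q U (fnN y) at hX
    rw [hX]
    obtain ⟨h1, h2⟩ := Ultra.inf_iff.1 (Ultra.inf_iff.1 hy).1
    exact isFun_fnN h1 h2
  · intro p hp
    obtain ⟨Z, rfl⟩ := q_surj p
    refine of_mem (X := SN cyl e k) (Z := Z)
      (P := fun U => ∃ x y, E U x (q U omega) ∧ IsPair (E U) x y (q U Z))
      (BV.ex fun x => BV.ex fun y => (BV.mem _ _).and (BV.isPair _ _ _)) (BV.const True)
      (fun N U _ hZ _ => ?_) hp trivial
    exact ⟨q U (num N), q U (TN cyl e k N), E_num_omega U N, isPair_iff.2 hZ⟩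
  · refine ball_omega (P := fun U x => ∃! y, App (E U) (q U (SN cyl e k)) x y)
      (fun x => BV.exUnique fun y => BV.app _ _ _) (fun N U => ?_) U
    refine ⟨q U (TN cyl e k N), ?_, fun y hy => ?_⟩
    · change App (E U) (q U (SN cyl e k)) (q U (num N)) (q U (TN cyl e k N))
      rw [app_iff]
      exact Ultra.mono Ultra.top (le_bmem_mk (fun i => bpair (num i) (TN cyl e k i))
        (fun _ => ⊤) N)
    · obtain ⟨Y, rfl⟩ := q_surj y
      rw [app_iff] at hy
      refine of_mem (X := SN cyl e k) (Z := bpair (num N) Y)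
        (P := fun U => q U Y = q U (TN cyl e k N)) (BV.eq _ _) (BV.const True)
        (fun N' U _ hZ _ => ?_) hy trivial
      obtain ⟨h1, h2⟩ := bpair_inj.1 hZ
      rw [h2, num_inj h1]
  · intro n N hn hN
    obtain ⟨Nn, rfl⟩ := q_surj n
    obtain ⟨NN, rfl⟩ := q_surj N
    rw [app_iff] at hN
    refine of_mem (X := SN cyl e k) (Z := bpair Nn NN)
      (P := fun U => IsNowhereDense (E U) (q U omega) (q U NN)) (bvNwd _ _) (BV.const True)
      (fun N' U _ hZ _ => ?_) hN trivial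
    rw [(bpair_inj.1 hZ).2]
    exact nwd hsup hdisj k N' U
  · intro x hx
    obtain ⟨X, rfl⟩ := q_surj x
    have hBV : BV (fun U => ∃ n N, E U n (q U omega) ∧ App (E U) (q U (SN cyl e k)) n N ∧
        E U (q U X) N) :=
      BV.ex fun n => BV.ex fun N => (BV.mem _ _).and ((BV.app _ _ _).and (BV.mem _ _))
    refine of_mem (X := MkN cyl e k) (Z := X)
      (P := fun U => ∃ n N, E U n (q U omega) ∧ App (E U) (q U (SN cyl e k)) n N ∧
        E U (q U X) N) hBV (BV.const True)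
      (fun y U hy hX _ => ?_) hx trivial
    change (total y ⊓ single y) ⊓ (⨆ N, avoid cyl e k y N) ∈ U at hy
    change q U X = q U (fnN y) at hX
    refine of_iSup (t := fun N => avoid cyl e k y N) (Q := fun U => (total y ⊓ single y) ∈ U ∧
      q U X = q U (fnN y)) hBV ((BV.of_mem _).and (BV.eq _ _)) (fun N U hN hQ => ?_)
      (Ultra.inf_iff.1 hy).2 ⟨(Ultra.inf_iff.1 hy).1, hX⟩
    refine ⟨q U (num N), q U (TN cyl e k N), E_num_omega U N, ?_, ?_⟩
    · rw [app_iff]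
      exact Ultra.mono Ultra.top (le_bmem_mk (fun i => bpair (num i) (TN cyl e k i))
        (fun _ => ⊤) N)
    · rw [hQ.2]
      exact Ultra.mono (Ultra.inf_iff.2 ⟨hQ.1, hN⟩)
        (le_bmem_mk fnN (fun y => (total y ⊓ single y) ⊓ avoid cyl e k y N) y)

omit hsup in
theorem covering (hcov : ∀ y : ℕ → ℕ → B, (∀ n m m', m ≠ m' → y n m ⊓ y n m' = ⊥) →
      ∃ k : K, ⨆ N : ℕ, ⨅ n : ℕ, ⨅ _ : N ≤ n, ⨅ m : ℕ, (y n m ⊓ cyl (e k) n m)ᶜ = ⊤)
    (U : Ultra B) (x : Mod U) (hx : IsFun (E U) x (q U omega) (q U omega)) :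
    ∃ N, E U N (q U (FN cyl e)) ∧ E U x N := by
  obtain ⟨X, rfl⟩ := q_surj x
  set b : B := bv (fun U => IsFun (E U) (q U X) (q U omega) (q U omega)) with hb
  have hbU : b ∈ U := ((BV.isFun X omega omega).iff U).1 hx
  have hb1 : ∀ U : Ultra B, b ∈ U → IsFun (E U) (q U X) (q U omega) (q U omega) :=
    fun U h => ((BV.isFun X omega omega).iff U).2 h
  set x' : ℕ → ℕ → B := fun i j =>
    bv (fun U => App (E U) (q U X) (q U (num i)) (q U (num j))) with hx'
  set y : ℕ → ℕ → B := fun n m => b ⊓ x' n m with hy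
  have hsin : ∀ n m m', m ≠ m' → y n m ⊓ y n m' = ⊥ := by
    intro n m m' h
    rw [← le_bot_iff]
    refine Ultra.le_of_forall fun U hU => ?_
    obtain ⟨h1, h2⟩ := Ultra.inf_iff.1 hU
    obtain ⟨h3, h4⟩ := Ultra.inf_iff.1 h1
    obtain ⟨_, h5⟩ := Ultra.inf_iff.1 h2
    exact absurd (Ultra.inf_iff.2 ⟨h4, h5⟩) (Ultra.not_iff.1 (Ultra.mono h3
      (isFun_single hb1 n m m' h)))
  obtain ⟨k, hk⟩ := hcov y hsin
  refine ⟨q U (MkN cyl e k), Mk_mem_FN U k, ?_⟩
  have hX' : q U X = q U (fnN y) :=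
    fun_repr hb1 (fun U hb n m => by
      rw [(BV.app X (num n) (num m)).iff U, Ultra.inf_iff]
      exact ⟨fun h => ⟨hb, h⟩, fun h => h.2⟩) hbU
  rw [hX']
  refine Ultra.mono ?_ (le_bmem_mk fnN
    (fun y => (total y ⊓ single y) ⊓ ⨆ N, avoid cyl e k y N) y)
  refine Ultra.inf_iff.2 ⟨Ultra.inf_iff.2 ⟨?_, ?_⟩, ?_⟩
  · refine Ultra.mono hbU (le_iInf fun n => ?_)
    have h1 := isFun_total hb1 n
    calc b ≤ b ⊓ ⨆ m, x' n m := le_inf le_rfl h1
      _ = ⨆ m, y n m := inf_iSup_eq _ _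
  · refine Ultra.mono Ultra.top (le_iInf fun i => le_iInf fun m => le_iInf fun m' =>
      le_iInf fun h => ?_)
    rw [hsin i m m' h, compl_bot]
  · have : ⨆ N, avoid cyl e k y N = ⊤ := hk
    rw [this]
    exact Ultra.top

/-- The main computation. -/
theorem diag (hdisj : ∀ c n m m', m ≠ m' → cyl c n m ⊓ cyl c n m' = ⊥)
    (hod : ∀ (a : K → ℕ → ℕ → B) (b₀ : B), (∀ k n, b₀ ≤ binf (a k n)) →
      (∀ k k' n, b₀ ≤ bsub (a k n) (a k' n) ⊔ bsub (a k' n) (a k n)) →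
      b₀ ≤ ⨆ c : L, ⨅ k : K, ⨆ n : ℕ, ⨆ v : ℕ, (cyl c n v ⊓ a k n v))
    (U : Ultra B) (A h : Mod U) (hs : IsSurj (E U) h (q U (FN cyl e)) A)
    (ht : IsTauFamily (E U) (q U omega) A) : IsODiag (E U) (q U omega) A := by
  obtain ⟨A, rfl⟩ := q_surj A
  obtain ⟨h, rfl⟩ := q_surj h
  set R : Ultra B → Prop := fun U => IsSurj (E U) (q U h) (q U (FN cyl e)) (q U A) ∧
    IsTauFamily (E U) (q U omega) (q U A) with hR
  have hRB : BV R := (BV.isSurj _ _ _).and (bvTau _ _)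
  set a : K → ℕ → ℕ → B := fun k n v => bv (fun U => ∃ f s,
    App (E U) (q U h) (q U (MkN cyl e k)) f ∧ App (E U) f (q U (num n)) s ∧
      E U (q U (num v)) s) with ha
  have haB : ∀ k n v, BV (fun U => ∃ f s,
      App (E U) (q U h) (q U (MkN cyl e k)) f ∧ App (E U) f (q U (num n)) s ∧
        E U (q U (num v)) s) := fun k n v =>
    BV.ex fun f => BV.ex fun s => (BV.app _ _ _).and ((BV.app _ _ _).and (BV.mem _ _))
  have haU : ∀ (U : Ultra B) k n v, a k n v ∈ U ↔ ∃ f s,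
      App (E U) (q U h) (q U (MkN cyl e k)) f ∧ App (E U) f (q U (num n)) s ∧
        E U (q U (num v)) s := fun U k n v => ((haB k n v).iff U).symm
  -- value of the family at `k` and `n`
  have hval : ∀ (U : Ultra B), R U → ∀ k n, ∃ f s, App (E U) (q U h) (q U (MkN cyl e k)) f ∧
      App (E U) f (q U (num n)) s ∧ E U f (q U A) := by
    intro U hU k n
    obtain ⟨f, hf, _⟩ := hU.1.1.1.2 _ (Mk_mem_FN U k)
    have hfA : E U f (q U A) := hU.1.1.2 _ _ hf
    obtain ⟨s, hs, _⟩ := (hU.2.1 f hfA).1.2 _ (E_num_omega U n)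
    exact ⟨f, s, hf, hs, hfA⟩
  have huniq : ∀ (U : Ultra B), R U → ∀ k n f s f' s', App (E U) (q U h) (q U (MkN cyl e k)) f →
      App (E U) f (q U (num n)) s → App (E U) (q U h) (q U (MkN cyl e k)) f' →
      App (E U) f' (q U (num n)) s' → f = f' ∧ s = s' := by
    intro U hU k n f s f' s' h1 h2 h3 h4
    have h5 : f = f' := app_unique hU.1.1.1 (Mk_mem_FN U k) h1 h3
    subst h5
    exact ⟨rfl, app_unique (hU.2.1 f (hU.1.1.2 _ _ h1)).1 (E_num_omega U n) h2 h4⟩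
  have hinf : ∀ k n, bv R ≤ binf (a k n) := by
    intro k n
    refine le_iInf fun m => Ultra.le_of_forall fun U hU => ?_
    rw [← hRB.iff U] at hU
    obtain ⟨f, s, hf, hs, hfA⟩ := hval U hU k n
    obtain ⟨j, hj, hmj⟩ := ((hU.2.1 f hfA).2 _ _ (E_num_omega U n) hs).2 _ (E_num_omega U m)
    have hjw := ((hU.2.1 f hfA).2 _ _ (E_num_omega U n) hs).1 _ hj
    obtain ⟨f, rfl⟩ := q_surj f
    obtain ⟨s, rfl⟩ := q_surj s
    obtain ⟨j, rfl⟩ := q_surj j
    refine of_mem_omega (Z := j) (P := fun U => (⨆ i, ⨆ _ : m ≤ i, a k n i) ∈ U)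
      (Q := fun U => App (E U) (q U h) (q U (MkN cyl e k)) (q U f) ∧
        App (E U) (q U f) (q U (num n)) (q U s) ∧ E U (q U j) (q U s) ∧
        E U (q U (num m)) (q U j)) (BV.of_mem _)
      ((BV.app _ _ _).and ((BV.app _ _ _).and ((BV.mem _ _).and (BV.mem _ _))))
      (fun i U hi hQ => ?_) hjw ⟨hf, hs, hj, hmj⟩
    obtain ⟨h1, h2, h3, h4⟩ := hQ
    rw [hi] at h3 h4
    have h5 : m < i := E_num_num.1 h4
    have h6 : a k n i ∈ U := (haU U k n i).2 ⟨_, _, h1, h2, h3⟩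
    exact Ultra.mono h6 (le_iSup₂_of_le i h5.le le_rfl)
  have hsubU : ∀ k k' n (f s f' s' : bSet B) (U : Ultra B), R U →
      App (E U) (q U h) (q U (MkN cyl e k)) (q U f) → App (E U) (q U f) (q U (num n)) (q U s) →
      App (E U) (q U h) (q U (MkN cyl e k')) (q U f') →
      App (E U) (q U f') (q U (num n)) (q U s') → AlmostSub (E U) (q U omega) (q U s) (q U s') →
      bsub (a k n) (a k' n) ∈ U := by
    intro k k' n f s f' s' U hU h1 h2 h3 h4 ⟨m, hm, hall⟩
    obtain ⟨m, rfl⟩ := q_surj m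
    have hallB : ∀ m : bSet B, BV (fun U => ∀ j, E U j (q U s) → E U (q U m) j →
        E U j (q U s')) := fun m =>
      BV.all fun j => (BV.mem _ _).imp ((BV.mem _ _).imp (BV.mem _ _))
    refine of_mem_omega (Z := m) (P := fun U => bsub (a k n) (a k' n) ∈ U)
      (Q := fun U => R U ∧ App (E U) (q U h) (q U (MkN cyl e k)) (q U f) ∧
        App (E U) (q U f) (q U (num n)) (q U s) ∧
        App (E U) (q U h) (q U (MkN cyl e k')) (q U f') ∧
        App (E U) (q U f') (q U (num n)) (q U s') ∧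
        ∀ j, E U j (q U s) → E U (q U m) j → E U j (q U s')) (BV.of_mem _)
      (hRB.and ((BV.app _ _ _).and ((BV.app _ _ _).and ((BV.app _ _ _).and
        ((BV.app _ _ _).and (hallB m)))))) (fun i U hi hQ => ?_) hm ⟨hU, h1, h2, h3, h4, hall⟩
    rw [hi] at hQ
    set Q' : Ultra B → Prop := fun U => R U ∧ App (E U) (q U h) (q U (MkN cyl e k)) (q U f) ∧
        App (E U) (q U f) (q U (num n)) (q U s) ∧
        App (E U) (q U h) (q U (MkN cyl e k')) (q U f') ∧
        App (E U) (q U f') (q U (num n)) (q U s') ∧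
        ∀ j, E U j (q U s) → E U (q U (num i)) j → E U j (q U s') with hQ'
    have hQ'B : BV Q' := hRB.and ((BV.app _ _ _).and ((BV.app _ _ _).and ((BV.app _ _ _).and
        ((BV.app _ _ _).and (hallB (num i))))))
    refine Ultra.mono ((hQ'B.iff U).1 hQ) ?_
    refine le_iSup_of_le (i + 1) (le_iInf₂ fun j hj => ?_)
    rw [le_himp_iff]
    refine Ultra.le_of_forall fun U hU => ?_
    obtain ⟨g1, g2⟩ := Ultra.inf_iff.1 hU
    obtain ⟨g3, g4, g5, g6, g7, g8⟩ := (hQ'B.iff U).2 g1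
    obtain ⟨f'', s'', g9, g10, g11⟩ := (haU U k n j).1 g2
    obtain ⟨_, rfl⟩ := huniq U g3 k n _ _ _ _ g4 g5 g9 g10
    exact (haU U k' n j).2 ⟨_, _, g6, g7, g8 _ g11 (E_num_num.2 hj)⟩
  have hlin : ∀ k k' n, bv R ≤ bsub (a k n) (a k' n) ⊔ bsub (a k' n) (a k n) := by
    intro k k' n
    refine Ultra.le_of_forall fun U hU => ?_
    rw [← hRB.iff U] at hU
    obtain ⟨f, s, hf, hs, hfA⟩ := hval U hU k n
    obtain ⟨f', s', hf', hs', hfA'⟩ := hval U hU k' n
    rw [Ultra.sup_iff]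
    obtain ⟨f, rfl⟩ := q_surj f
    obtain ⟨s, rfl⟩ := q_surj s
    obtain ⟨f', rfl⟩ := q_surj f'
    obtain ⟨s', rfl⟩ := q_surj s'
    rcases hU.2.2 _ _ _ _ _ hfA hfA' (E_num_omega U n) hs hs' with h1 | h1
    · exact Or.inl (hsubU k k' n f s f' s' U hU hf hs hf' hs' h1)
    · exact Or.inr (hsubU k' k n f' s' f s U hU hf' hs' hf hs h1)
  have hmain := hod a (bv R) hinf hlin
  have hRU : R U := ⟨hs, ht⟩
  refine of_iSup (t := fun c : L => ⨅ k : K, ⨆ n : ℕ, ⨆ v : ℕ, (cyl c n v ⊓ a k n v))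
    (P := fun U => IsODiag (E U) (q U omega) (q U A)) (Q := R) (bvODiag _ _) hRB
    (fun c U hc hR => ?_) (Ultra.mono ((hRB.iff U).1 hRU) hmain) hRU
  have hg : ∀ U : Ultra B, IsFun (E U) (q U (fnN (cyl c))) (q U omega) (q U omega) := by
    intro U
    refine isFun_fnN (Ultra.mono Ultra.top (le_iInf fun n => ?_)) (Ultra.mono Ultra.top
      (le_iInf fun n => le_iInf fun m => le_iInf fun m' => le_iInf fun h => ?_))
    · rw [hsup]
    · rw [hdisj _ _ _ _ h, compl_bot]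
  refine ⟨q U (fnN (cyl c)), hg U, fun f hf => ?_⟩
  obtain ⟨x, hx, hxf⟩ := hR.1.2 f hf
  obtain ⟨f, rfl⟩ := q_surj f
  obtain ⟨x, rfl⟩ := q_surj x
  set G : Ultra B → Prop := fun U => ∃ n s v, E U n (q U omega) ∧ App (E U) (q U f) n s ∧
      App (E U) (q U (fnN (cyl c))) n v ∧ E U v s with hG
  have hGB : BV G := BV.ex fun n => BV.ex fun s => BV.ex fun v => (BV.mem _ _).and
    ((BV.app _ _ _).and ((BV.app _ _ _).and (BV.mem _ _)))
  refine of_mem_FN (Z := x) (P := G) (Q := fun U => R U ∧ App (E U) (q U h) (q U x) (q U f) ∧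
      (⨅ k : K, ⨆ n : ℕ, ⨆ v : ℕ, (cyl c n v ⊓ a k n v)) ∈ U) hGB
    (hRB.and ((BV.app _ _ _).and (BV.of_mem _))) (fun k U hx hQ => ?_) hx ⟨hR, hxf, hc⟩
  rw [hx] at hQ
  obtain ⟨hR, hxf, hc⟩ := hQ
  refine of_iSup (t := fun n : ℕ => ⨆ v : ℕ, (cyl c n v ⊓ a k n v)) (P := G)
    (Q := fun U => R U ∧ App (E U) (q U h) (q U (MkN cyl e k)) (q U f)) hGB
    (hRB.and (BV.app _ _ _)) (fun n U hn hQ => ?_) (Ultra.mono hc (iInf_le _ k)) ⟨hR, hxf⟩
  refine of_iSup (t := fun v : ℕ => (cyl c n v ⊓ a k n v)) (P := G)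
    (Q := fun U => R U ∧ App (E U) (q U h) (q U (MkN cyl e k)) (q U f)) hGB
    (hRB.and (BV.app _ _ _)) (fun v U hv hQ => ?_) hn hQ
  obtain ⟨h1, h2⟩ := Ultra.inf_iff.1 hv
  obtain ⟨f', s, h3, h4, h5⟩ := (haU U k n v).1 h2
  have h6 : f' = q U f := app_unique hQ.1.1.1.1 (Mk_mem_FN U k) h3 hQ.2
  subst h6
  exact ⟨q U (num n), s, q U (num v), E_num_omega U n, h4, app_fnN.2 h1, h5⟩

end

/-- A model of ZFC with `cov(M) < od` from the core facts. -/
theorem exists_model (B : Type) [CompleteBooleanAlgebra B] [Nontrivial B] (K L : Type)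
    (cyl : L → ℕ → ℕ → B) (e : K → L)
    (hsup : ∀ c n, ⨆ m, cyl c n m = ⊤)
    (hdisj : ∀ c n m m', m ≠ m' → cyl c n m ⊓ cyl c n m' = ⊥)
    (hcov : ∀ y : ℕ → ℕ → B, (∀ n m m', m ≠ m' → y n m ⊓ y n m' = ⊥) →
      ∃ k : K, ⨆ N : ℕ, ⨅ n : ℕ, ⨅ _ : N ≤ n, ⨅ m : ℕ, (y n m ⊓ cyl (e k) n m)ᶜ = ⊤)
    (hod : ∀ (a : K → ℕ → ℕ → B) (b₀ : B), (∀ k n, b₀ ≤ binf (a k n)) →
      (∀ k k' n, b₀ ≤ bsub (a k n) (a k' n) ⊔ bsub (a k' n) (a k n)) →
      b₀ ≤ ⨆ c : L, ⨅ k : K, ⨆ n : ℕ, ⨆ v : ℕ, (cyl c n v ⊓ a k n v)) :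
    ∃ (M : Type 1) (E : M → M → Prop), ModelZFC M E ∧ CovLtOd E := by
  obtain ⟨U, _⟩ := Ultra.exists_mem (top_ne_bot (α := B))
  refine ⟨Mod U, E U, modelZFC U, fun w hw => ?_⟩
  rw [eq_omega hw]
  refine ⟨q U (FN cyl e), fun N hN => ?_, covering hcov U, fun A h => diag hsup hdisj hod U A h⟩
  obtain ⟨N, rfl⟩ := q_surj N
  refine of_mem_FN (P := fun U => IsMeager (E U) (q U omega) (q U N)) (bvMeager _ _)
    (BV.const True) (fun k U hN _ => ?_) hN trivial
  rw [hN]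
  exact meager_Mk hsup hdisj k U

end Pool.Agent.Lib.P6aeb5f
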