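import Mathlib

/-!
Upper limits in a complete Boolean algebra.
-/

namespace Pool.Agent.Lib.P6aeb5f

variable {B : Type*} [CompleteBooleanAlgebra B]

/-- upper limit of a sequence -/
def lim (f : ℕ → B) : B := ⨅ N : ℕ, ⨆ b : ℕ, ⨆ _ : N ≤ b, f b

theorem lim_mono {f g : ℕ → B} (h : ∀ b, f b ≤ g b) : lim f ≤ lim g :=
  iInf_mono fun _ => iSup₂_mono fun b _ => h b

theorem tail_antitone (f : ℕ → B) : Antitone (fun N : ℕ => ⨆ b : ℕ, ⨆ _ : N ≤ b, f b) := by
  intro N N' h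
  exact iSup₂_le fun b hb => le_iSup₂_of_le b (h.trans hb) le_rfl

theorem lim_sup (f g : ℕ → B) : lim (fun b => f b ⊔ g b) = lim f ⊔ lim g := by
  unfold lim
  rw [← iInf_sup_of_antitone (tail_antitone f) (tail_antitone g)]
  congr 1
  funext N
  simp only [iSup_sup_eq]

theorem lim_bot : lim (fun _ => (⊥ : B)) = ⊥ := by
  unfold lim
  simp

theorem lim_finset_sup {ι : Type*} (S : Finset ι) (f : ι → ℕ → B) :
    lim (fun b => S.sup (fun m => f m b)) = S.sup (fun m => lim (f m)) := by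
  classical
  induction S using Finset.induction_on with
  | empty => simpa using lim_bot
  | insert a S _ ih => simp only [Finset.sup_insert]; rw [lim_sup, ih]

theorem inf_lim (x : B) (f : ℕ → B) : x ⊓ lim f = lim (fun b => x ⊓ f b) := by
  unfold lim
  apply le_antisymm
  · refine le_iInf fun N => ?_
    refine (inf_le_inf_left x (iInf_le _ N)).trans ?_
    rw [inf_iSup_eq]
    refine iSup_mono fun b => ?_
    rw [inf_iSup_eq]
  · refine le_inf ?_ (iInf_mono fun N => iSup₂_mono fun b _ => inf_le_right)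
    exact (iInf_le _ 0).trans (iSup₂_le fun b _ => inf_le_left)

theorem exists_of_le_lim {x : B} (hx : x ≠ ⊥) {f : ℕ → B} (h : x ≤ lim f) (N : ℕ) :
    ∃ b, N ≤ b ∧ x ⊓ f b ≠ ⊥ := by
  by_contra hcon
  push Not at hcon
  apply hx
  have h1 : x ≤ ⨆ b : ℕ, ⨆ _ : N ≤ b, f b := h.trans (iInf_le _ N)
  rw [← inf_eq_left.2 h1, inf_iSup_eq]
  simp only [inf_iSup_eq]
  simp only [iSup_eq_bot]
  exact hcon

theorem le_lim_iff {x : B} {f : ℕ → B} :
    x ≤ lim f ↔ ∀ N, x ≤ ⨆ b : ℕ, ⨆ _ : N ≤ b, f b := le_iInf_iff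

/-- Nonzero elements below a supremum. -/
theorem exists_inf_ne_bot {ι : Sort*} {x : B} {f : ι → B} (hx : x ≠ ⊥) (h : x ≤ ⨆ i, f i) :
    ∃ i, x ⊓ f i ≠ ⊥ := by
  by_contra hcon
  push Not at hcon
  apply hx
  rw [← inf_eq_left.2 h, inf_iSup_eq]
  simpa using hcon

/-- Density criterion for inequalities. -/
theorem le_of_dense {x y : B} (h : ∀ z, z ≠ ⊥ → z ≤ x → z ⊓ y ≠ ⊥) : x ≤ y := by
  by_contra hcon
  have h1 : x ⊓ yᶜ ≠ ⊥ := by
    intro h2
    exact hcon (by rwa [← disjoint_iff, disjoint_compl_right_iff] at h2)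
  exact h _ h1 inf_le_left (by rw [inf_assoc, compl_inf_self, inf_bot_eq])

theorem ne_bot_mono {x y : B} (h : x ≤ y) (hx : x ≠ ⊥) : y ≠ ⊥ := fun hy => hx (le_bot_iff.1 (hy ▸ h))

end Pool.Agent.Lib.P6aeb5f
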