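import Pool.Agent.Lib.P6aeb5f.Abs
import Pool.Agent.Lib.P6aeb5f.Lim

/-!
Basic consequences of the abstract interface.
-/

open Set Classical

namespace Pool.Agent.Lib.P6aeb5f

variable {L : Type} [LinearOrder L] {B : Type} [CompleteBooleanAlgebra B]
variable {BD : Set L → Set B} {loc : L → Stem → (ℕ → ℕ → B) → B} {cyl : L → ℕ → ℕ → B}

namespace IsIter

variable (H : IsIter BD loc cyl)
include H

section closure

variable {D : Set L}

theorem BD_iSup (hD : IsLowerSet D) {ι : Sort*} {f : ι → B} (h : ∀ i, f i ∈ BD D) :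
    (⨆ i, f i) ∈ BD D := by
  apply H.BD_sSup hD
  rintro _ ⟨i, rfl⟩
  exact h i

theorem BD_iInf (hD : IsLowerSet D) {ι : Sort*} {f : ι → B} (h : ∀ i, f i ∈ BD D) :
    (⨅ i, f i) ∈ BD D := by
  have : (⨅ i, f i) = (⨆ i, (f i)ᶜ)ᶜ := by simp [compl_iSup]
  rw [this]
  exact H.BD_compl hD (H.BD_iSup hD fun i => H.BD_compl hD (h i))

theorem BD_sup (hD : IsLowerSet D) {x y : B} (hx : x ∈ BD D) (hy : y ∈ BD D) :
    x ⊔ y ∈ BD D := by
  rw [sup_eq_iSup]
  exact H.BD_iSup hD (fun b => by cases b <;> assumption)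

theorem BD_inf (hD : IsLowerSet D) {x y : B} (hx : x ∈ BD D) (hy : y ∈ BD D) :
    x ⊓ y ∈ BD D := by
  rw [inf_eq_iInf]
  exact H.BD_iInf hD (fun b => by cases b <;> assumption)

theorem BD_bot (hD : IsLowerSet D) : ⊥ ∈ BD D := by
  rw [← sSup_empty]
  exact H.BD_sSup hD (by simp)

theorem BD_top (hD : IsLowerSet D) : ⊤ ∈ BD D := by
  rw [← compl_bot]
  exact H.BD_compl hD (H.BD_bot hD)

theorem BD_himp (hD : IsLowerSet D) {x y : B} (hx : x ∈ BD D) (hy : y ∈ BD D) :
    x ⇨ y ∈ BD D := by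
  rw [himp_eq]
  exact H.BD_sup hD hy (H.BD_compl hD hx)

theorem BD_finset_inf (hD : IsLowerSet D) {ι : Type*} {S : Finset ι} {f : ι → B}
    (h : ∀ i ∈ S, f i ∈ BD D) : S.inf f ∈ BD D := by
  rw [Finset.inf_eq_iInf]
  refine H.BD_iInf hD fun i => H.BD_iInf hD fun hi => h i hi

theorem BD_finset_sup (hD : IsLowerSet D) {ι : Type*} {S : Finset ι} {f : ι → B}
    (h : ∀ i ∈ S, f i ∈ BD D) : S.sup f ∈ BD D := by
  rw [Finset.sup_eq_iSup]
  refine H.BD_iSup hD fun i => H.BD_iSup hD fun hi => h i hi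

theorem BD_lim (hD : IsLowerSet D) {f : ℕ → B} (h : ∀ b, f b ∈ BD D) : lim f ∈ BD D :=
  H.BD_iInf hD fun _ => H.BD_iSup hD fun b => H.BD_iSup hD fun _ => h b

end closure

theorem loc_mono {c : L} {s : Stem} {N N' : ℕ → ℕ → B} (h : ∀ n m, N' n m ≤ N n m) :
    loc c s N' ≤ loc c s N := by
  have := H.loc_ext (c := c) (x := ⊤) (Stem.Le.refl s)
    (fun n h1 h2 => absurd h2 (not_lt.2 h1)) h
  simpa using this

omit H in
theorem val_le_loc {p : CD BD} {c : L} (hc : c ∈ p.dom) :
    p.val loc ≤ loc c (p.stem c) (p.prom c) := Finset.inf_le hc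

omit H in
theorem le_val_iff {p : CD BD} {x : B} :
    x ≤ p.val loc ↔ ∀ c ∈ p.dom, x ≤ loc c (p.stem c) (p.prom c) := Finset.le_inf_iff

omit H in
theorem mem_res_dom {p : CD BD} {D : Set L} {c : L} : c ∈ (p.res D).dom ↔ c ∈ p.dom ∧ c ∈ D := by
  simp [CD.res]

omit H in
theorem le_val_res_iff {p : CD BD} {D : Set L} {x : B} :
    x ≤ (p.res D).val loc ↔ ∀ c ∈ p.dom, c ∈ D → x ≤ loc c (p.stem c) (p.prom c) := by
  rw [le_val_iff]
  simp only [mem_res_dom, and_imp]
  rfl

theorem val_mem {D : Set L} (hD : IsLowerSet D) {p : CD BD} (h : ∀ c ∈ p.dom, c ∈ D) :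
    p.val loc ∈ BD D :=
  H.BD_finset_inf hD fun c hc => H.loc_mem hD (h c hc) (p.ok c)

theorem val_res_mem {D : Set L} (hD : IsLowerSet D) (p : CD BD) :
    (p.res D).val loc ∈ BD D := H.val_mem hD fun _ hc => (mem_res_dom.1 hc).2

omit H in
theorem val_le_res (p : CD BD) (D : Set L) : p.val loc ≤ (p.res D).val loc := by
  rw [le_val_res_iff]
  exact fun c hc _ => Finset.inf_le hc

omit H in
theorem val_split (p : CD BD) (D : Set L) :
    p.val loc = (p.res D).val loc ⊓ (p.res Dᶜ).val loc := by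
  apply le_antisymm (le_inf (val_le_res _ _) (val_le_res _ _))
  rw [le_val_iff]
  intro c hc
  by_cases h : c ∈ D
  · exact inf_le_left.trans (le_val_res_iff.1 le_rfl c hc h)
  · exact inf_le_right.trans (le_val_res_iff.1 le_rfl c hc h)

theorem Le_val {q p : CD BD} (h : q.Le loc p) : q.val loc ≤ p.val loc := by
  rw [le_val_iff]
  intro c hc
  obtain ⟨h1, h2, h3⟩ := h.2 c hc
  have h4 : (q.res (Iio c)).val loc ⊓ loc c (q.stem c) (q.prom c) ≤
      loc c (p.stem c) (p.prom c) := H.loc_ext h1 h3 h2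
  exact (le_inf (val_le_res _ _) (Finset.inf_le (h.1 hc))).trans h4

/-- projection -/
theorem proj {D : Set L} (hD : IsLowerSet D) {p : CD BD} {x : B} (hx : x ∈ BD D)
    (h : p.val loc ≤ x) : (p.res D).val loc ≤ x := by
  by_contra hcon
  have h1 : (p.res D).val loc ⊓ xᶜ ≠ ⊥ := by
    intro h2
    exact hcon (by rwa [← disjoint_iff, disjoint_compl_right_iff] at h2)
  have h2 := H.tail (p.res Dᶜ) hD (H.BD_inf hD (H.val_res_mem hD p) (H.BD_compl hD hx)) h1
    (fun c hc => (mem_res_dom.1 hc).2)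
  apply h2
  rw [← le_bot_iff]
  calc (p.res D).val loc ⊓ xᶜ ⊓ (p.res Dᶜ).val loc
      ≤ p.val loc ⊓ xᶜ := by
        rw [val_split p D]
        refine le_inf (le_inf (inf_le_left.trans inf_le_left) inf_le_right)
          (inf_le_left.trans inf_le_right)
    _ ≤ x ⊓ xᶜ := inf_le_inf_right _ h
    _ ≤ ⊥ := by rw [inf_compl_self]

/-- The trivial condition. -/
theorem isProm_top (c : L) : IsProm BD c (fun _ _ => (⊤ : B)) 0 := by
  refine ⟨fun _ _ => H.BD_top (isLowerSet_Iio c), fun n S hS => ?_⟩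
  obtain ⟨m, hm⟩ := Finset.card_pos.1 hS
  rw [eq_top_iff]
  exact Finset.le_sup (f := fun _ => (⊤ : B)) hm

/-- the trivial condition -/
def triv : CD BD where
  dom := ∅
  stem _ := Stem.emp
  prom _ _ _ := ⊤
  bd _ := 0
  ok c := H.isProm_top c

theorem val_triv : (H.triv).val loc = ⊤ := by simp [CD.val, triv]

theorem val_ne_bot [Nontrivial B] (p : CD BD) : p.val loc ≠ ⊥ := by
  have := H.tail p isLowerSet_empty (H.BD_top isLowerSet_empty) top_ne_bot (fun _ _ => by simp)
  simpa using this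

theorem denseD {D : Set L} (hD : IsLowerSet D) {x : B} (hx : x ∈ BD D) (hne : x ≠ ⊥) :
    ∃ p : CD BD, (∀ c ∈ p.dom, c ∈ D) ∧ p.val loc ≤ x := by
  obtain ⟨p, _, hp⟩ := H.dense H.triv hne (by rw [H.val_triv]; exact le_top)
  exact ⟨p.res D, fun c hc => (mem_res_dom.1 hc).2, H.proj hD hx hp⟩

end IsIter

/-! ### intersections of promises -/

/-- Distributing a finite meet of joins. -/
theorem finset_split {ι : Type*} [DecidableEq ι] (S : Finset ι) (f g : ι → B) :
    ∀ x : B, x ≠ ⊥ → (∀ m ∈ S, x ≤ f m ⊔ g m) →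
      ∃ T ⊆ S, x ⊓ T.inf f ⊓ (S \ T).inf g ≠ ⊥ := by
  induction S using Finset.induction_on with
  | empty =>
    intro x hx _
    exact ⟨∅, by simp, by simpa using hx⟩
  | insert a S ha ih =>
    intro x hx h
    obtain ⟨T, hT, hne⟩ := ih x hx (fun m hm => h m (Finset.mem_insert_of_mem hm))
    have h1 : x ⊓ T.inf f ⊓ (S \ T).inf g ≤ f a ⊔ g a :=
      (inf_le_left.trans inf_le_left).trans (h a (Finset.mem_insert_self _ _))
    have haT : a ∉ T := fun h => ha (hT h)
    by_cases h2 : x ⊓ T.inf f ⊓ (S \ T).inf g ⊓ f a ≠ ⊥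
    · refine ⟨insert a T, Finset.insert_subset_insert a hT, ?_⟩
      have h3 : insert a S \ insert a T = S \ T := by
        ext y
        simp only [Finset.mem_sdiff, Finset.mem_insert, not_or]
        constructor
        · rintro ⟨h1 | h1, h2, h3⟩
          · exact absurd h1 h2
          · exact ⟨h1, h3⟩
        · rintro ⟨h1, h2⟩
          exact ⟨Or.inr h1, fun h => ha (h ▸ h1), h2⟩
      rw [h3, Finset.inf_insert]
      refine ne_bot_mono ?_ h2
      refine le_inf (le_inf ?_ (le_inf ?_ ?_)) ?_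
      · exact inf_le_left.trans (inf_le_left.trans inf_le_left)
      · exact inf_le_right
      · exact inf_le_left.trans (inf_le_left.trans inf_le_right)
      · exact inf_le_left.trans inf_le_right
    · push Not at h2
      refine ⟨T, hT.trans (Finset.subset_insert _ _), ?_⟩
      have h3 : insert a S \ T = insert a (S \ T) := by
        rw [Finset.insert_sdiff_of_notMem _ haT]
      rw [h3, Finset.inf_insert]
      have h4 : x ⊓ T.inf f ⊓ (S \ T).inf g ≤ g a := by
        have h5 := inf_eq_left.2 h1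
        rw [inf_sup_left, h2, bot_sup_eq] at h5
        exact inf_eq_left.1 h5
      refine ne_bot_mono ?_ hne
      exact le_inf inf_le_left (le_inf h4 inf_le_right)

theorem isProm_inf {c : L} (H : IsIter BD loc cyl) {N N' : ℕ → ℕ → B} {l l' : ℕ}
    (h : IsProm BD c N l) (h' : IsProm BD c N' l') :
    IsProm BD c (fun n m => N n m ⊓ N' n m) (l + l') := by
  refine ⟨fun n m => H.BD_inf (isLowerSet_Iio c) (h.1 n m) (h'.1 n m), fun n S hS => ?_⟩
  rw [← compl_eq_bot]
  by_contra hcon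
  obtain ⟨T, hT, hne⟩ := finset_split S (fun m => (N n m)ᶜ) (fun m => (N' n m)ᶜ) _ hcon
    (fun m hm => by
      rw [← compl_inf]
      exact compl_le_compl (Finset.le_sup (f := fun m => N n m ⊓ N' n m) hm))
  have hcard : l < T.card ∨ l' < (S \ T).card := by
    have := Finset.card_sdiff_add_card_eq_card hT
    omega
  apply hne
  rw [← le_bot_iff]
  have key : ∀ (T : Finset ℕ) (N : ℕ → B), T.sup N = ⊤ → T.inf (fun m => (N m)ᶜ) = ⊥ := by
    intro T N h
    have h1 : T.inf (fun m => (N m)ᶜ) = (T.sup N)ᶜ := by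
      rw [Finset.compl_sup]
    rw [h1, h, compl_top]
  rcases hcard with h1 | h1
  · rw [key T _ (h.2 n T h1)]
    simp
  · rw [key (S \ T) _ (h'.2 n _ h1)]
    simp

theorem isProm_mono_bd {c : L} {N : ℕ → ℕ → B} {l l' : ℕ}
    (h : IsProm BD c N l) (hl : l ≤ l') : IsProm BD c N l' :=
  ⟨h.1, fun n S hS => h.2 n S (lt_of_le_of_lt hl hS)⟩

namespace IsIter

variable (H : IsIter BD loc cyl)
include H

/-- Combination of two conditions, with stems taken from the first one if available. -/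
noncomputable def comb (p q : CD BD) : CD BD where
  dom := p.dom ∪ q.dom
  stem c := if c ∈ p.dom then p.stem c else q.stem c
  prom c n m := (if c ∈ p.dom then p.prom c n m else ⊤) ⊓ (if c ∈ q.dom then q.prom c n m else ⊤)
  bd c := p.bd c + q.bd c
  ok c := by
    apply isProm_inf H
    · by_cases h : c ∈ p.dom
      · simpa [h] using p.ok c
      · simpa [h] using isProm_mono_bd (H.isProm_top c) (Nat.zero_le _)
    · by_cases h : c ∈ q.dom
      · simpa [h] using q.ok c
      · simpa [h] using isProm_mono_bd (H.isProm_top c) (Nat.zero_le _)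

theorem comb_val_le_left (p q : CD BD) : (H.comb p q).val loc ≤ p.val loc := by
  rw [le_val_iff]
  intro c hc
  refine (val_le_loc (p := H.comb p q) (c := c) (Finset.mem_union_left _ hc)).trans ?_
  have h1 : (H.comb p q).stem c = p.stem c := if_pos hc
  rw [h1]
  apply H.loc_mono
  intro n m
  simp only [comb, if_pos hc]
  exact inf_le_left

theorem comb_val_le_loc_right (p q : CD BD) {c : L} (hc : c ∈ q.dom)
    (hs : c ∈ p.dom → p.stem c = q.stem c) :
    (H.comb p q).val loc ≤ loc c (q.stem c) (q.prom c) := by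
  refine (val_le_loc (p := H.comb p q) (c := c) (Finset.mem_union_right _ hc)).trans ?_
  have h1 : (H.comb p q).stem c = q.stem c := by
    by_cases h : c ∈ p.dom
    · rw [← hs h]; exact if_pos h
    · exact if_neg h
  rw [h1]
  apply H.loc_mono
  intro n m
  simp only [comb, if_pos hc]
  exact inf_le_right

theorem comb_val_le_right (p q : CD BD) (hs : ∀ c ∈ q.dom, c ∈ p.dom → p.stem c = q.stem c) :
    (H.comb p q).val loc ≤ q.val loc := by
  rw [le_val_iff]
  intro c hc
  exact H.comb_val_le_loc_right p q hc (hs c hc)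

end IsIter

end Pool.Agent.Lib.P6aeb5f
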