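import Pool.Agent.Lib.P6aeb5f.Iter

/-!
The key limit lemma.
-/

open Set Classical

namespace Pool.Agent.Lib.P6aeb5f

variable {L : Type} [LinearOrder L] {B : Type} [CompleteBooleanAlgebra B]
variable {BD : Set L → Set B} {loc : L → Stem → (ℕ → ℕ → B) → B} {cyl : L → ℕ → ℕ → B}

theorem finite_bound {S : Set ℕ} (h : S.Finite) : ∃ N, ∀ b ∈ S, b < N := by
  obtain ⟨N, hN⟩ := h.bddAbove
  exact ⟨N + 1, fun b hb => Nat.lt_succ_of_le (hN hb)⟩

theorem avoid_dom (p : CD BD) (d : Finset L) {ι : ℕ → Type*} (t : ∀ b, ι b → CD BD)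
    (hfin : ∀ c, c ∉ d → {b | ∃ γ, c ∈ (t b γ).dom}.Finite) :
    ∃ N, ∀ b, N ≤ b → ∀ γ, ∀ c ∈ p.dom, c ∉ d → c ∉ (t b γ).dom := by
  have : (⋃ c ∈ {c | c ∈ p.dom ∧ c ∉ d}, {b | ∃ γ, c ∈ (t b γ).dom}).Finite := by
    refine Set.Finite.biUnion ?_ (fun c hc => hfin c hc.2)
    exact (p.dom.finite_toSet).subset fun c hc => hc.1
  obtain ⟨N, hN⟩ := finite_bound this
  refine ⟨N, fun b hb γ c hc hcd hct => ?_⟩
  have := hN b (mem_biUnion (show c ∈ {c | c ∈ p.dom ∧ c ∉ d} from ⟨hc, hcd⟩) ⟨γ, hct⟩)
  omega

namespace IsIter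

variable (H : IsIter BD loc cyl)
include H

theorem KL {D : Set L} (hD : IsLowerSet D) {ι : ℕ → Type*} (a : ∀ b, ι b → B)
    (ha : ∀ b γ, a b γ ∈ BD D) (hdisj : ∀ b γ γ', γ ≠ γ' → a b γ ⊓ a b γ' = ⊥)
    {u : B} (hu : u ∈ BD D) (hlim : u ≤ lim (fun b => ⨆ γ, a b γ)) (l : L → ℕ) (s : L → Stem)
    (d : Finset L) :
    (∀ c ∈ d, c ∉ D) → ∀ t : ∀ b, ι b → CD BD,
      (∀ b γ, ∀ c ∈ (t b γ).dom, c ∉ D) → (∀ b γ, d ⊆ (t b γ).dom) →
      (∀ b γ, ∀ c ∈ d, (t b γ).stem c = s c ∧ (t b γ).bd c ≤ l c) →
      (∀ c, c ∉ d → {b | ∃ γ, c ∈ (t b γ).dom}.Finite) →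
      ∃ r : CD BD, r.dom = d ∧ (∀ c ∈ d, r.stem c = s c) ∧
        ∀ x, x ≠ ⊥ → x ≤ u ⊓ r.val loc → ∀ N, ∃ b, N ≤ b ∧ ∃ γ,
          x ⊓ a b γ ⊓ (t b γ).val loc ≠ ⊥ := by
  induction d using Finset.induction_on_max with
  | empty =>
    intro _ t htD _ _ hfin
    refine ⟨H.triv, rfl, by simp, fun x hx hxu N => ?_⟩
    have : Nontrivial B := ⟨x, ⊥, hx⟩
    obtain ⟨p, _, hp⟩ := H.dense H.triv hx (by rw [H.val_triv]; exact le_top)
    obtain ⟨N', hN'⟩ := avoid_dom p ∅ t hfin
    have hPu : (p.res D).val loc ≤ u := H.proj hD hu (hp.trans (hxu.trans inf_le_left))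
    obtain ⟨b, hb, hne⟩ := exists_of_le_lim (H.val_ne_bot (p.res D)) (hPu.trans hlim) (max N N')
    obtain ⟨γ, hγ⟩ := exists_inf_ne_bot hne inf_le_right
    refine ⟨b, (le_max_left _ _).trans hb, γ, ?_⟩
    have hb' : N' ≤ b := (le_max_right _ _).trans hb
    have hγ' : (p.res D).val loc ⊓ a b γ ≠ ⊥ :=
      ne_bot_mono (inf_le_inf_right _ inf_le_left) hγ
    have h1 := H.tail (H.comb (p.res Dᶜ) (t b γ)) hD (H.BD_inf hD (H.val_res_mem hD p) (ha b γ))
      hγ' (fun c hc => by
        rcases Finset.mem_union.1 hc with hc | hc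
        · exact (mem_res_dom.1 hc).2
        · exact htD b γ c hc)
    refine ne_bot_mono (le_inf (le_inf ?_ ?_) ?_) h1
    · refine le_trans ?_ hp
      rw [val_split p D]
      exact le_inf (inf_le_left.trans inf_le_left) (inf_le_right.trans (H.comb_val_le_left _ _))
    · exact inf_le_left.trans inf_le_right
    · refine inf_le_right.trans (H.comb_val_le_right _ _ fun c hc hc' => ?_)
      exact absurd hc (hN' b hb' γ c (mem_res_dom.1 hc').1 (by simp))
  | insert c d hmax ih =>
    intro hdD t htD hdt hst hfin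
    have hcd : c ∉ d := fun h => lt_irrefl _ (hmax c h)
    have hDc : D ⊆ Iio c := by
      intro x hx
      by_contra hcon
      exact hdD c (Finset.mem_insert_self _ _) (hD (not_lt.1 hcon) hx)
    have hlow : IsLowerSet (Iio c) := isLowerSet_Iio c
    set t' : ∀ b, ι b → CD BD := fun b γ => (t b γ).res (Iio c) with ht'
    obtain ⟨r', hr'd, hr's, hr'⟩ := ih (fun c' hc' => hdD c' (Finset.mem_insert_of_mem hc')) t'
      (fun b γ c' hc' => htD b γ c' (mem_res_dom.1 hc').1)
      (fun b γ c' hc' => mem_res_dom.2 ⟨hdt b γ (Finset.mem_insert_of_mem hc'), hmax c' hc'⟩)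
      (fun b γ c' hc' => hst b γ c' (Finset.mem_insert_of_mem hc'))
      (fun c' hc' => by
        by_cases h : c' = c
        · subst h
          convert Set.finite_empty
          ext b
          simp only [mem_ofPred_eq, mem_empty_iff_false, iff_false, not_exists]
          intro γ hγ
          exact lt_irrefl _ (mem_res_dom.1 hγ).2
        · refine (hfin c' ?_).subset ?_
          · rw [Finset.mem_insert, not_or]
            exact ⟨h, hc'⟩
          · rintro b ⟨γ, hγ⟩
            exact ⟨γ, (mem_res_dom.1 hγ).1⟩)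
    have ha' : ∀ b γ, a b γ ∈ BD (Iio c) := fun b γ => H.BD_mono hDc (ha b γ)
    have hu' : u ∈ BD (Iio c) := H.BD_mono hDc hu
    set v := u ⊓ r'.val loc with hv
    have hvm : v ∈ BD (Iio c) := by
      refine H.BD_inf hlow hu' (H.val_mem hlow fun c' hc' => ?_)
      rw [hr'd] at hc'
      exact hmax c' hc'
    set M0 : ℕ → B := fun b => ⨆ γ, a b γ ⊓ (t' b γ).val loc with hM0
    set Nb : ℕ → ℕ → ℕ → B := fun b n m =>
      ⨆ γ, a b γ ⊓ (t' b γ).val loc ⊓ (t b γ).prom c n m with hNb
    have hM0m : ∀ b, M0 b ∈ BD (Iio c) := fun b => H.BD_iSup hlow fun γ =>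
      H.BD_inf hlow (ha' b γ) (H.val_res_mem hlow _)
    have hNbm : ∀ b n m, Nb b n m ∈ BD (Iio c) := fun b n m => H.BD_iSup hlow fun γ =>
      H.BD_inf hlow (H.BD_inf hlow (ha' b γ) (H.val_res_mem hlow _)) (((t b γ).ok c).1 n m)
    set F : ℕ → (ℕ → B) → (ℕ → B) := fun j Mj b =>
      Mj b ⊓ ((lim (fun b => Mj b ⊓ Nb b (Nat.unpair j).1 (Nat.unpair j).2) ⊓
        Nb b (Nat.unpair j).1 (Nat.unpair j).2) ⊔
        (lim (fun b => Mj b ⊓ Nb b (Nat.unpair j).1 (Nat.unpair j).2))ᶜ) with hF
    set M : ℕ → ℕ → B := fun j => Nat.rec M0 (fun j Mj => F j Mj) j with hM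
    have hMz : M 0 = M0 := rfl
    set A : ℕ → B := fun j => lim (fun b => M j b ⊓ Nb b (Nat.unpair j).1 (Nat.unpair j).2) with hA
    have hMs : ∀ j b, M (j + 1) b =
        M j b ⊓ ((A j ⊓ Nb b (Nat.unpair j).1 (Nat.unpair j).2) ⊔ (A j)ᶜ) := fun j b => rfl
    have hMm : ∀ j b, M j b ∈ BD (Iio c) := by
      intro j
      induction j with
      | zero => exact hM0m
      | succ j ihj =>
        intro b
        rw [hMs]
        have hAj : A j ∈ BD (Iio c) := H.BD_lim hlow fun b => H.BD_inf hlow (ihj b) (hNbm _ _ _)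
        exact H.BD_inf hlow (ihj b) (H.BD_sup hlow (H.BD_inf hlow hAj (hNbm _ _ _))
          (H.BD_compl hlow hAj))
    have hAm : ∀ j, A j ∈ BD (Iio c) := fun j =>
      H.BD_lim hlow fun b => H.BD_inf hlow (hMm j b) (hNbm _ _ _)
    have hManti : ∀ b, Antitone (fun j => M j b) := by
      intro b
      refine antitone_nat_of_succ_le fun j => ?_
      rw [hMs]
      exact inf_le_left
    have hvM : ∀ j, v ≤ lim (M j) := by
      intro j
      induction j with
      | zero =>
        rw [hMz, le_lim_iff]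
        intro N
        refine le_of_dense fun x hx hxv => ?_
        obtain ⟨b, hb, γ, hγ⟩ := hr' x hx hxv N
        refine ne_bot_mono (inf_le_inf_left x ?_) (by rwa [inf_assoc] at hγ)
        exact le_iSup₂_of_le b hb (le_iSup (fun γ => a b γ ⊓ (t' b γ).val loc) γ)
      | succ j ihj =>
        have h1 : A j ≤ lim (M (j + 1)) := by
          calc A j = A j ⊓ lim (fun b => M j b ⊓ Nb b (Nat.unpair j).1 (Nat.unpair j).2) := by
                rw [hA, inf_idem]
            _ = lim (fun b => A j ⊓ (M j b ⊓ Nb b (Nat.unpair j).1 (Nat.unpair j).2)) := inf_lim _ _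
            _ ≤ lim (M (j + 1)) := by
                refine lim_mono fun b => ?_
                rw [hMs]
                exact le_inf (inf_le_right.trans inf_le_left)
                  (le_sup_of_le_left (le_inf inf_le_left (inf_le_right.trans inf_le_right)))
        have h2 : (A j)ᶜ ⊓ lim (M j) ≤ lim (M (j + 1)) := by
          rw [inf_lim]
          refine lim_mono fun b => ?_
          rw [hMs]
          exact le_inf inf_le_right (le_sup_of_le_right inf_le_left)
        calc v ≤ (A j ⊔ (A j)ᶜ) ⊓ v := by rw [sup_compl_eq_top, top_inf_eq]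
          _ = A j ⊓ v ⊔ (A j)ᶜ ⊓ v := inf_sup_right _ _ _
          _ ≤ lim (M (j + 1)) :=
            sup_le (inf_le_left.trans h1) ((inf_le_inf_left _ ihj).trans h2)
    set Nst : ℕ → ℕ → B := fun n m => A (Nat.pair n m) ⊔ vᶜ with hNst
    have hprom : IsProm BD c Nst (l c) := by
      refine ⟨fun n m => H.BD_sup hlow (hAm _) (H.BD_compl hlow hvm), fun n S hS => ?_⟩
      have hvS : v ≤ S.sup (fun m => A (Nat.pair n m)) := by
        set J := S.sup (fun m => Nat.pair n m) with hJ
        have h1 : ∀ b, M J b ≤ S.sup (fun m => M (Nat.pair n m) b ⊓ Nb b n m) := by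
          intro b
          have h2 : M J b ≤ S.sup (fun m => Nb b n m) := by
            refine (hManti b (Nat.zero_le J)).trans ?_
            change M0 b ≤ _
            rw [hM0]
            refine iSup_le fun γ => ?_
            have h3 : S.sup ((t b γ).prom c n) = ⊤ := by
              refine ((t b γ).ok c).2 n S (lt_of_le_of_lt ?_ hS)
              exact (hst b γ c (Finset.mem_insert_self _ _)).2
            calc a b γ ⊓ (t' b γ).val loc
                = a b γ ⊓ (t' b γ).val loc ⊓ S.sup ((t b γ).prom c n) := by rw [h3, inf_top_eq]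
              _ = S.sup (fun m => a b γ ⊓ (t' b γ).val loc ⊓ (t b γ).prom c n m) := by
                  rw [Finset.sup_inf_distrib_left]
              _ ≤ S.sup (fun m => Nb b n m) := by
                  refine Finset.sup_mono_fun fun m _ => ?_
                  exact le_iSup (fun γ => a b γ ⊓ (t' b γ).val loc ⊓ (t b γ).prom c n m) γ
          calc M J b = M J b ⊓ S.sup (fun m => Nb b n m) := (inf_eq_left.2 h2).symm
            _ = S.sup (fun m => M J b ⊓ Nb b n m) := by rw [Finset.sup_inf_distrib_left]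
            _ ≤ S.sup (fun m => M (Nat.pair n m) b ⊓ Nb b n m) := by
                refine Finset.sup_mono_fun fun m hm => inf_le_inf_right _ (hManti b ?_)
                exact Finset.le_sup (f := fun m => Nat.pair n m) hm
        calc v ≤ lim (M J) := hvM J
          _ ≤ lim (fun b => S.sup (fun m => M (Nat.pair n m) b ⊓ Nb b n m)) := lim_mono h1
          _ = S.sup (fun m => lim (fun b => M (Nat.pair n m) b ⊓ Nb b n m)) :=
              lim_finset_sup S _
          _ = S.sup (fun m => A (Nat.pair n m)) := by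
              refine Finset.sup_congr rfl fun m _ => ?_
              simp only [hA, Nat.unpair_pair]
      rw [eq_top_iff]
      have h5 : ∃ m, m ∈ S := Finset.card_pos.1 (lt_of_le_of_lt (Nat.zero_le _) hS)
      obtain ⟨m0, hm0⟩ := h5
      calc (⊤ : B) = v ⊔ vᶜ := (sup_compl_eq_top).symm
        _ ≤ S.sup (Nst n) := by
          refine sup_le (hvS.trans (Finset.sup_mono_fun fun m _ => le_sup_left)) ?_
          exact le_sup_right.trans (Finset.le_sup (f := Nst n) hm0)
    set r : CD BD := {
      dom := insert c d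
      stem := fun c' => if c' = c then s c else r'.stem c'
      prom := fun c' => if c' = c then Nst else r'.prom c'
      bd := fun c' => if c' = c then l c else r'.bd c'
      ok := fun c' => by
        by_cases h : c' = c
        · subst h; simpa using hprom
        · simpa [h] using r'.ok c' } with hr
    have hrc : r.stem c = s c := if_pos rfl
    have hrN : r.prom c = Nst := if_pos rfl
    have hrr' : r.val loc ≤ r'.val loc := by
      rw [le_val_iff]
      intro c' hc'
      rw [hr'd] at hc'
      have hne : c' ≠ c := fun h => hcd (h ▸ hc')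
      have h1 : r.stem c' = r'.stem c' := if_neg hne
      have h2 : r.prom c' = r'.prom c' := if_neg hne
      rw [← h1, ← h2]
      exact val_le_loc (p := r) (Finset.mem_insert_of_mem hc')
    refine ⟨r, rfl, fun c' hc' => ?_, fun x hx hxu N => ?_⟩
    · by_cases h : c' = c
      · subst h; exact hrc
      · have h1 : r.stem c' = r'.stem c' := if_neg h
        rw [h1]
        exact hr's c' ((Finset.mem_insert.1 hc').resolve_left h)
    · have : Nontrivial B := ⟨x, ⊥, hx⟩
      obtain ⟨p, hpr, hpx⟩ := H.dense r hx (hxu.trans inf_le_right)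
      obtain ⟨q1, q2, q3⟩ := hpr.2 c (Finset.mem_insert_self _ _)
      rw [hrc] at q1 q3
      rw [hrN] at q2 q3
      set P := (p.res (Iio c)).val loc with hP
      have hPne : P ≠ ⊥ := H.val_ne_bot _
      have hPm : P ∈ BD (Iio c) := H.val_res_mem hlow p
      have hPv : P ≤ v := H.proj hlow hvm (hpx.trans (hxu.trans (inf_le_inf_left _ hrr')))
      have hPA : ∀ n, (s c).len ≤ n → n < (p.stem c).len →
          P ≤ A (Nat.pair n ((p.stem c).val n)) := by
        intro n hn hn'
        have h1 : P ≤ (A (Nat.pair n ((p.stem c).val n)) ⊔ vᶜ) ⊓ v := le_inf (q3 n hn hn') hPv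
        rw [inf_sup_right, compl_inf_self, sup_bot_eq] at h1
        exact h1.trans inf_le_left
      set J := (Finset.range (p.stem c).len).sup (fun n => Nat.pair n ((p.stem c).val n) + 1)
        with hJ
      obtain ⟨N', hN'⟩ := avoid_dom p (insert c d) t hfin
      obtain ⟨b, hb, hne⟩ := exists_of_le_lim hPne (hPv.trans (hvM J)) (max N N')
      have hb' : N' ≤ b := (le_max_right _ _).trans hb
      have h0 : P ⊓ M J b ≤ ⨆ γ, a b γ ⊓ (t' b γ).val loc :=
        inf_le_right.trans (hManti b (Nat.zero_le J))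
      obtain ⟨γ, hγ⟩ := exists_inf_ne_bot hne h0
      set y := P ⊓ M J b ⊓ (a b γ ⊓ (t' b γ).val loc) with hy
      have hym : y ∈ BD (Iio c) := H.BD_inf hlow (H.BD_inf hlow hPm (hMm J b))
        (H.BD_inf hlow (ha' b γ) (H.val_res_mem hlow _))
      have hyprom : ∀ n, (s c).len ≤ n → n < (p.stem c).len →
          y ≤ (t b γ).prom c n ((p.stem c).val n) := by
        intro n hn hn'
        set m := (p.stem c).val n with hm
        have h1 : P ⊓ M J b ≤ Nb b n m := by
          have hJ' : Nat.pair n m + 1 ≤ J :=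
            Finset.le_sup (f := fun n => Nat.pair n ((p.stem c).val n) + 1)
              (Finset.mem_range.2 hn')
          have h2 : M J b ≤ M (Nat.pair n m + 1) b := hManti b hJ'
          rw [hMs, Nat.unpair_pair] at h2
          have h3 : P ⊓ M J b ≤ A (Nat.pair n m) ⊓ ((A (Nat.pair n m) ⊓ Nb b n m) ⊔
              (A (Nat.pair n m))ᶜ) := inf_le_inf (hPA n hn hn') (h2.trans inf_le_right)
          rw [inf_sup_left, inf_compl_self, sup_bot_eq] at h3
          exact h3.trans (inf_le_right.trans inf_le_right)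
        have h4 : y ≤ Nb b n m ⊓ a b γ :=
          le_inf (inf_le_left.trans h1) (inf_le_right.trans inf_le_left)
        refine h4.trans ?_
        rw [hNb]
        simp only
        rw [iSup_inf_eq]
        refine iSup_le fun γ' => ?_
        by_cases hgg : γ' = γ
        · subst hgg
          exact inf_le_left.trans inf_le_right
        · have : a b γ' ⊓ (t' b γ').val loc ⊓ (t b γ').prom c n m ⊓ a b γ ≤ ⊥ := by
            rw [← hdisj b γ' γ hgg]
            exact le_inf (inf_le_left.trans (inf_le_left.trans inf_le_left)) inf_le_right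
          exact this.trans bot_le
      set r2 := H.comb (p.res (Ici c)) ((t b γ).res (Ici c)) with hr2
      have h1 := H.tail r2 hlow hym hγ (fun c' hc' => by
        have : c' ∈ Ici c := by
          rcases Finset.mem_union.1 hc' with hc' | hc'
          · exact (mem_res_dom.1 hc').2
          · exact (mem_res_dom.1 hc').2
        exact not_lt.2 this)
      refine ⟨b, (le_max_left _ _).trans hb, γ, ?_⟩
      refine ne_bot_mono (le_inf (le_inf ?_ ?_) ?_) h1
      · refine le_trans ?_ hpx
        rw [le_val_iff]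
        intro c' hc'
        by_cases h : c' < c
        · refine inf_le_left.trans (inf_le_left.trans (inf_le_left.trans ?_))
          exact le_val_res_iff.1 le_rfl c' hc' h
        · refine inf_le_right.trans ((H.comb_val_le_left _ _).trans ?_)
          exact le_val_res_iff.1 le_rfl c' hc' (not_lt.1 h)
      · exact inf_le_left.trans (inf_le_right.trans inf_le_left)
      · rw [le_val_iff]
        intro c' hc'
        rcases lt_trichotomy c' c with h | h | h
        · refine inf_le_left.trans (inf_le_right.trans (inf_le_right.trans ?_))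
          exact le_val_res_iff.1 le_rfl c' hc' h
        · subst h
          have hpc : c' ∈ (p.res (Ici c')).dom :=
            mem_res_dom.2 ⟨hpr.1 (Finset.mem_insert_self _ _), le_refl c'⟩
          have htc : c' ∈ ((t b γ).res (Ici c')).dom := mem_res_dom.2 ⟨hc', le_refl c'⟩
          have h2 : r2.stem c' = p.stem c' := if_pos hpc
          have h3 : r2.val loc ≤ loc c' (p.stem c') (r2.prom c') := by
            rw [← h2]
            exact val_le_loc (p := r2) (Finset.mem_union_left _ hpc)
          refine (inf_le_inf_left y h3).trans ?_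
          have h4 := (hst b γ c' (Finset.mem_insert_self _ _)).1
          rw [h4]
          refine H.loc_ext q1 hyprom (fun n m => ?_)
          change (if c' ∈ (p.res (Ici c')).dom then (p.res (Ici c')).prom c' n m else ⊤) ⊓
            (if c' ∈ ((t b γ).res (Ici c')).dom then ((t b γ).res (Ici c')).prom c' n m else ⊤) ≤ _
          rw [if_pos htc]
          exact inf_le_right
        · refine inf_le_right.trans ?_
          refine H.comb_val_le_loc_right (p.res (Ici c)) ((t b γ).res (Ici c))
            (mem_res_dom.2 ⟨hc', h.le⟩) (fun hcp => ?_)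
          have hcd' : c' ∉ insert c d := by
            rw [Finset.mem_insert, not_or]
            exact ⟨ne_of_gt h, fun h' => lt_asymm h (hmax c' h')⟩
          exact absurd hc' (hN' b hb' γ c' (mem_res_dom.1 hcp).1 hcd')

end IsIter

end Pool.Agent.Lib.P6aeb5f
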