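import Pool.Agent.Lib.P6aeb5f.CCC

/-!
Boolean valued sets of natural numbers.
-/

open Set Classical

namespace Pool.Agent.Lib.P6aeb5f

section

variable {B : Type*} [CompleteBooleanAlgebra B]

/-- Boolean value of: the set is infinite. -/
def binf (a : ℕ → B) : B := ⨅ m : ℕ, ⨆ k : ℕ, ⨆ _ : m ≤ k, a k

/-- Boolean value of almost inclusion. -/
def bsub (a b : ℕ → B) : B := ⨆ m : ℕ, ⨅ k : ℕ, ⨅ _ : m ≤ k, (a k ⇨ b k)

theorem binf_eq_lim (a : ℕ → B) : binf a = lim a := rfl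

theorem le_bsub_of {a b : ℕ → B} {x : B} (m : ℕ) (h : ∀ k, m ≤ k → x ⊓ a k ≤ b k) :
    x ≤ bsub a b :=
  le_iSup_of_le m (le_iInf₂ fun k hk => le_himp_iff.2 (h k hk))

theorem exists_of_le_bsub {a b : ℕ → B} {x : B} (hx : x ≠ ⊥) (h : x ≤ bsub a b) :
    ∃ m, ∃ y, y ≠ ⊥ ∧ y ≤ x ∧ ∀ k, m ≤ k → y ⊓ a k ≤ b k := by
  obtain ⟨m, hm⟩ := exists_inf_ne_bot hx h
  refine ⟨m, _, hm, inf_le_left, fun k hk => ?_⟩
  rw [← le_himp_iff]
  exact inf_le_right.trans (iInf₂_le k hk)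

theorem le_of_le_bsub {a b : ℕ → B} {x z : B} (h : x ≤ bsub a b)
    (h2 : ∀ m y, y ≤ x → (∀ k, m ≤ k → y ⊓ a k ≤ b k) → y ≤ z) : x ≤ z := by
  refine le_of_dense fun y hy hyx => ?_
  obtain ⟨m, y', hy', hyy', h3⟩ := exists_of_le_bsub hy (hyx.trans h)
  exact ne_bot_mono (le_inf hyy' (h2 m y' (hyy'.trans hyx) h3)) hy'

theorem bsub_trans {a b c : ℕ → B} : bsub a b ⊓ bsub b c ≤ bsub a c := by
  refine le_of_le_bsub (a := a) (b := b) inf_le_left fun m y hy h1 => ?_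
  refine le_of_le_bsub (a := b) (b := c) (hy.trans inf_le_right) fun m' y' hy' h2 => ?_
  refine le_bsub_of (max m m') fun k hk => ?_
  have h3 := h1 k ((le_max_left _ _).trans hk)
  have h4 := h2 k ((le_max_right _ _).trans hk)
  exact (le_inf inf_le_left ((inf_le_inf_right _ hy').trans h3)).trans h4

theorem bsub_of_le {a b : ℕ → B} (h : ∀ k, a k ≤ b k) : bsub a b = ⊤ := by
  rw [eq_top_iff]
  exact le_bsub_of 0 fun k _ => inf_le_right.trans (h k)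

theorem bsub_inf {a b c : ℕ → B} : bsub a b ⊓ bsub a c ≤ bsub a (fun k => b k ⊓ c k) := by
  refine le_of_le_bsub (a := a) (b := b) inf_le_left fun m y hy h1 => ?_
  refine le_of_le_bsub (a := a) (b := c) (hy.trans inf_le_right) fun m' y' hy' h2 => ?_
  refine le_bsub_of (max m m') fun k hk => ?_
  exact le_inf ((inf_le_inf_right _ hy').trans (h1 k ((le_max_left _ _).trans hk)))
    (h2 k ((le_max_right _ _).trans hk))

theorem binf_bsub {a b : ℕ → B} : binf a ⊓ bsub a b ≤ binf b := by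
  refine le_of_le_bsub (a := a) (b := b) inf_le_right fun m y hy h1 => ?_
  rw [binf_eq_lim, le_lim_iff]
  intro N
  have h2 : y ≤ ⨆ k : ℕ, ⨆ _ : max m N ≤ k, a k :=
    (hy.trans inf_le_left).trans (iInf_le _ (max m N))
  rw [← inf_eq_left.2 h2, inf_iSup_eq]
  simp only [inf_iSup_eq]
  refine iSup₂_le fun k hk => ?_
  exact le_iSup₂_of_le k ((le_max_right _ _).trans hk) (h1 k ((le_max_left _ _).trans hk))

theorem binf_congr {a b : ℕ → B} {x : B} (h : ∀ k, x ⊓ a k = x ⊓ b k) :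
    x ⊓ binf a ≤ binf b := by
  rw [binf_eq_lim, binf_eq_lim, inf_lim]
  refine lim_mono fun k => ?_
  rw [h k]
  exact inf_le_right

theorem bsub_congr_left {a b c : ℕ → B} {x : B} (h : ∀ k, x ⊓ a k = x ⊓ b k) :
    x ⊓ bsub a c ≤ bsub b c := by
  refine le_of_le_bsub (a := a) (b := c) inf_le_right fun m y hy h1 => ?_
  refine le_bsub_of m fun k hk => ?_
  have h3 : y ⊓ b k ≤ x ⊓ b k := inf_le_inf_right _ (hy.trans inf_le_left)
  rw [← h k] at h3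
  exact (le_inf inf_le_left (h3.trans inf_le_right)).trans (h1 k hk)

end

variable {L : Type} [LinearOrder L] {B : Type} [CompleteBooleanAlgebra B]
variable {BD : Set L → Set B} {loc : L → Stem → (ℕ → ℕ → B) → B} {cyl : L → ℕ → ℕ → B}

namespace IsIter

variable (H : IsIter BD loc cyl)
include H

theorem BD_binf {D : Set L} (hD : IsLowerSet D) {a : ℕ → B} (ha : ∀ k, a k ∈ BD D) :
    binf a ∈ BD D := H.BD_lim hD ha

theorem BD_bsub {D : Set L} (hD : IsLowerSet D) {a b : ℕ → B} (ha : ∀ k, a k ∈ BD D)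
    (hb : ∀ k, b k ∈ BD D) : bsub a b ∈ BD D :=
  H.BD_iSup hD fun _ => H.BD_iInf hD fun k => H.BD_iInf hD fun _ => H.BD_himp hD (ha k) (hb k)

theorem BD_elim {D : Set L} (hD : IsLowerSet D) {ι : Type*} {J : Set ι} {x : ι → B}
    (hx : ∀ i, x i ∈ BD D) : elim J x ∈ BD D :=
  H.BD_iInf hD fun _ => H.BD_iSup hD fun i => H.BD_iSup hD fun _ => hx i

/-- Mixing of names in a subalgebra. -/
theorem mixing {D : Set L} (hD : IsLowerSet D) {w : B} (hw : w ∈ BD D) {N : Type*}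
    (Φ : (N → B) → B) (hΦ : ∀ y y' : N → B, ∀ x, (∀ n, x ⊓ y n = x ⊓ y' n) → x ⊓ Φ y ≤ Φ y')
    (hloc : ∀ p ∈ BD D, p ≠ ⊥ → p ≤ w → ∃ w' ∈ BD D, w' ≠ ⊥ ∧ w' ≤ p ∧
      ∃ y : N → B, (∀ n, y n ∈ BD D) ∧ w' ≤ Φ y) :
    ∃ y : N → B, (∀ n, y n ∈ BD D) ∧ w ≤ Φ y := by
  set I := {w' : B // w' ∈ BD D ∧ w' ≤ w ∧ ∃ y : N → B, (∀ n, y n ∈ BD D) ∧ w' ≤ Φ y} with hI
  obtain ⟨a, ha1, ha2, ha3, ha4⟩ := disjointify (fun i : I => i.1)
  have ha5 : ∀ i, a i ∈ BD D := ha4 (BD D) (fun y hy => H.BD_compl hD hy)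
      (fun y hy z hz => H.BD_inf hD hy hz) (fun T hT => H.BD_sSup hD hT) (fun i => i.2.1)
  have hsup : w ≤ ⨆ i : I, i.1 := by
    by_contra hcon
    have h1 : w ⊓ (⨆ i : I, i.1)ᶜ ≠ ⊥ := by
      intro h2
      exact hcon (by rwa [← disjoint_iff, disjoint_compl_right_iff] at h2)
    obtain ⟨w', h2, h3, h4, y, h5, h6⟩ := hloc _ (H.BD_inf hD hw (H.BD_compl hD
      (H.BD_iSup hD fun i : I => i.2.1))) h1 inf_le_left
    have h7 : w' ≤ ⨆ i : I, i.1 :=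
      le_iSup (fun i : I => i.1) ⟨w', h2, h4.trans inf_le_left, y, h5, h6⟩
    apply h3
    rw [← le_bot_iff]
    calc w' ≤ (⨆ i : I, i.1) ⊓ (⨆ i : I, i.1)ᶜ := le_inf h7 (h4.trans inf_le_right)
      _ = ⊥ := inf_compl_self _
      _ ≤ ⊥ := le_rfl
  have hy : ∀ i : I, ∃ y : N → B, (∀ n, y n ∈ BD D) ∧ i.1 ≤ Φ y := fun i => i.2.2.2
  choose y hy1 hy2 using hy
  refine ⟨fun n => ⨆ i, a i ⊓ y i n, fun n => H.BD_iSup hD fun i =>
    H.BD_inf hD (ha5 i) (hy1 i n), ?_⟩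
  have key : ∀ i, a i ≤ Φ (fun n => ⨆ i, a i ⊓ y i n) := by
    intro i
    have h1 : ∀ n, a i ⊓ y i n = a i ⊓ ⨆ i, a i ⊓ y i n := by
      intro n
      apply le_antisymm
      · exact le_inf inf_le_left (le_iSup (fun i => a i ⊓ y i n) i)
      · rw [inf_iSup_eq]
        refine iSup_le fun j => ?_
        by_cases hij : j = i
        · subst hij
          exact inf_le_right
        · have : a i ⊓ (a j ⊓ y j n) ≤ ⊥ := by
            rw [← ha2 i j (Ne.symm hij)]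
            exact le_inf inf_le_left (inf_le_right.trans inf_le_left)
          exact this.trans bot_le
    exact (le_inf le_rfl ((ha1 i).trans (hy2 i))).trans (hΦ (y i) _ (a i) h1)
  calc w ≤ ⨆ i : I, i.1 := hsup
    _ = ⨆ i, a i := ha3.symm
    _ ≤ _ := iSup_le key

end IsIter

end Pool.Agent.Lib.P6aeb5f
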