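import Mathlib

/-!
The regular elements of a frame form a complete Boolean algebra.
-/

namespace Pool.Agent.Lib.P6aeb5f

/-- The complete Boolean algebra of regular elements of a frame. -/
def RO (α : Type*) [Order.Frame α] : Type _ := Heyting.Regular α

namespace RO

variable {α : Type*} [Order.Frame α]

noncomputable instance : BooleanAlgebra (RO α) :=
  inferInstanceAs (BooleanAlgebra (Heyting.Regular α))

/-- regularization -/
def mk (a : α) : RO α := Heyting.Regular.toRegular a

/-- underlying element -/
def val (x : RO α) : α := Heyting.Regular.val x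

theorem val_mk (a : α) : (mk a).val = aᶜᶜ := rfl

theorem le_iff {x y : RO α} : x ≤ y ↔ x.val ≤ y.val := Iff.rfl

theorem val_compl_compl (x : RO α) : x.valᶜᶜ = x.val := x.2

theorem mk_val (x : RO α) : mk x.val = x := Heyting.Regular.toRegular_coe x

theorem mk_le_iff {a : α} {x : RO α} : mk a ≤ x ↔ a ≤ x.val := Heyting.Regular.gi.gc a x

theorem mk_mono {a b : α} (h : a ≤ b) : mk a ≤ mk b := Heyting.Regular.toRegular.monotone h

noncomputable instance : CompleteBooleanAlgebra (RO α) where
  __ := (inferInstance : BooleanAlgebra (RO α))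
  sSup S := mk (sSup (val '' S))
  isLUB_sSup S := by
    constructor
    · intro x hx
      rw [le_iff, val_mk]
      exact (le_sSup (Set.mem_image_of_mem _ hx)).trans le_compl_compl
    · intro y hy
      rw [mk_le_iff]
      refine sSup_le ?_
      rintro _ ⟨x, hx, rfl⟩
      exact hy hx
  sInf S := (mk (sSup (val '' (compl '' S))))ᶜ
  isGLB_sInf S := by
    constructor
    · intro x hx
      rw [compl_le_iff_compl_le, le_iff, val_mk]
      exact (le_sSup (Set.mem_image_of_mem _ (Set.mem_image_of_mem _ hx))).trans le_compl_compl
    · intro y hy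
      rw [le_compl_comm, mk_le_iff]
      refine sSup_le ?_
      rintro _ ⟨_, ⟨x, hx, rfl⟩, rfl⟩
      exact le_iff.1 (compl_le_compl (hy hx))

end RO

end Pool.Agent.Lib.P6aeb5f
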