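import Pool.Agent.Lib.P6aeb5f.Tower

/-!
Capturing lower bounds of linearly ordered families at an intermediate level.
-/

open Set Classical

namespace Pool.Agent.Lib.P6aeb5f

variable {L K Ω : Type} [LinearOrder L] [LinearOrder K] [LinearOrder Ω]
  {π : L → K}
variable {B : Type} [CompleteBooleanAlgebra B]
variable {BD : Set L → Set B} {loc : L → Stem → (ℕ → ℕ → B) → B} {cyl : L → ℕ → ℕ → B}

/-- Mixture of lower bounds. -/
theorem exists_mixed {w : B} (A : K → ℕ → B) (hinf : ∀ β, w ≤ binf (A β)) (η : K)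
    (hlow : w ≤ ⨆ β, ⨅ α, ⨅ _ : α < η, bsub (A β) (A α)) (Λ : Levels L K Ω π)
    (hC : CCC B) :
    ∃ (T : ℕ → B) (ρ : K), w ≤ binf T ∧ (∀ α, α < η → w ≤ bsub T (A α)) ∧
      ∀ T' : ℕ → B, (∀ α, α < ρ → w ≤ bsub T' (A α)) → w ≤ bsub T' T := by
  obtain ⟨a, ha1, ha2, ha3, _⟩ := disjointify (fun β => ⨅ α, ⨅ _ : α < η, bsub (A β) (A α))
  rw [← ha3] at hlow
  have hag : ∀ β v, a β ⊓ (⨆ β, a β ⊓ A β v) = a β ⊓ A β v := by
    intro β v
    apply le_antisymm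
    · rw [inf_iSup_eq]
      refine iSup_le fun β' => ?_
      by_cases h : β' = β
      · subst h
        exact inf_le_right
      · have : a β ⊓ (a β' ⊓ A β' v) ≤ ⊥ := by
          rw [← ha2 β β' (Ne.symm h)]
          exact le_inf inf_le_left (inf_le_right.trans inf_le_left)
        exact this.trans bot_le
    · exact le_inf inf_le_left (le_iSup (fun β => a β ⊓ A β v) β)
  have hcnt : {β | a β ≠ ⊥}.Countable := by
    have h1 : (a '' {β | a β ≠ ⊥}).Countable := by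
      refine hC _ ?_ ?_
      · rintro _ ⟨β, hβ, rfl⟩
        exact hβ
      · rintro _ ⟨β, hβ, rfl⟩ _ ⟨β', hβ', rfl⟩ hne
        exact ha2 β β' (fun h => hne (h ▸ rfl))
    refine countable_of_injective_of_countable_image ?_ h1
    intro β hβ β' hβ' h
    by_contra hne
    have h2 := ha2 β β' hne
    rw [← h, inf_idem] at h2
    exact hβ h2
  have : Countable {β | a β ≠ ⊥} := hcnt.to_subtype
  obtain ⟨ρ, hρ⟩ := Λ.bdd_countable (fun β : {β | a β ≠ ⊥} => β.1)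
  have hdec : ∀ z : B, (∀ β, w ⊓ a β ≤ z) → w ≤ z := by
    intro z hz
    rw [← inf_eq_left.2 hlow, inf_iSup_eq]
    exact iSup_le hz
  refine ⟨fun v => ⨆ β, a β ⊓ A β v, ρ, hdec _ fun β => ?_, fun α hα => hdec _ fun β => ?_,
    fun T' hT' => hdec _ fun β => ?_⟩
  · have h1 : a β ⊓ binf (A β) ≤ binf (fun v => ⨆ β, a β ⊓ A β v) :=
      binf_congr fun k => (hag β k).symm
    exact (le_inf inf_le_right (inf_le_left.trans (hinf β))).trans h1
  · have h1 : a β ⊓ bsub (A β) (A α) ≤ bsub (fun v => ⨆ β, a β ⊓ A β v) (A α) :=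
      bsub_congr_left fun k => (hag β k).symm
    refine (le_inf inf_le_right ?_).trans h1
    exact inf_le_right.trans ((ha1 β).trans (iInf₂_le α hα))
  · by_cases hβ : a β = ⊥
    · rw [hβ, inf_bot_eq]
      exact bot_le
    · have h1 : w ≤ bsub T' (A β) := hT' β (hρ ⟨β, hβ⟩)
      have h2 : a β ≤ bsub (A β) (fun v => ⨆ β, a β ⊓ A β v) :=
        le_bsub_of 0 fun v _ => le_iSup (fun β => a β ⊓ A β v) β
      exact (inf_le_inf h1 h2).trans bsub_trans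

/-- Finite intersections along a linearly ordered family. -/
theorem finite_inter {w : B} (f : ℕ → ℕ → B)
    (hinf : ∀ r, w ≤ binf (f r)) (hlin : ∀ r r', w ≤ bsub (f r) (f r') ⊔ bsub (f r') (f r)) (b : ℕ) :
    w ≤ binf (fun v => (Finset.range (b + 1)).inf fun r => f r v) := by
  have key : w ≤ ⨆ r, bsub (f r) (fun v => (Finset.range (b + 1)).inf fun r => f r v) := by
    induction b with
    | zero =>
      refine le_iSup_of_le 0 ?_
      rw [bsub_of_le]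
      · exact le_top
      · intro k
        simp
    | succ b ih =>
      set P : ℕ → B := fun v => (Finset.range (b + 1)).inf fun r => f r v with hP
      have hP' : (fun v => (Finset.range (b + 1 + 1)).inf fun r => f r v) =
          fun v => P v ⊓ f (b + 1) v := by
        funext v
        rw [Finset.range_add_one, Finset.inf_insert, inf_comm]
      rw [hP']
      rw [← inf_eq_left.2 ih, inf_iSup_eq]
      refine iSup_le fun r => ?_
      have h1 : w ⊓ bsub (f r) P ≤ (bsub (f r) (f (b + 1)) ⊔ bsub (f (b + 1)) (f r)) ⊓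
          bsub (f r) P := inf_le_inf_right _ (hlin r (b + 1))
      refine h1.trans ?_
      rw [inf_sup_right]
      refine sup_le ?_ ?_
      · refine le_iSup_of_le r ?_
        rw [inf_comm]
        exact bsub_inf
      · refine le_iSup_of_le (b + 1) ?_
        refine le_trans (le_inf bsub_trans ?_) bsub_inf
        rw [bsub_of_le (fun _ => le_rfl)]
        exact le_top
  rw [← inf_eq_left.2 key, inf_iSup_eq]
  exact iSup_le fun r => (inf_le_inf_right _ (hinf r)).trans binf_bsub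

namespace IsIter

variable (H : IsIter BD loc cyl) (Λ : Levels L K Ω π)
include H Λ

/-- The bounded case. -/
theorem bounded_case {p0 w : B} (A : K → ℕ → B) (hinf : ∀ β, p0 ≤ binf (A β))
    (hlin : ∀ α β, p0 ≤ bsub (A α) (A β) ⊔ bsub (A β) (A α))
    (hbd : w ≤ ⨆ μ : K, ⨅ β, ⨆ α, ⨆ _ : α < μ, bsub (A α) (A β)) :
    ∃ ζ, ∀ β, ∃ P : ℕ → ℕ → B, (∀ b v, P b v ∈ BD (Dz π ζ)) ∧ (∀ b v, P (b + 1) v ≤ P b v) ∧
      (∀ b, p0 ≤ binf (P b)) ∧ w ≤ ⨆ b, bsub (P b) (A β) := by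
  obtain ⟨C, hC1, hC2⟩ := ccc_iSup H.CCC
    (fun μ : K => ⨅ β, ⨆ α, ⨆ _ : α < μ, bsub (A α) (A β))
  have : Countable C := hC1.to_subtype
  obtain ⟨μ, hμ⟩ := Λ.bdd_countable (fun μ : C => μ.1)
  have hμ2 : ∀ β, w ≤ ⨆ α, ⨆ _ : α < μ, bsub (A α) (A β) := by
    intro β
    rw [← hC2] at hbd
    refine hbd.trans (iSup₂_le fun μ' hμ' => (iInf_le _ β).trans ?_)
    exact iSup₂_le fun α hα => le_iSup₂_of_le α (hα.trans (hμ ⟨μ', hμ'⟩)) le_rfl
  obtain ⟨f, hf⟩ := Λ.seg μ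
  obtain ⟨α0⟩ := Λ.ne
  obtain ⟨ζ1, hζ1⟩ := H.exists_level_omega Λ (fun ν => A (f ν))
  obtain ⟨ζ2, hζ2⟩ := H.exists_level Λ (fun n => A α0 n)
  refine ⟨max ζ1 ζ2, fun β => ?_⟩
  obtain ⟨E, hE1, hE2, hE3⟩ := ccc_iSup_subset H.CCC (fun α => bsub (A α) (A β)) (Iio μ)
  have hne : (insert α0 E).Nonempty := ⟨α0, mem_insert _ _⟩
  obtain ⟨e, he⟩ := (hE2.insert α0).exists_eq_range hne
  have hlev : ∀ r v, A (e r) v ∈ BD (Dz π (max ζ1 ζ2)) := by
    intro r v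
    have h1 : e r ∈ insert α0 E := he ▸ mem_range_self r
    rcases h1 with h1 | h1
    · rw [h1]
      exact H.BD_mono (Dz_mono (le_max_right _ _)) (hζ2 v)
    · obtain ⟨ν, hν⟩ := hf _ (hE1 h1)
      rw [← hν]
      exact H.BD_mono (Dz_mono (le_max_left _ _)) (hζ1 ν v)
  refine ⟨fun b v => (Finset.range (b + 1)).inf fun r => A (e r) v, fun b v =>
    H.BD_finset_inf (Λ.lower _) fun r _ => hlev r v, fun b v => ?_, fun b => ?_, ?_⟩
  · exact Finset.inf_mono (Finset.range_mono (Nat.le_succ _))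
  · exact finite_inter (fun r => A (e r)) (fun r => hinf _) (fun r r' => hlin _ _) b
  · have h1 : w ≤ ⨆ i ∈ E, bsub (A i) (A β) := by
      rw [hE3]
      exact hμ2 β
    refine h1.trans (iSup₂_le fun α hα => ?_)
    have h2 : α ∈ range e := he ▸ mem_insert_of_mem _ hα
    obtain ⟨r, rfl⟩ := h2
    refine le_iSup_of_le r ?_
    have h3 : bsub (fun v => (Finset.range (r + 1)).inf fun r => A (e r) v) (A (e r)) = ⊤ :=
      bsub_of_le fun v => Finset.inf_le (Finset.self_mem_range_succ r)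
    calc bsub (A (e r)) (A β) =
        bsub (fun v => (Finset.range (r + 1)).inf fun r => A (e r) v) (A (e r)) ⊓
          bsub (A (e r)) (A β) := by rw [h3, top_inf_eq]
      _ ≤ _ := bsub_trans

/-- The unbounded case. -/
theorem unbounded_case {w : B} (A : K → ℕ → B) (hinf : ∀ β, w ≤ binf (A β))
    (hub : ∀ μ : K, w ≤ ⨆ β, ⨅ α, ⨅ _ : α < μ, bsub (A β) (A α)) :
    ∃ ζ, ∀ β, ∃ y : ℕ → B, (∀ v, y v ∈ BD (Dz π ζ)) ∧ w ≤ binf y ⊓ bsub y (A β) := by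
  have hmix := fun η => exists_mixed A hinf η (hub η) Λ H.CCC
  choose T ρ h1 h2 h3 using hmix
  have hlev := fun η => H.exists_level Λ (T η)
  choose lev hlev using hlev
  obtain ⟨ζ, hζ⟩ := H.tower Λ (w := w) T (fun η => max (ρ η) (lev η))
    (fun η v => H.BD_mono (Dz_mono (le_max_right _ _)) (hlev η v)) h1
    (fun η δ hδ => h3 η (T δ) fun α hα => h2 δ α (hα.trans_le ((le_max_left _ _).trans hδ)))
  refine ⟨ζ, fun β => ?_⟩
  obtain ⟨η, hη⟩ := Λ.bdd (fun _ => β)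
  obtain ⟨ν⟩ := Λ.nonempty_omega
  obtain ⟨y, hy1, hy2⟩ := hζ η
  refine ⟨y, hy1, le_inf (hy2.trans inf_le_left) ?_⟩
  exact (le_inf (hy2.trans inf_le_right) (h2 η β (hη ν))).trans bsub_trans

/-- Theorem A. -/
theorem thmA (p0 : B) (A : K → ℕ → B) (hinf : ∀ β, p0 ≤ binf (A β))
    (hlin : ∀ α β, p0 ≤ bsub (A α) (A β) ⊔ bsub (A β) (A α)) :
    ∃ ζ, ∀ β, ∃ P : ℕ → ℕ → B, (∀ b v, P b v ∈ BD (Dz π ζ)) ∧ (∀ b v, P (b + 1) v ≤ P b v) ∧
      (∀ b, p0 ≤ binf (P b)) ∧ p0 ≤ ⨆ b, bsub (P b) (A β) := by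
  set X : B := ⨅ μ : K, ⨆ β, ⨅ α, ⨅ _ : α < μ, bsub (A β) (A α) with hX
  obtain ⟨ζ1, hζ1⟩ := H.unbounded_case Λ (w := p0 ⊓ X) A (fun β => inf_le_left.trans (hinf β))
    (fun μ => inf_le_right.trans (iInf_le _ μ))
  have hbd : p0 ⊓ Xᶜ ≤ ⨆ μ : K, ⨅ β, ⨆ α, ⨆ _ : α < μ, bsub (A α) (A β) := by
    rw [hX, compl_iInf, inf_iSup_eq]
    refine iSup_mono fun μ => le_iInf fun β => ?_
    have h1 : p0 ⊓ (⨆ β, ⨅ α, ⨅ _ : α < μ, bsub (A β) (A α))ᶜ ≤
        p0 ⊓ ⨆ α, ⨆ _ : α < μ, (bsub (A β) (A α))ᶜ := by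
      refine inf_le_inf_left _ ?_
      rw [compl_iSup]
      refine (iInf_le _ β).trans ?_
      rw [compl_iInf]
      refine iSup_mono fun α => ?_
      rw [compl_iInf]
    refine h1.trans ?_
    rw [inf_iSup_eq]
    refine iSup_mono fun α => ?_
    rw [inf_iSup_eq]
    refine iSup_mono fun _ => ?_
    have h2 : p0 ⊓ (bsub (A β) (A α))ᶜ ≤
        (bsub (A α) (A β) ⊔ bsub (A β) (A α)) ⊓ (bsub (A β) (A α))ᶜ :=
      inf_le_inf_right _ (hlin α β)
    rw [inf_sup_right, inf_compl_self, sup_bot_eq] at h2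
    exact h2.trans inf_le_left
  obtain ⟨ζ2, hζ2⟩ := H.bounded_case Λ (w := p0 ⊓ Xᶜ) A hinf hlin hbd
  obtain ⟨ζ3, hζ3⟩ := H.exists_level Λ (fun _ : Unit => p0 ⊓ X)
  have hζ3 := hζ3 ()
  set ζ := max ζ1 (max ζ2 ζ3) with hζ
  have e1 : ζ1 ≤ ζ := le_max_left _ _
  have e2 : ζ2 ≤ ζ := (le_max_left _ _).trans (le_max_right _ _)
  have e3 : ζ3 ≤ ζ := (le_max_right _ _).trans (le_max_right _ _)
  have hlow := Λ.lower (π := π) ζ
  refine ⟨ζ, fun β => ?_⟩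
  obtain ⟨y, hy1, hy2⟩ := hζ1 β
  obtain ⟨P, hP1, hP2, hP3, hP4⟩ := hζ2 β
  set w := p0 ⊓ X with hw
  have hwD : w ∈ BD (Dz π ζ) := H.BD_mono (Dz_mono e3) hζ3
  have hPw : ∀ b v, w ⊓ y v = w ⊓ ((w ⊓ y v) ⊔ (wᶜ ⊓ P b v)) := by
    intro b v
    rw [inf_sup_left, ← inf_assoc, inf_idem, ← inf_assoc, inf_compl_self, bot_inf_eq, sup_bot_eq]
  have hPw' : ∀ b v, wᶜ ⊓ P b v = wᶜ ⊓ ((w ⊓ y v) ⊔ (wᶜ ⊓ P b v)) := by
    intro b v
    rw [inf_sup_left, ← inf_assoc, compl_inf_self, bot_inf_eq, bot_sup_eq, ← inf_assoc, inf_idem]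
  have hsplit : ∀ z : B, w ≤ z → p0 ⊓ wᶜ ≤ z → p0 ≤ z := by
    intro z h1 h2
    calc p0 = p0 ⊓ (w ⊔ wᶜ) := by rw [sup_compl_eq_top, inf_top_eq]
      _ = p0 ⊓ w ⊔ p0 ⊓ wᶜ := inf_sup_left _ _ _
      _ ≤ z := sup_le (inf_le_right.trans h1) h2
  have hwX : p0 ⊓ wᶜ ≤ p0 ⊓ Xᶜ := by
    rw [hw, compl_inf, inf_sup_left, inf_compl_self, bot_sup_eq]
  refine ⟨fun b v => (w ⊓ y v) ⊔ (wᶜ ⊓ P b v), fun b v => ?_, fun b v => ?_, fun b => ?_, ?_⟩
  · exact H.BD_sup hlow (H.BD_inf hlow hwD (H.BD_mono (Dz_mono e1) (hy1 v)))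
      (H.BD_inf hlow (H.BD_compl hlow hwD) (H.BD_mono (Dz_mono e2) (hP1 b v)))
  · exact sup_le_sup_left (inf_le_inf_left _ (hP2 b v)) _
  · refine hsplit _ ?_ ?_
    · exact (le_inf le_rfl (hy2.trans inf_le_left)).trans (binf_congr (hPw b))
    · exact (le_inf inf_le_right (inf_le_left.trans (hP3 b))).trans (binf_congr (hPw' b))
  · refine hsplit _ ?_ ?_
    · refine le_iSup_of_le 0 ?_
      exact (le_inf le_rfl (hy2.trans inf_le_right)).trans (bsub_congr_left (hPw 0))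
    · have h1 : p0 ⊓ wᶜ ≤ wᶜ ⊓ ⨆ b, bsub (P b) (A β) := le_inf inf_le_right (hwX.trans hP4)
      refine h1.trans ?_
      rw [inf_iSup_eq]
      exact iSup_mono fun b => bsub_congr_left (hPw' b)

end IsIter

end Pool.Agent.Lib.P6aeb5f
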