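import Pool.Agent.Lib.P6aeb5f.ThmA

/-!
The diagonalization theorem and the covering theorem for the iteration algebra.
-/

open Set Classical

namespace Pool.Agent.Lib.P6aeb5f

variable {L K Ω : Type} [LinearOrder L] [LinearOrder K] [LinearOrder Ω]
  {π : L → K}
variable {B : Type} [CompleteBooleanAlgebra B]
variable {BD : Set L → Set B} {loc : L → Stem → (ℕ → ℕ → B) → B} {cyl : L → ℕ → ℕ → B}

namespace IsIter

variable (H : IsIter BD loc cyl)
include H

theorem predecideB {c : L} {N : ℕ → ℕ → B} {l : ℕ} (h : IsProm BD c N l) (n : ℕ) {y : B}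
    (hyD : y ∈ BD (Iio c)) (hy : y ≠ ⊥) : ∃ y' ≤ y, y' ∈ BD (Iio c) ∧ y' ≠ ⊥ ∧
      ∃ Φ : Finset ℕ, ∀ v ∉ Φ, y' ≤ N n v := by
  by_contra hcon
  have key : ∀ k : ℕ, ∃ Φ : Finset ℕ, Φ.card = k ∧ ∃ y' ≤ y, y' ∈ BD (Iio c) ∧ y' ≠ ⊥ ∧
      ∀ m ∈ Φ, y' ⊓ N n m = ⊥ := by
    intro k
    induction k with
    | zero => exact ⟨∅, rfl, y, le_rfl, hyD, hy, by simp⟩
    | succ k ih =>
      obtain ⟨Φ, hΦ, y', h1, h2, h3, h4⟩ := ih
      have : ∃ m, m ∉ Φ ∧ ¬ y' ≤ N n m := by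
        by_contra hc
        push Not at hc
        exact hcon ⟨y', h1, h2, h3, Φ, hc⟩
      obtain ⟨m, hm, hmN⟩ := this
      refine ⟨insert m Φ, by rw [Finset.card_insert_of_notMem hm, hΦ], y' ⊓ (N n m)ᶜ,
        inf_le_left.trans h1, H.BD_inf (isLowerSet_Iio c) h2
          (H.BD_compl (isLowerSet_Iio c) (h.1 n m)), ?_, ?_⟩
      · intro h5
        exact hmN (by rwa [← disjoint_iff, disjoint_compl_right_iff] at h5)
      · intro m' hm'
        rcases Finset.mem_insert.1 hm' with rfl | hm'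
        · rw [inf_assoc, compl_inf_self, inf_bot_eq]
        · rw [← le_bot_iff, ← h4 m' hm']
          exact inf_le_inf_right _ inf_le_left
  obtain ⟨Φ, hΦ, y', h1, h2, h3, h4⟩ := key (l + 1)
  have h5 := h.2 n Φ (by omega)
  apply h3
  rw [← inf_top_eq y', ← h5, Finset.sup_inf_distrib_left, ← le_bot_iff]
  exact Finset.sup_le fun m hm => (h4 m hm).le

/-- A condition with a given coordinate in its domain. -/
theorem exists_dom (p : CD BD) (c : L) : ∃ q : CD BD, c ∈ q.dom ∧ q.val loc ≤ p.val loc := by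
  set e : CD BD := { H.triv with dom := {c} } with he
  refine ⟨H.comb p e, ?_, H.comb_val_le_left _ _⟩
  exact Finset.mem_union_right _ (Finset.mem_singleton_self c)

omit H in
/-- Extending the stem at one coordinate. -/
theorem snoc_spec_aux (t : CD BD) (c : L) (v : ℕ) : ∃ t' : CD BD, t'.dom = t.dom ∧
    t'.stem = Function.update t.stem c ((t.stem c).snoc v) ∧ t'.prom = t.prom ∧ t'.bd = t.bd :=
  ⟨{ t with stem := Function.update t.stem c ((t.stem c).snoc v) }, rfl, rfl, rfl, rfl⟩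

/-- For nonzero `x` and a coordinate `c` there is a condition below `x` whose promise at `c` is
predecided at the end of its stem. -/
theorem exists_predecided {x : B} (hx : x ≠ ⊥) (c : L) :
    ∃ (p : CD BD) (Φ : Finset ℕ), c ∈ p.dom ∧ p.val loc ≤ x ∧
      ∀ v ∉ Φ, (p.res (Iio c)).val loc ≤ p.prom c (p.stem c).len v := by
  have : Nontrivial B := ⟨x, ⊥, hx⟩
  obtain ⟨r0, _, hr0⟩ := H.dense H.triv hx (by rw [H.val_triv]; exact le_top)
  obtain ⟨r, hr1, hr2⟩ := H.exists_dom r0 c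
  obtain ⟨y, hy1, hy2, hy3, Φ, hΦ⟩ := H.predecideB (r.ok c) (r.stem c).len
    (H.val_res_mem (isLowerSet_Iio c) r) (H.val_ne_bot (r.res (Iio c)))
  obtain ⟨s0, hs0, hs1⟩ := H.dense (r.res (Iio c)) hy3 hy1
  set s := s0.res (Iio c) with hs
  have hs2 : s.val loc ≤ y := H.proj (isLowerSet_Iio c) hy2 hs1
  set p := H.comb s (r.res (Ici c)) with hp
  have hcs : c ∉ s.dom := fun h => lt_irrefl c (mem_res_dom.1 h).2
  have hcr : c ∈ (r.res (Ici c)).dom := mem_res_dom.2 ⟨hr1, le_refl c⟩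
  have hpc : p.stem c = r.stem c := if_neg hcs
  have hpN : ∀ n m, p.prom c n m = r.prom c n m := by
    intro n m
    change (if c ∈ s.dom then s.prom c n m else ⊤) ⊓
      (if c ∈ (r.res (Ici c)).dom then (r.res (Ici c)).prom c n m else ⊤) = _
    rw [if_neg hcs, if_pos hcr, top_inf_eq]
    rfl
  have hps : (p.res (Iio c)).val loc ≤ s.val loc := by
    rw [le_val_iff]
    intro c' hc'
    have h1 : c' ∈ (p.res (Iio c)).dom :=
      mem_res_dom.2 ⟨Finset.mem_union_left _ hc', (mem_res_dom.1 hc').2⟩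
    refine (val_le_loc (p := p.res (Iio c)) h1).trans ?_
    have h2 : (p.res (Iio c)).stem c' = s.stem c' := if_pos hc'
    rw [h2]
    apply H.loc_mono
    intro n m
    change (if c' ∈ s.dom then s.prom c' n m else ⊤) ⊓ _ ≤ _
    rw [if_pos hc']
    exact inf_le_left
  refine ⟨p, Φ, Finset.mem_union_right _ hcr, ?_, fun v hv => ?_⟩
  · refine le_trans ?_ (hr2.trans hr0)
    rw [le_val_iff]
    intro c' hc'
    by_cases h : c' < c
    · refine (val_le_res p (Iio c)).trans (hps.trans (hs2.trans (hy1.trans ?_)))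
      exact le_val_res_iff.1 le_rfl c' hc' h
    · have h1 : p.val loc ≤ (r.res (Ici c)).val loc := by
        refine H.comb_val_le_right _ _ fun c'' h1 h2 => ?_
        exact absurd (mem_res_dom.1 h2).2 (not_lt.2 (mem_res_dom.1 h1).2)
      exact h1.trans (le_val_res_iff.1 le_rfl c' hc' (not_lt.1 h))
  · rw [hpN, hpc]
    exact hps.trans (hs2.trans (hΦ v hv))

/-- Theorem B. -/
theorem thmB (Λ : Levels L K Ω π)
    (hfib : ∀ ζ : K, ∀ f : L → K, ∃ α, ¬ {c | π c = ζ ∧ f c = α}.Countable)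
    (a : K → ℕ → ℕ → B) (b0 : B) (hinf : ∀ k n, b0 ≤ binf (a k n))
    (hlin : ∀ k k' n, b0 ≤ bsub (a k n) (a k' n) ⊔ bsub (a k' n) (a k n)) :
    b0 ≤ ⨆ c : L, ⨅ k : K, ⨆ n : ℕ, ⨆ v : ℕ, (cyl c n v ⊓ a k n v) := by
  by_contra hcon
  set p0 := b0 ⊓ (⨆ c : L, ⨅ k : K, ⨆ n : ℕ, ⨆ v : ℕ, (cyl c n v ⊓ a k n v))ᶜ with hp0
  have hp0ne : p0 ≠ ⊥ := by
    intro h2
    exact hcon (by rwa [hp0, ← disjoint_iff, disjoint_compl_right_iff] at h2)
  have hp0b : p0 ≤ b0 := inf_le_left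
  have hf : ∀ c : L, ∃ k : K, p0 ⊓ (⨆ n : ℕ, ⨆ v : ℕ, (cyl c n v ⊓ a k n v))ᶜ ≠ ⊥ := by
    intro c
    have h1 : p0 ≤ ⨆ k : K, (⨆ n : ℕ, ⨆ v : ℕ, (cyl c n v ⊓ a k n v))ᶜ := by
      rw [← compl_iInf]
      exact inf_le_right.trans (compl_le_compl
        (le_iSup (fun c : L => ⨅ k : K, ⨆ n : ℕ, ⨆ v : ℕ, (cyl c n v ⊓ a k n v)) c))
    exact exists_inf_ne_bot hp0ne h1
  choose f hf using hf
  have hA : ∀ n, ∃ ζ, ∀ β, ∃ P : ℕ → ℕ → B, (∀ b v, P b v ∈ BD (Dz π ζ)) ∧
      (∀ b v, P (b + 1) v ≤ P b v) ∧ (∀ b, p0 ≤ binf (P b)) ∧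
      p0 ≤ ⨆ b, bsub (P b) (a β n) := fun n =>
    H.thmA Λ p0 (fun k => a k n) (fun β => hp0b.trans (hinf β n))
      (fun α β => hp0b.trans (hlin α β n))
  choose z hz using hA
  obtain ⟨z1, hz1⟩ := Λ.bdd_countable z
  obtain ⟨z2, hz2⟩ := H.exists_level Λ (fun _ : Unit => p0)
  set ζ := max z1 z2 with hζ
  have hDl := Λ.lower (π := π) ζ
  set D := Dz π ζ with hD
  have hp0D : p0 ∈ BD D := H.BD_mono (Dz_mono (le_max_right _ _)) (hz2 ())
  obtain ⟨α, hα⟩ := hfib ζ f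
  set I := {c | π c = ζ ∧ f c = α} with hI
  have hch : ∀ c : L, ∃ (p : CD BD) (Φ : Finset ℕ), c ∈ I → (c ∈ p.dom ∧
      p.val loc ≤ p0 ⊓ (⨆ n : ℕ, ⨆ v : ℕ, (cyl c n v ⊓ a α n v))ᶜ ∧
      ∀ v ∉ Φ, (p.res (Iio c)).val loc ≤ p.prom c (p.stem c).len v) := by
    intro c
    by_cases hc : c ∈ I
    · have h1 := hf c
      rw [hc.2] at h1
      obtain ⟨p, Φ, h2⟩ := H.exists_predecided h1 c
      exact ⟨p, Φ, fun _ => h2⟩
    · exact ⟨H.triv, ∅, fun h => absurd h hc⟩
  choose p Φ hpΦ using hch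
  obtain ⟨J0, hJ0I, hJ0c, ⟨⟨n, Φ0⟩, hk⟩, d, s, l, hd0⟩ := thin hα (fun c => (p c).res Dᶜ)
    (fun c => (((p c).stem c).len, Φ c))
  -- remove the root
  set J := J0 \ {c | c ∈ d} with hJ
  have hJc : ¬ J.Countable := by
    intro h
    apply hJ0c
    refine (h.union d.countable_toSet).mono fun c hc => ?_
    by_cases hcd : c ∈ d
    · exact Or.inr hcd
    · exact Or.inl ⟨hc, hcd⟩
  have hd : IsDelta J (fun c => (p c).res Dᶜ) d s l := hd0.mono sdiff_subset
  have hJI : ∀ c ∈ J, c ∈ I := fun c hc => hJ0I hc.1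
  have hn : ∀ c ∈ J, ((p c).stem c).len = n := fun c hc => congrArg Prod.fst (hk c hc.1)
  have hΦ : ∀ c ∈ J, Φ c = Φ0 := fun c hc => congrArg Prod.snd (hk c hc.1)
  obtain ⟨P, hP1, hP2, hP3, hP4⟩ := hz n α
  have hPD : ∀ b v, P b v ∈ BD D := fun b v =>
    H.BD_mono (Dz_mono ((hz1 n).le.trans (le_max_left _ _))) (hP1 b v)
  set q : L → B := fun c => if c ∈ J then ((p c).res D).val loc else ⊥ with hq
  have hqD : ∀ c, q c ∈ BD D := by
    intro c
    rw [hq]
    simp only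
    split_ifs
    · exact H.val_res_mem hDl _
    · exact H.BD_bot hDl
  have hqJ : ∀ c ∈ J, q c = ((p c).res D).val loc := fun c hc => if_pos hc
  have hqp0 : ∀ c, q c ≤ p0 := by
    intro c
    by_cases hc : c ∈ J
    · rw [hqJ c hc]
      exact H.proj hDl hp0D ((hpΦ c (hJI c hc)).2.1.trans inf_le_left)
    · have : q c = ⊥ := if_neg hc
      rw [this]
      exact bot_le
  have hNB : Nontrivial B := ⟨p0, ⊥, hp0ne⟩
  have htsp : ∀ (c : L) (v : ℕ), ∃ t' : CD BD, t'.dom = ((p c).res Dᶜ).dom ∧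
      t'.stem = Function.update (p c).stem c (((p c).stem c).snoc v) ∧
      t'.prom = (p c).prom ∧ t'.bd = (p c).bd := fun c v => by
    obtain ⟨t', h1, h2, h3, h4⟩ := snoc_spec_aux ((p c).res Dᶜ) c v
    exact ⟨t', h1, h2, h3, h4⟩
  choose t' ht'd ht's ht'p ht'b using htsp
  have hdD : ∀ c ∈ d, c ∉ D := by
    obtain ⟨c0, hc0, _⟩ := exists_mem_diff hJc countable_empty
    exact fun c hc => (mem_res_dom.1 (hd.sub c0 hc0 hc)).2
  set x : ℕ → L → ℕ → B := fun b c v => if b ≤ v ∧ v ∉ Φ0 then q c ⊓ P b v else ⊥ with hx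
  have hxD : ∀ b c v, x b c v ∈ BD D := by
    intro b c v
    rw [hx]
    simp only
    split_ifs
    · exact H.BD_inf hDl (hqD c) (hPD b v)
    · exact H.BD_bot hDl
  have huD : elim J q ∈ BD D := H.BD_elim hDl hqD
  have hlim : ∀ b, elim J q ≤ elim J (fun c => ⨆ v, x b c v) := by
    intro b
    refine le_elim fun C hC => (elim_le J q hC).trans (iSup₂_mono fun c hc => ?_)
    have h1 : q c ≤ ⨆ v, ⨆ _ : max b (Φ0.sup id + 1) ≤ v, P b v :=
      ((hqp0 c).trans (hP3 b)).trans (iInf_le _ _)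
    rw [← inf_eq_left.2 h1, inf_iSup_eq]
    refine iSup_le fun v => ?_
    rw [inf_iSup_eq]
    refine iSup_le fun hv => ?_
    refine le_iSup_of_le v ?_
    have h2 : b ≤ v ∧ v ∉ Φ0 := by
      refine ⟨(le_max_left _ _).trans hv, fun hvΦ => ?_⟩
      have h3 : v ≤ Φ0.sup id := Finset.le_sup (f := id) hvΦ
      have h4 := (le_max_right b (Φ0.sup id + 1)).trans hv
      omega
    have h5 : x b c v = q c ⊓ P b v := if_pos h2
    rw [h5]
  obtain ⟨r, hr1, hr2, hr3⟩ := H.KLe hDl hd (V := ℕ)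
    (fun c _ c' hc' => (mem_res_dom.1 hc').2) (fun c v => if c ∈ J then t' c v else (p c).res Dᶜ)
    (fun c v => by
      by_cases hc : c ∈ J
      · simp only [hc, if_true]
        exact ht'd c v
      · simp only [hc, if_false])
    (fun c v c' hc' => by
      by_cases hc : c ∈ J
      · simp only [hc, if_true]
        have hne : c' ≠ c := fun h => hc.2 (h ▸ hc')
        rw [ht's, ht'b]
        exact ⟨Function.update_of_ne hne _ _, rfl⟩
      · simp only [hc, if_false]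
        exact ⟨trivial, trivial⟩)
    x hxD huD hlim hdD
  have hune : elim J q ≠ ⊥ := elim_ne_bot H.CCC hJc fun c hc => by
    rw [hqJ c hc]
    exact H.val_ne_bot _
  have hy0 : elim J q ⊓ r.val loc ≠ ⊥ := H.tail r hDl huD hune (fun c hc => hdD c (hr1 ▸ hc))
  have hup0 : elim J q ≤ p0 :=
    (elim_le J q countable_empty).trans (iSup₂_le fun c _ => hqp0 c)
  obtain ⟨b1, hb1⟩ := exists_inf_ne_bot hy0 ((inf_le_left.trans hup0).trans hP4)
  obtain ⟨m, y1, hy1, hy1le, hy1m⟩ := exists_of_le_bsub hb1 inf_le_right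
  obtain ⟨b, hb, c, hc, v, hne⟩ := hr3 y1 hy1 (hy1le.trans inf_le_left) (max b1 m)
  simp only [hc, if_true] at hne
  apply hne
  rw [← le_bot_iff]
  have hbv : b ≤ v ∧ v ∉ Φ0 := by
    by_contra hcon2
    have : x b c v = ⊥ := if_neg hcon2
    rw [this] at hne
    simp at hne
  have hxv : x b c v = q c ⊓ P b v := if_pos hbv
  have hPanti : ∀ b b', b ≤ b' → ∀ v, P b' v ≤ P b v := by
    intro b b' h
    induction b', h using Nat.le_induction with
    | base => exact fun _ => le_rfl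
    | succ b' _ ih => exact fun v => (hP2 b' v).trans (ih v)
  set Z := y1 ⊓ x b c v ⊓ (t' c v).val loc with hZ
  have hZa : Z ≤ a α n v := by
    refine le_trans (le_inf (inf_le_left.trans inf_le_left) ?_)
      (hy1m v (((le_max_right _ _).trans hb).trans hbv.1))
    refine (inf_le_left.trans inf_le_right).trans ?_
    rw [hxv]
    exact inf_le_right.trans (hPanti b1 b ((le_max_left _ _).trans hb) v)
  have hcI := hJI c hc
  obtain ⟨hcp, hpx, hppre⟩ := hpΦ c hcI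
  have hcD : c ∈ Dᶜ := by
    intro h
    have : π c < ζ := h
    rw [hcI.1] at this
    exact lt_irrefl _ this
  have hcdom : c ∈ (t' c v).dom := by
    rw [ht'd]
    exact mem_res_dom.2 ⟨hcp, hcD⟩
  have hZq : Z ≤ ((p c).res D).val loc := by
    rw [← hqJ c hc]
    refine (inf_le_left.trans inf_le_right).trans ?_
    rw [hxv]
    exact inf_le_left
  have hZt : ∀ c' ∈ (p c).dom, c' ≠ c → Z ≤ loc c' ((p c).stem c') ((p c).prom c') := by
    intro c' hc' hne'
    by_cases hcD' : c' ∈ D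
    · exact hZq.trans (le_val_res_iff.1 le_rfl c' hc' hcD')
    · have h1 : c' ∈ (t' c v).dom := by
        rw [ht'd]
        exact mem_res_dom.2 ⟨hc', hcD'⟩
      have h2 := val_le_loc (loc := loc) h1
      rw [ht's, ht'p, Function.update_of_ne hne'] at h2
      exact inf_le_right.trans h2
  have hZc : Z ≤ loc c (((p c).stem c).snoc v) ((p c).prom c) := by
    have h2 := val_le_loc (loc := loc) hcdom
    rw [ht's, ht'p, Function.update_self] at h2
    exact inf_le_right.trans h2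
  have hZpre : Z ≤ (p c).prom c ((p c).stem c).len v := by
    refine le_trans ?_ (hppre v (by rw [hΦ c hc]; exact hbv.2))
    rw [le_val_res_iff]
    exact fun c' hc' hlt => hZt c' hc' (ne_of_lt hlt)
  have hZp : Z ≤ (p c).val loc := by
    rw [le_val_iff]
    intro c' hc'
    by_cases hne' : c' = c
    · rw [hne']
      refine (le_inf le_rfl hZc).trans (H.loc_ext (Stem.le_snoc _ v) (fun n' h1 h2 => ?_)
        (fun _ _ => le_rfl))
      have h3 : n' = ((p c).stem c).len := by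
        have : (((p c).stem c).snoc v).len = ((p c).stem c).len + 1 := rfl
        omega
      subst h3
      rw [Stem.snoc_val]
      exact hZpre
    · exact hZt c' hc' hne'
  have hZcyl : Z ≤ cyl c n v := by
    have h1 : ((p c).stem c).len < (((p c).stem c).snoc v).len := Nat.lt_succ_self _
    have h2 := hZc.trans (H.loc_le_cyl h1)
    rw [Stem.snoc_val, hn c hc] at h2
    exact h2
  have h1 : Z ≤ ⨆ n : ℕ, ⨆ v : ℕ, (cyl c n v ⊓ a α n v) :=
    (le_inf hZcyl hZa).trans (le_iSup₂ (f := fun n v => cyl c n v ⊓ a α n v) n v)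
  calc Z ≤ (⨆ n : ℕ, ⨆ v : ℕ, (cyl c n v ⊓ a α n v)) ⊓
        (⨆ n : ℕ, ⨆ v : ℕ, (cyl c n v ⊓ a α n v))ᶜ := le_inf h1 ((hZp.trans hpx).trans inf_le_right)
    _ = ⊥ := inf_compl_self _
    _ ≤ ⊥ := le_rfl

/-- The covering theorem. -/
theorem thmCov (Λ : Levels L K Ω π) (e : K → L) (he : ∀ k, π (e k) = k) (y : ℕ → ℕ → B)
    (hy : ∀ n m m', m ≠ m' → y n m ⊓ y n m' = ⊥) :
    ∃ k : K, ⨆ N : ℕ, ⨅ n : ℕ, ⨅ _ : N ≤ n, ⨅ m : ℕ, (y n m ⊓ cyl (e k) n m)ᶜ = ⊤ := by
  obtain ⟨k, hk⟩ := H.exists_level Λ (fun n : ℕ × ℕ => y n.1 n.2)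
  refine ⟨k, ?_⟩
  set c := e k with hc
  have hlow := isLowerSet_Iio c
  have hsub : Dz π k ⊆ Iio c := by
    intro c' hc'
    by_contra hcon
    have h1 := Λ.mono (not_lt.1 hcon)
    rw [he] at h1
    exact absurd hc' (not_lt.2 h1)
  have hyD : ∀ n m, y n m ∈ BD (Iio c) := fun n m => H.BD_mono hsub (hk (n, m))
  have hprom : IsProm BD c (fun n m => (y n m)ᶜ) 1 := by
    refine ⟨fun n m => H.BD_compl hlow (hyD n m), fun n S hS => ?_⟩
    obtain ⟨m, hm, m', hm', hne⟩ := Finset.one_lt_card.1 hS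
    rw [eq_top_iff]
    calc (⊤ : B) = (y n m)ᶜ ⊔ (y n m')ᶜ := by rw [← compl_inf, hy n m m' hne, compl_bot]
      _ ≤ _ := sup_le (Finset.le_sup (f := fun m => (y n m)ᶜ) hm)
          (Finset.le_sup (f := fun m => (y n m)ᶜ) hm')
  rw [eq_top_iff]
  refine le_of_dense fun x hx _ => ?_
  have : Nontrivial B := ⟨x, ⊥, hx⟩
  obtain ⟨r0, _, hr0⟩ := H.dense H.triv hx (by rw [H.val_triv]; exact le_top)
  obtain ⟨r, hr1, hr2⟩ := H.exists_dom r0 c
  set g : CD BD := {
    dom := {c}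
    stem := r.stem
    prom := fun c' => if c' = c then (fun n m => (y n m)ᶜ) else (fun _ _ => ⊤)
    bd := fun c' => 1
    ok := fun c' => by
      by_cases h : c' = c
      · subst h
        simpa using hprom
      · simpa [h] using isProm_mono_bd (H.isProm_top c') (Nat.zero_le 1) } with hg
  have hcg : c ∈ g.dom := Finset.mem_singleton_self c
  have hval : (H.comb r g).val loc ≤ loc c (r.stem c) (fun n m => (y n m)ᶜ) := by
    have h1 := H.comb_val_le_loc_right r g hcg (fun _ => rfl)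
    have h2 : g.prom c = fun n m => (y n m)ᶜ := if_pos rfl
    rw [h2] at h1
    exact h1
  refine ne_bot_mono (le_inf ((H.comb_val_le_left _ _).trans (hr2.trans hr0)) ?_)
    (H.val_ne_bot (H.comb r g))
  refine le_iSup_of_le (r.stem c).len (le_iInf₂ fun n hn => le_iInf fun m => ?_)
  rw [le_compl_iff_disjoint_right, disjoint_iff, ← le_bot_iff]
  calc (H.comb r g).val loc ⊓ (y n m ⊓ cyl c n m)
      ≤ (loc c (r.stem c) (fun n m => (y n m)ᶜ) ⊓ cyl c n m) ⊓ y n m :=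
        le_inf (le_inf (inf_le_left.trans hval) (inf_le_right.trans inf_le_right))
          (inf_le_right.trans inf_le_left)
    _ ≤ (y n m)ᶜ ⊓ y n m := inf_le_inf_right _ (H.loc_cyl hn)
    _ = ⊥ := compl_inf_self _
    _ ≤ ⊥ := le_rfl

end IsIter

end Pool.Agent.Lib.P6aeb5f
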