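import Pool.Agent.Lib.P6aeb5f.RegAlg

/-!
The topological realization of the linear iteration of eventually different forcing.
-/

open Set TopologicalSpace Topology Classical

namespace Pool.Agent.Lib.P6aeb5f

/-- A finite sequence of natural numbers, padded by zero. -/
@[ext] structure Stem where
  len : ℕ
  val : ℕ → ℕ
  junk : ∀ i, len ≤ i → val i = 0

namespace Stem

/-- The empty stem. -/
def emp : Stem := ⟨0, fun _ => 0, fun _ _ => rfl⟩

/-- The restriction of a function to `n`. -/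
def ofFun (f : ℕ → ℕ) (n : ℕ) : Stem :=
  ⟨n, fun i => if i < n then f i else 0, fun _ hi => if_neg (not_lt.2 hi)⟩

theorem ofFun_val {f : ℕ → ℕ} {n i : ℕ} (h : i < n) : (ofFun f n).val i = f i := if_pos h

/-- End-extension of stems. -/
def Le (s t : Stem) : Prop := s.len ≤ t.len ∧ ∀ i < s.len, t.val i = s.val i

theorem Le.refl (s : Stem) : Le s s := ⟨le_rfl, fun _ _ => rfl⟩

theorem Le.trans {s t r : Stem} (h : Le s t) (h' : Le t r) : Le s r :=
  ⟨h.1.trans h'.1, fun i hi => (h'.2 i (hi.trans_le h.1)).trans (h.2 i hi)⟩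

/-- one-point extension -/
def snoc (s : Stem) (v : ℕ) : Stem :=
  ⟨s.len + 1, fun i => if i = s.len then v else s.val i, fun i hi => by
    rw [if_neg (by omega)]; exact s.junk i (by omega)⟩

theorem le_snoc (s : Stem) (v : ℕ) : Le s (s.snoc v) :=
  ⟨Nat.le_succ _, fun i hi => by simp only [snoc]; rw [if_neg (by omega)]⟩

theorem snoc_val (s : Stem) (v : ℕ) : (s.snoc v).val s.len = v := by simp [snoc]

instance : Countable Stem := by
  have : Function.Injective (fun s : Stem => (⟨s.len, fun i : Fin s.len => s.val i⟩ :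
      Σ n : ℕ, (Fin n → ℕ))) := by
    intro s t h
    rcases s with ⟨n, f, hf⟩
    rcases t with ⟨m, g, hg⟩
    simp only [Sigma.mk.injEq] at h
    obtain ⟨rfl, h⟩ := h
    have h' := eq_of_heq h
    congr
    funext i
    by_cases hi : i < n
    · exact congrFun h' ⟨i, hi⟩
    · rw [hf i (not_lt.1 hi), hg i (not_lt.1 hi)]
  exact this.countable

end Stem

/-- The underlying set of points. -/
def Pt (L : Type) : Type := L → ℕ → ℕ

/-- Basic set at the coordinate `c` with stem `s` and promise `N`. -/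
def Loc {L : Type} (c : L) (s : Stem) (N : ℕ → ℕ → Set (Pt L)) : Set (Pt L) :=
  {z | (∀ i < s.len, z c i = s.val i) ∧ ∀ n, s.len ≤ n → z ∈ N n (z c n)}

/-- `N` is a promise with bound `l` with respect to the topology `T`. -/
def IsPromise {L : Type} (T : TopologicalSpace (Pt L)) (N : ℕ → ℕ → Set (Pt L)) (l : ℕ) : Prop :=
  (∀ n m, IsOpen[T] (N n m)) ∧
  (∀ n m V, IsOpen[T] V →
    (∀ V' ⊆ V, IsOpen[T] V' → V'.Nonempty → (V' ∩ N n m).Nonempty) → V ⊆ N n m) ∧
  (∀ n (S : Finset ℕ), l < S.card → ∀ V, IsOpen[T] V → V.Nonempty → ∃ m ∈ S, (V ∩ N n m).Nonempty)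

section

variable {L : Type} {T : TopologicalSpace (Pt L)} {N N' : ℕ → ℕ → Set (Pt L)} {l l' : ℕ}

theorem isPromise_univ (T : TopologicalSpace (Pt L)) : IsPromise T (fun _ _ => univ) 0 := by
  refine ⟨fun _ _ => isOpen_univ, fun _ _ _ _ _ => subset_univ _, fun n S hS V _ hne => ?_⟩
  obtain ⟨m, hm⟩ := Finset.card_pos.1 hS
  exact ⟨m, hm, by simpa using hne⟩

/-- Deciding the promise at `n` up to finitely many values. -/
theorem IsPromise.predecide (h : IsPromise T N l) (n : ℕ) {V : Set (Pt L)} (hV : IsOpen[T] V)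
    (hne : V.Nonempty) : ∃ V' ⊆ V, IsOpen[T] V' ∧ V'.Nonempty ∧
      ∃ Φ : Finset ℕ, Φ.card ≤ l ∧ ∀ m ∉ Φ, V' ⊆ N n m := by
  by_contra hcon
  have key : ∀ k : ℕ, ∃ Φ : Finset ℕ, Φ.card = k ∧ ∃ V' ⊆ V, IsOpen[T] V' ∧ V'.Nonempty ∧
      ∀ m ∈ Φ, ¬ (V' ∩ N n m).Nonempty := by
    intro k
    induction k with
    | zero => exact ⟨∅, rfl, V, Subset.rfl, hV, hne, by simp⟩
    | succ k ih =>
      obtain ⟨Φ, hΦ, V', hV'V, hV', hne', hd⟩ := ih
      have hcard : Φ.card ≤ l := by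
        by_contra hlt
        obtain ⟨m, hm, hmN⟩ := h.2.2 n Φ (not_le.1 hlt) V' hV' hne'
        exact hd m hm hmN
      have : ∃ m, m ∉ Φ ∧ ¬ V' ⊆ N n m := by
        by_contra hc
        push Not at hc
        exact hcon ⟨V', hV'V, hV', hne', Φ, hcard, hc⟩
      obtain ⟨m, hm, hmN⟩ := this
      have : ∃ V'' ⊆ V', IsOpen[T] V'' ∧ V''.Nonempty ∧ ¬ (V'' ∩ N n m).Nonempty := by
        by_contra hc
        push Not at hc
        refine hmN (h.2.1 n m V' hV' fun V'' h1 h2 h3 => ?_)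
        exact hc V'' h1 h2 h3
      obtain ⟨V'', h1, h2, h3, h4⟩ := this
      refine ⟨insert m Φ, by rw [Finset.card_insert_of_notMem hm, hΦ], V'', h1.trans hV'V, h2, h3,
        ?_⟩
      intro m' hm'
      rcases Finset.mem_insert.1 hm' with rfl | hm'
      · exact h4
      · intro hc
        exact hd m' hm' (hc.mono (inter_subset_inter_left _ h1))
  obtain ⟨Φ, hΦ, V', _, hV', hne', hd⟩ := key (l + 1)
  obtain ⟨m, hm, hmN⟩ := h.2.2 n Φ (by omega) V' hV' hne'
  exact hd m hm hmN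

theorem IsPromise.inter (h : IsPromise T N l) (h' : IsPromise T N' l') :
    IsPromise T (fun n m => N n m ∩ N' n m) (l + l') := by
  refine ⟨fun n m => (h.1 n m).inter (h'.1 n m), fun n m V hV hd => ?_, fun n S hS V hV hne => ?_⟩
  · refine subset_inter (h.2.1 n m V hV fun V' h1 h2 h3 => ?_)
      (h'.2.1 n m V hV fun V' h1 h2 h3 => ?_)
    · exact (hd V' h1 h2 h3).mono (by intro x hx; exact ⟨hx.1, hx.2.1⟩)
    · exact (hd V' h1 h2 h3).mono (by intro x hx; exact ⟨hx.1, hx.2.2⟩)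
  · obtain ⟨V1, h11, h12, h13, Φ, hΦ, hΦ'⟩ := h.predecide n hV hne
    obtain ⟨V2, h21, h22, h23, Ψ, hΨ, hΨ'⟩ := h'.predecide n h12 h13
    have : ∃ m ∈ S, m ∉ Φ ∪ Ψ := by
      by_contra hc
      push Not at hc
      have := Finset.card_le_card (show S ⊆ Φ ∪ Ψ from hc)
      have := Finset.card_union_le Φ Ψ
      omega
    obtain ⟨m, hm, hmΦ⟩ := this
    rw [Finset.mem_union, not_or] at hmΦ
    refine ⟨m, hm, h23.mono fun x hx => ⟨h11 (h21 hx), hΦ' m hmΦ.1 (h21 hx), hΨ' m hmΦ.2 hx⟩⟩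

end

variable {L : Type} [LinearOrder L] [WellFoundedLT L]

/-- The topology of the iteration below `c`. -/
@[instance_reducible] noncomputable def Tlt : L → TopologicalSpace (Pt L) :=
  (wellFounded_lt (α := L)).fix (fun c ih =>
    generateFrom {V | ∃ c', ∃ h : c' < c, ∃ s N l, IsPromise (ih c' h) N l ∧ V = Loc c' s N})

/-- The topology of the iteration restricted to `D`. -/
@[instance_reducible] noncomputable def TD (D : Set L) : TopologicalSpace (Pt L) :=
  generateFrom {V | ∃ c ∈ D, ∃ s N l, IsPromise (Tlt c) N l ∧ V = Loc c s N}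

theorem Tlt_eq (c : L) : Tlt c = TD (Iio c) := by
  unfold Tlt TD
  rw [WellFounded.fix_eq]
  congr 1
  ext V
  simp only [mem_ofPred_eq, mem_Iio, exists_prop]
  rfl

theorem TD_mono {D D' : Set L} (h : D ⊆ D') {V : Set (Pt L)} (hV : IsOpen[TD D] V) :
    IsOpen[TD D'] V := by
  have : TD D' ≤ TD D := by
    apply le_generateFrom
    rintro W ⟨c, hc, s, N, l, hN, rfl⟩
    exact isOpen_generateFrom_of_mem ⟨c, h hc, s, N, l, hN, rfl⟩
  exact this V hV

theorem isOpen_Loc {D : Set L} {c : L} (hc : c ∈ D) {s N l} (hN : IsPromise (Tlt c) N l) :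
    IsOpen[TD D] (Loc c s N) :=
  isOpen_generateFrom_of_mem ⟨c, hc, s, N, l, hN, rfl⟩

/-- Finite support conditions. -/
structure Cond (L : Type) [LinearOrder L] [WellFoundedLT L] where
  dom : Finset L
  stem : L → Stem
  prom : L → ℕ → ℕ → Set (Pt L)
  bd : L → ℕ
  ok : ∀ c, IsPromise (Tlt c) (prom c) (bd c)

namespace Cond

/-- The set of points satisfying the condition. -/
def U (p : Cond L) : Set (Pt L) := {z | ∀ c ∈ p.dom, z ∈ Loc c (p.stem c) (p.prom c)}

/-- Restriction of a condition. -/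
noncomputable def res (p : Cond L) (D : Set L) : Cond L := { p with dom := p.dom.filter (· ∈ D) }

/-- The order of conditions. -/
def Le (q p : Cond L) : Prop :=
  p.dom ⊆ q.dom ∧ ∀ c ∈ p.dom, (p.stem c).Le (q.stem c) ∧
    (∀ n m, q.prom c n m ⊆ p.prom c n m) ∧
    ∀ n, (p.stem c).len ≤ n → n < (q.stem c).len →
      (q.res (Iio c)).U ⊆ p.prom c n ((q.stem c).val n)

theorem mem_res_dom {p : Cond L} {D : Set L} {c : L} :
    c ∈ (p.res D).dom ↔ c ∈ p.dom ∧ c ∈ D := by simp [res]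

theorem mem_U_res {p : Cond L} {D : Set L} {z : Pt L} :
    z ∈ (p.res D).U ↔ ∀ c ∈ p.dom, c ∈ D → z ∈ Loc c (p.stem c) (p.prom c) := by
  simp only [U, mem_ofPred_eq, mem_res_dom, and_imp]
  rfl

theorem U_subset_res (p : Cond L) (D : Set L) : p.U ⊆ (p.res D).U := by
  intro z hz
  rw [mem_U_res]
  exact fun c hc _ => hz c hc

theorem Le.refl (p : Cond L) : Le p p :=
  ⟨Finset.Subset.refl _, fun _ _ => ⟨Stem.Le.refl _, fun _ _ => Subset.rfl,
    fun _ h1 h2 => absurd h2 (not_lt.2 h1)⟩⟩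

theorem Le.U_subset {q p : Cond L} (h : Le q p) : q.U ⊆ p.U := by
  intro z hz c hc
  obtain ⟨h1, h2, h3⟩ := h.2 c hc
  obtain ⟨h4, h5⟩ := hz c (h.1 hc)
  refine ⟨fun i hi => (h4 i (hi.trans_le h1.1)).trans (h1.2 i hi), fun n hn => ?_⟩
  by_cases hn' : n < (q.stem c).len
  · rw [h4 n hn']
    exact h3 n hn hn' (U_subset_res _ _ hz)
  · exact h2 _ _ (h5 n (not_lt.1 hn'))

theorem res_res_of_subset {p : Cond L} {D D' : Set L} (h : D ⊆ D') :
    (p.res D').res D = p.res D := by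
  unfold res
  congr 1
  ext c
  simp only [Finset.mem_filter]
  constructor
  · rintro ⟨⟨h1, _⟩, h3⟩
    exact ⟨h1, h3⟩
  · rintro ⟨h1, h2⟩
    exact ⟨⟨h1, h h2⟩, h2⟩

theorem Le.res {q p : Cond L} (h : Le q p) {D : Set L} (hD : IsLowerSet D) :
    Le (q.res D) (p.res D) := by
  refine ⟨fun c hc => ?_, fun c hc => ?_⟩
  · rw [mem_res_dom] at hc ⊢
    exact ⟨h.1 hc.1, hc.2⟩
  · rw [mem_res_dom] at hc
    obtain ⟨h1, h2, h3⟩ := h.2 c hc.1
    refine ⟨h1, h2, fun n hn hn' => ?_⟩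
    rw [res_res_of_subset (show Iio c ⊆ D from fun x hx => hD (le_of_lt hx) hc.2)]
    exact h3 n hn hn'

theorem Le.trans {r q p : Cond L} (h : Le r q) (h' : Le q p) : Le r p := by
  refine ⟨h'.1.trans h.1, fun c hc => ?_⟩
  obtain ⟨h1, h2, h3⟩ := h'.2 c hc
  obtain ⟨k1, k2, k3⟩ := h.2 c (h'.1 hc)
  refine ⟨h1.trans k1, fun n m => (k2 n m).trans (h2 n m), fun n hn hn' => ?_⟩
  by_cases hq : n < (q.stem c).len
  · rw [k1.2 n hq]
    exact ((h.res (isLowerSet_Iio c)).U_subset).trans (h3 n hn hq)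
  · exact (k3 n (not_lt.1 hq) hn').trans (h2 _ _)

/-- Replace the part of `q` in `D` by that of `p`. -/
noncomputable def merge (D : Set L) (p q : Cond L) : Cond L where
  dom := p.dom.filter (· ∈ D) ∪ q.dom.filter (· ∉ D)
  stem c := if c ∈ D then p.stem c else q.stem c
  prom c := if c ∈ D then p.prom c else q.prom c
  bd c := if c ∈ D then p.bd c else q.bd c
  ok c := by
    by_cases h : c ∈ D
    · simpa [h] using p.ok c
    · simpa [h] using q.ok c

/-- Two conditions have the same data on `D`. -/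
def SameOn (D : Set L) (q p : Cond L) : Prop :=
  ∀ c ∈ D, (c ∈ q.dom ↔ c ∈ p.dom) ∧ q.stem c = p.stem c ∧ q.prom c = p.prom c ∧ q.bd c = p.bd c

theorem SameOn.refl (D : Set L) (p : Cond L) : SameOn D p p :=
  fun _ _ => ⟨Iff.rfl, rfl, rfl, rfl⟩

theorem SameOn.symm {D : Set L} {q p : Cond L} (h : SameOn D q p) : SameOn D p q :=
  fun c hc => ⟨(h c hc).1.symm, (h c hc).2.1.symm, (h c hc).2.2.1.symm, (h c hc).2.2.2.symm⟩

theorem SameOn.trans {D : Set L} {r q p : Cond L} (h : SameOn D r q) (h' : SameOn D q p) :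
    SameOn D r p :=
  fun c hc => ⟨(h c hc).1.trans (h' c hc).1, (h c hc).2.1.trans (h' c hc).2.1,
    (h c hc).2.2.1.trans (h' c hc).2.2.1, (h c hc).2.2.2.trans (h' c hc).2.2.2⟩

theorem SameOn.mono {D D' : Set L} {q p : Cond L} (h : SameOn D q p) (hD : D' ⊆ D) :
    SameOn D' q p := fun c hc => h c (hD hc)

theorem SameOn.U_res {D : Set L} {q p : Cond L} (h : SameOn D q p) :
    (q.res D).U = (p.res D).U := by
  ext z
  rw [mem_U_res, mem_U_res]
  constructor
  · intro hz c hc hcD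
    obtain ⟨h1, h2, h3, _⟩ := h c hcD
    rw [← h2, ← h3]
    exact hz c (h1.2 hc) hcD
  · intro hz c hc hcD
    obtain ⟨h1, h2, h3, _⟩ := h c hcD
    rw [h2, h3]
    exact hz c (h1.1 hc) hcD

theorem merge_sameOn (D : Set L) (p q : Cond L) : SameOn D (merge D p q) p := by
  intro c hc
  simp [merge, hc]

theorem merge_sameOn_compl (D : Set L) (p q : Cond L) : SameOn Dᶜ (merge D p q) q := by
  intro c hc
  have hc : c ∉ D := hc
  simp [merge, hc]

theorem U_eq_inter (p : Cond L) (D : Set L) : p.U = (p.res D).U ∩ (p.res Dᶜ).U := by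
  ext z
  rw [mem_inter_iff, mem_U_res, mem_U_res]
  constructor
  · intro hz
    exact ⟨fun c hc _ => hz c hc, fun c hc _ => hz c hc⟩
  · rintro ⟨h1, h2⟩ c hc
    by_cases hD : c ∈ D
    · exact h1 c hc hD
    · exact h2 c hc hD

theorem U_merge (D : Set L) (p q : Cond L) :
    (merge D p q).U = (p.res D).U ∩ (q.res Dᶜ).U := by
  rw [U_eq_inter _ D, (merge_sameOn D p q).U_res, (merge_sameOn_compl D p q).U_res]

theorem res_eq_of_dom_subset {p : Cond L} {D : Set L} (h : ∀ c ∈ p.dom, c ∈ D) :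
    p.res D = p := by
  have : p.dom.filter (· ∈ D) = p.dom := Finset.filter_true_of_mem h
  unfold res
  rw [this]

/-- Change the data at one coordinate. -/
noncomputable def put (p : Cond L) (c : L) (s : Stem) (N : ℕ → ℕ → Set (Pt L)) (l : ℕ)
    (h : IsPromise (Tlt c) N l) : Cond L where
  dom := insert c p.dom
  stem := Function.update p.stem c s
  prom := Function.update p.prom c N
  bd := Function.update p.bd c l
  ok c' := by
    by_cases hc : c' = c
    · subst hc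
      simpa using h
    · simpa [hc] using p.ok c'

theorem put_sameOn (p : Cond L) (c : L) (s : Stem) (N : ℕ → ℕ → Set (Pt L)) (l : ℕ)
    (h : IsPromise (Tlt c) N l) : SameOn {c}ᶜ (p.put c s N l h) p := by
  intro c' hc
  have hc : c' ≠ c := hc
  simp [put, hc]

/-- The trivial condition. -/
noncomputable def triv : Cond L where
  dom := ∅
  stem _ := Stem.emp
  prom _ _ _ := univ
  bd _ := 0
  ok _ := isPromise_univ _

theorem isOpen_U (p : Cond L) (D : Set L) (h : ∀ c ∈ p.dom, c ∈ D) : IsOpen[TD D] p.U := by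
  have : p.U = ⋂ c ∈ p.dom, Loc c (p.stem c) (p.prom c) := by
    ext z; simp [U]
  rw [this]
  exact @isOpen_biInter_finset _ _ (TD D) p.dom _ (fun c hc => isOpen_Loc (h c hc) (p.ok c))

/-- Refinement into a basic set at `c`, assuming refinement below `c`. -/
theorem stepA (c : L)
    (hP : ∀ (p : Cond L) (O : Set (Pt L)), (∀ c' ∈ p.dom, c' < c) → IsOpen[Tlt c] O →
      ∀ z ∈ p.U, z ∈ O → ∃ q : Cond L, Le q p ∧ z ∈ q.U ∧ q.U ⊆ O ∧ ∀ c' ∈ q.dom, c' < c)
    {s : Stem} {N : ℕ → ℕ → Set (Pt L)} {l : ℕ} (hN : IsPromise (Tlt c) N l) (p : Cond L)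
    (hcp : c ∈ p.dom) (z : Pt L) (hz : z ∈ p.U) (hz' : z ∈ Loc c s N) :
    ∃ q : Cond L, Le q p ∧ z ∈ q.U ∧ q.U ⊆ Loc c s N ∧ SameOn (Ioi c) q p := by
  set s0 := p.stem c with hs0
  set N0 := p.prom c with hN0
  set l' := max s0.len s.len with hl'
  have hzc := hz c hcp
  set O : Set (Pt L) := ⋂ n ∈ Finset.range l',
    ((if s0.len ≤ n then N0 n (z c n) else univ) ∩ (if s.len ≤ n then N n (z c n) else univ)) with hO
  have hOo : IsOpen[Tlt c] O := by
    refine @isOpen_biInter_finset _ _ (Tlt c) (Finset.range l') _ (fun n _ => ?_)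
    refine @IsOpen.inter _ (Tlt c) _ _ ?_ ?_
    · split_ifs
      · exact (p.ok c).1 _ _
      · exact @isOpen_univ _ (Tlt c)
    · split_ifs
      · exact hN.1 _ _
      · exact @isOpen_univ _ (Tlt c)
  have memO : ∀ x, x ∈ O ↔ ∀ n < l', (s0.len ≤ n → x ∈ N0 n (z c n)) ∧
      (s.len ≤ n → x ∈ N n (z c n)) := by
    intro x
    rw [hO]
    simp only [mem_iInter, Finset.mem_range, mem_inter_iff]
    refine forall_congr' fun n => forall_congr' fun _ => and_congr ?_ ?_
    · by_cases h : s0.len ≤ n <;> simp [h]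
    · by_cases h : s.len ≤ n <;> simp [h]
  have hzO : z ∈ O := by
    rw [memO]
    exact fun n _ => ⟨fun h => hzc.2 n h, fun h => hz'.2 n h⟩
  obtain ⟨q1, hq1, hzq1, hq1O, hq1d⟩ := hP (p.res (Iio c)) O
    (fun c' hc' => (mem_res_dom.1 hc').2) hOo z (U_subset_res _ _ hz) hzO
  set q2 := merge (Iio c) q1 p with hq2
  set q := q2.put c (Stem.ofFun (z c) l') (fun n m => N0 n m ∩ N n m) (p.bd c + l)
    ((p.ok c).inter hN) with hq
  have hqq2 : SameOn {c}ᶜ q q2 := put_sameOn _ _ _ _ _ _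
  have hql : SameOn (Iio c) q q1 :=
    (hqq2.mono (fun x hx => (show x ≠ c from ne_of_lt hx))).trans (merge_sameOn _ _ _)
  have hqu : SameOn (Ioi c) q p :=
    (hqq2.mono (fun x hx => (show x ≠ c from ne_of_gt hx))).trans
      ((merge_sameOn_compl _ _ _).mono (fun x hx => (show ¬ x < c from not_lt.2 (le_of_lt hx))))
  have hqc : c ∈ q.dom := by simp [hq, put]
  have hqs : q.stem c = Stem.ofFun (z c) l' := by simp [hq, put]
  have hqN : q.prom c = fun n m => N0 n m ∩ N n m := by simp [hq, put]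
  have hUlt : (q.res (Iio c)).U = q1.U := by
    rw [hql.U_res, res_eq_of_dom_subset (p := q1) (D := Iio c) hq1d]
  have hs0z : ∀ i < s0.len, z c i = s0.val i := hzc.1
  refine ⟨q, ⟨?_, ?_⟩, ?_, ?_, hqu⟩
  · intro c' hc'
    rcases lt_trichotomy c' c with h | h | h
    · exact (hql c' h).1.2 (hq1.1 (mem_res_dom.2 ⟨hc', h⟩))
    · rw [h]; exact hqc
    · exact (hqu c' h).1.2 hc'
  · intro c' hc'
    rcases lt_trichotomy c' c with h | h | h
    · obtain ⟨h1, h2, h3⟩ := hq1.2 c' (mem_res_dom.2 ⟨hc', h⟩)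
      obtain ⟨_, k1, k2, _⟩ := hql c' h
      rw [k1, k2]
      refine ⟨h1, h2, fun n hn hn' => ?_⟩
      rw [(hql.mono (show Iio c' ⊆ Iio c from Iio_subset_Iio h.le)).U_res]
      exact h3 n hn hn'
    · subst h
      rw [hqs, hqN, hUlt]
      refine ⟨⟨le_max_left _ _, fun i hi => ?_⟩, fun n m => inter_subset_left, fun n hn hn' => ?_⟩
      · rw [Stem.ofFun_val (hi.trans_le (le_max_left _ _))]
        exact hs0z i hi
      · have h7 : (Stem.ofFun (z c') l').val n = z c' n := Stem.ofFun_val hn'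
        rw [h7]
        exact fun x hx => ((memO x).1 (hq1O hx) n hn').1 hn
    · obtain ⟨_, k1, k2, _⟩ := hqu c' h
      rw [k1, k2]
      exact ⟨Stem.Le.refl _, fun _ _ => Subset.rfl, fun n hn hn' => absurd hn' (not_lt.2 hn)⟩
  · intro c' hc'
    rcases lt_trichotomy c' c with h | h | h
    · obtain ⟨k0, k1, k2, _⟩ := hql c' h
      rw [k1, k2]
      exact hzq1 c' (k0.1 hc')
    · subst h
      rw [hqs, hqN]
      refine ⟨fun i hi => (Stem.ofFun_val hi).symm, fun n hn => ⟨hzc.2 n ?_, hz'.2 n ?_⟩⟩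
      · exact (le_max_left _ _).trans hn
      · exact (le_max_right _ _).trans hn
    · obtain ⟨k0, k1, k2, _⟩ := hqu c' h
      rw [k1, k2]
      exact hz c' (k0.1 hc')
  · intro x hx
    have hxc := hx c hqc
    have hxO : x ∈ O := hq1O (hUlt ▸ U_subset_res _ _ hx)
    rw [hqs, hqN] at hxc
    have hxz : ∀ i < l', x c i = z c i := fun i hi => by
      rw [hxc.1 i hi, Stem.ofFun_val hi]
    refine ⟨fun i hi => ?_, fun n hn => ?_⟩
    · rw [hxz i (hi.trans_le (le_max_right _ _))]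
      exact hz'.1 i hi
    · by_cases hn' : n < l'
      · rw [hxz n hn']
        exact ((memO x).1 hxO n hn').2 hn
      · exact (hxc.2 n (not_lt.1 hn')).2

/-- Adding a trivial coordinate. -/
theorem exists_mem_dom (p : Cond L) (c : L) :
    ∃ q : Cond L, Le q p ∧ c ∈ q.dom ∧ q.U = p.U ∧ SameOn {c}ᶜ q p := by
  by_cases hc : c ∈ p.dom
  · exact ⟨p, Le.refl _, hc, rfl, SameOn.refl _ _⟩
  · set q := p.put c Stem.emp (fun _ _ => univ) 0 (isPromise_univ _) with hq
    have hs : SameOn {c}ᶜ q p := put_sameOn _ _ _ _ _ _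
    have hqc : c ∈ q.dom := by simp [hq, put]
    refine ⟨q, ⟨?_, ?_⟩, hqc, ?_, hs⟩
    · intro c' hc'
      simp [hq, put, hc']
    · intro c' hc'
      have hne : c' ≠ c := fun h => hc (h ▸ hc')
      obtain ⟨_, k1, k2, _⟩ := hs c' hne
      rw [k1, k2]
      exact ⟨Stem.Le.refl _, fun _ _ => Subset.rfl, fun n hn hn' => absurd hn' (not_lt.2 hn)⟩
    · ext z
      constructor
      · intro hz c' hc'
        have hne : c' ≠ c := fun h => hc (h ▸ hc')
        obtain ⟨k0, k1, k2, _⟩ := hs c' hne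
        rw [← k1, ← k2]
        exact hz c' (k0.2 hc')
      · intro hz c' hc'
        by_cases hne : c' = c
        · subst hne
          have h1 : q.stem c' = Stem.emp := by simp [hq, put]
          have h2 : q.prom c' = fun _ _ => univ := by simp [hq, put]
          rw [h1, h2]
          exact ⟨fun i hi => absurd hi (Nat.not_lt_zero _), fun n _ => mem_univ _⟩
        · obtain ⟨k0, k1, k2, _⟩ := hs c' hne
          rw [k1, k2]
          exact hz c' (k0.1 hc')

/-- The conclusion of refinement at a single coordinate. -/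
def RefineAt (c : L) : Prop :=
  ∀ {s : Stem} {N : ℕ → ℕ → Set (Pt L)} {l : ℕ}, IsPromise (Tlt c) N l → ∀ (p : Cond L)
    (z : Pt L), z ∈ p.U → z ∈ Loc c s N →
    ∃ q : Cond L, Le q p ∧ z ∈ q.U ∧ q.U ⊆ Loc c s N ∧ SameOn (Ioi c) q p

theorem refine_lower {D : Set L} (hD : IsLowerSet D) (hA : ∀ c ∈ D, RefineAt c)
    {O : Set (Pt L)} (hO : IsOpen[TD D] O) : ∀ (p : Cond L) (z : Pt L), z ∈ p.U → z ∈ O →
    ∃ q : Cond L, Le q p ∧ z ∈ q.U ∧ q.U ⊆ O ∧ SameOn Dᶜ q p := by
  have hO' : GenerateOpen {V | ∃ c ∈ D, ∃ s N l, IsPromise (Tlt c) N l ∧ V = Loc c s N} O := hO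
  induction hO' with
  | basic V hV =>
    obtain ⟨c, hc, s, N, l, hN, rfl⟩ := hV
    intro p z hz hzV
    obtain ⟨q, h1, h2, h3, h4⟩ := hA c hc hN p z hz hzV
    refine ⟨q, h1, h2, h3, h4.mono fun x hx => ?_⟩
    by_contra hcon
    exact hx (hD (not_lt.1 hcon) hc)
  | univ =>
    intro p z hz _
    exact ⟨p, Le.refl _, hz, subset_univ _, SameOn.refl _ _⟩
  | inter V W hV hW ihV ihW =>
    intro p z hz hzVW
    obtain ⟨q, h1, h2, h3, h4⟩ := ihV hV p z hz hzVW.1
    obtain ⟨r, k1, k2, k3, k4⟩ := ihW hW q z h2 hzVW.2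
    exact ⟨r, k1.trans h1, k2, subset_inter (k1.U_subset.trans h3) k3, k4.trans h4⟩
  | sUnion S hS ih =>
    intro p z hz ⟨V, hV, hzV⟩
    obtain ⟨q, h1, h2, h3, h4⟩ := ih V hV (hS V hV) p z hz hzV
    exact ⟨q, h1, h2, h3.trans (subset_sUnion_of_mem hV), h4⟩

theorem refineAt (c : L) : RefineAt c := by
  refine wellFounded_lt.induction (C := fun c => RefineAt c) c (fun c ih => ?_)
  · intro s N l hN p z hz hz'
    obtain ⟨p', hp', hcp', hU, hsame⟩ := exists_mem_dom p c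
    have hP : ∀ (p : Cond L) (O : Set (Pt L)), (∀ c' ∈ p.dom, c' < c) → IsOpen[Tlt c] O →
        ∀ z ∈ p.U, z ∈ O →
          ∃ q : Cond L, Le q p ∧ z ∈ q.U ∧ q.U ⊆ O ∧ ∀ c' ∈ q.dom, c' < c := by
      intro p O hp hO z hz hzO
      rw [Tlt_eq] at hO
      obtain ⟨q, h1, h2, h3, h4⟩ := refine_lower (isLowerSet_Iio c) ih hO p z hz hzO
      refine ⟨q, h1, h2, h3, fun c' hc' => ?_⟩
      by_contra hcon
      exact hcon (hp c' ((h4 c' hcon).1.1 hc'))
    obtain ⟨q, h1, h2, h3, h4⟩ := stepA c hP hN p' hcp' z (hU ▸ hz) hz'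
    exact ⟨q, h1.trans hp', h2, h3,
      h4.trans (hsame.mono fun x hx => (show x ≠ c from ne_of_gt hx))⟩

/-- Refinement lemma. -/
theorem refine {D : Set L} (hD : IsLowerSet D) {O : Set (Pt L)} (hO : IsOpen[TD D] O)
    (p : Cond L) (z : Pt L) (hz : z ∈ p.U) (hzO : z ∈ O) :
    ∃ q : Cond L, Le q p ∧ z ∈ q.U ∧ q.U ⊆ O ∧ SameOn Dᶜ q p :=
  refine_lower hD (fun c _ => refineAt c) hO p z hz hzO

end Cond

end Pool.Agent.Lib.P6aeb5f
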