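import Pool.Agent.Lib.P6aeb5f.Topo

/-!
Conditions are nonempty; tail property.
-/

open Set TopologicalSpace Topology Classical

namespace Pool.Agent.Lib.P6aeb5f

variable {L : Type} [LinearOrder L] [WellFoundedLT L]

namespace Cond

theorem dom_of_sameOn_compl {D : Set L} {q p : Cond L} (h : SameOn Dᶜ q p)
    (hp : ∀ c ∈ p.dom, c ∈ D) : ∀ c ∈ q.dom, c ∈ D := by
  intro c hc
  by_contra hcon
  exact hcon (hp c ((h c hcon).1.1 hc))

/-- Replacing the part below `c` and the data at `c`. -/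
theorem glue (p q1 : Cond L) (c : L) (hq1 : Le q1 (p.res (Iio c)))
    (hq1d : ∀ c' ∈ q1.dom, c' ∈ Iio c) (s : Stem) (N : ℕ → ℕ → Set (Pt L)) (l : ℕ)
    (h : IsPromise (Tlt c) N l)
    (hc : c ∈ p.dom → (p.stem c).Le s ∧ (∀ n m, N n m ⊆ p.prom c n m) ∧
      ∀ n, (p.stem c).len ≤ n → n < s.len → q1.U ⊆ p.prom c n (s.val n)) :
    ∃ q : Cond L, Le q p ∧ SameOn (Iio c) q q1 ∧ (q.res (Iio c)).U = q1.U ∧ SameOn (Ioi c) q p ∧
      c ∈ q.dom ∧ q.stem c = s ∧ q.prom c = N ∧ q.bd c = l := by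
  set q2 := merge (Iio c) q1 p with hq2
  set q := q2.put c s N l h with hq
  have hqq2 : SameOn {c}ᶜ q q2 := put_sameOn _ _ _ _ _ _
  have hql : SameOn (Iio c) q q1 :=
    (hqq2.mono (fun x hx => (show x ≠ c from ne_of_lt hx))).trans (merge_sameOn _ _ _)
  have hqu : SameOn (Ioi c) q p :=
    (hqq2.mono (fun x hx => (show x ≠ c from ne_of_gt hx))).trans
      ((merge_sameOn_compl _ _ _).mono (fun x hx => (show ¬ x < c from not_lt.2 (le_of_lt hx))))
  have hqc : c ∈ q.dom := by simp [hq, put]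
  have hqs : q.stem c = s := by simp [hq, put]
  have hqN : q.prom c = N := by simp [hq, put]
  have hqb : q.bd c = l := by simp [hq, put]
  have hUlt : (q.res (Iio c)).U = q1.U := by
    rw [hql.U_res, res_eq_of_dom_subset (p := q1) (D := Iio c) hq1d]
  refine ⟨q, ⟨?_, ?_⟩, hql, hUlt, hqu, hqc, hqs, hqN, hqb⟩
  · intro c' hc'
    rcases lt_trichotomy c' c with h | h | h
    · exact (hql c' h).1.2 (hq1.1 (mem_res_dom.2 ⟨hc', h⟩))
    · rw [h]; exact hqc
    · exact (hqu c' h).1.2 hc'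
  · intro c' hc'
    rcases lt_trichotomy c' c with h | h | h
    · obtain ⟨h1, h2, h3⟩ := hq1.2 c' (mem_res_dom.2 ⟨hc', h⟩)
      obtain ⟨_, k1, k2, _⟩ := hql c' h
      rw [k1, k2]
      refine ⟨h1, h2, fun n hn hn' => ?_⟩
      rw [(hql.mono (show Iio c' ⊆ Iio c from Iio_subset_Iio h.le)).U_res]
      exact h3 n hn hn'
    · subst h
      rw [hqs, hqN, hUlt]
      exact hc hc'
    · obtain ⟨_, k1, k2, _⟩ := hqu c' h
      rw [k1, k2]
      exact ⟨Stem.Le.refl _, fun _ _ => Subset.rfl, fun n hn hn' => absurd hn' (not_lt.2 hn)⟩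

theorem ext0 (p : Cond L) (c : L) (hne : (p.res (Iio c)).U.Nonempty) :
    ∃ q : Cond L, Le q p ∧ (q.stem c).len = (p.stem c).len + 1 ∧ SameOn (Ioi c) q p := by
  have hop : IsOpen[Tlt c] (p.res (Iio c)).U := by
    rw [Tlt_eq]
    exact isOpen_U _ _ (fun c' hc' => (mem_res_dom.1 hc').2)
  obtain ⟨m, _, z, hz, hzN⟩ := (p.ok c).2.2 (p.stem c).len (Finset.range (p.bd c + 1))
    (by simp) _ hop hne
  have hO := (p.ok c).1 (p.stem c).len m
  rw [Tlt_eq] at hO
  obtain ⟨q1, h1, h2, h3, h4⟩ := refine (isLowerSet_Iio c) hO (p.res (Iio c)) z hz hzN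
  have hq1d := dom_of_sameOn_compl h4 (fun c' hc' => (mem_res_dom.1 hc').2)
  obtain ⟨q, k1, k2, k3, k4, k5, k6, k7, k8⟩ := glue p q1 c h1 hq1d ((p.stem c).snoc m) (p.prom c)
    (p.bd c) (p.ok c) (fun _ => ⟨Stem.le_snoc _ _, fun _ _ => Subset.rfl, fun n hn hn' => by
      have : n = (p.stem c).len := by
        simp only [Stem.snoc] at hn'; omega
      subst this
      rw [Stem.snoc_val]
      exact h3⟩)
  exact ⟨q, k1, by rw [k6]; rfl, k4⟩

/-- All conditions below `c` are nonempty. -/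
def NE (c : L) : Prop := ∀ p : Cond L, (∀ c' ∈ p.dom, c' ∈ Iio c) → p.U.Nonempty

theorem ext_all {D : Set L} (hD : IsLowerSet D) (h : ∀ c ∈ D, NE c) (p : Cond L)
    (hp : ∀ c' ∈ p.dom, c' ∈ D) : ∃ q : Cond L, Le q p ∧ (∀ c' ∈ q.dom, c' ∈ D) ∧
      ∀ c' ∈ p.dom, (p.stem c').len < (q.stem c').len := by
  have key : ∀ S : Finset L, S ⊆ p.dom → ∃ q : Cond L, Le q p ∧ (∀ c' ∈ q.dom, c' ∈ D) ∧
      ∀ c' ∈ S, (p.stem c').len < (q.stem c').len := by
    intro S
    induction S using Finset.induction_on with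
    | empty => exact fun _ => ⟨p, Le.refl _, hp, by simp⟩
    | insert a S ha ih =>
      intro hS
      obtain ⟨q, h1, h2, h3⟩ := ih ((Finset.subset_insert _ _).trans hS)
      have hap : a ∈ p.dom := hS (Finset.mem_insert_self _ _)
      have haq : a ∈ q.dom := h1.1 hap
      obtain ⟨r, k1, k2, k3⟩ := ext0 q a
        (h a (h2 a haq) _ (fun c' hc' => (mem_res_dom.1 hc').2))
      refine ⟨r, k1.trans h1, fun c' hc' => ?_, fun c' hc' => ?_⟩
      · by_cases hc : a < c'
        · exact h2 c' ((k3 c' hc).1.1 hc')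
        · exact hD (not_lt.1 hc) (h2 a haq)
      · rcases Finset.mem_insert.1 hc' with rfl | hc'
        · have := (h1.2 c' hap).1.1
          omega
        · have hcp : c' ∈ p.dom := hS (Finset.mem_insert_of_mem hc')
          have := (k1.2 c' (h1.1 hcp)).1.1
          have := h3 c' hc'
          omega
  exact key p.dom Finset.Subset.rfl

theorem nonempty_of_lower {D : Set L} (hD : IsLowerSet D) (h : ∀ c ∈ D, NE c) (p : Cond L)
    (hp : ∀ c' ∈ p.dom, c' ∈ D) : p.U.Nonempty := by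
  choose f hf1 hf2 hf3 using ext_all hD h
  let P : ℕ → {q : Cond L // ∀ c' ∈ q.dom, c' ∈ D} :=
    fun n => Nat.rec ⟨p, hp⟩ (fun _ q => ⟨f q.1 q.2, hf2 q.1 q.2⟩) n
  have hstep : ∀ n, Le (P (n + 1)).1 (P n).1 := fun n => hf1 _ _
  have hlen : ∀ n, ∀ c' ∈ (P n).1.dom, ((P n).1.stem c').len < ((P (n + 1)).1.stem c').len :=
    fun n => hf3 _ _
  have hle : ∀ i j, i ≤ j → Le (P j).1 (P i).1 := by
    intro i j hij
    induction j, hij using Nat.le_induction with
    | base => exact Le.refl _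
    | succ j _ ih => exact (hstep j).trans ih
  have hgrow : ∀ i k, ∀ c' ∈ (P i).1.dom, k ≤ ((P (i + k)).1.stem c').len := by
    intro i k c' hc'
    induction k with
    | zero => exact Nat.zero_le _
    | succ k ih =>
      have := hlen (i + k) c' ((hle i (i + k) (Nat.le_add_right _ _)).1 hc')
      have h2 : i + (k + 1) = i + k + 1 := by omega
      rw [h2]
      omega
  let z : Pt L := fun c' n =>
    if hj : ∃ j, c' ∈ (P j).1.dom ∧ n < ((P j).1.stem c').len then
      ((P (Classical.choose hj)).1.stem c').val n else 0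
  have hz : ∀ c' n j, c' ∈ (P j).1.dom → n < ((P j).1.stem c').len →
      z c' n = ((P j).1.stem c').val n := by
    intro c' n j hj1 hj2
    have hj : ∃ j, c' ∈ (P j).1.dom ∧ n < ((P j).1.stem c').len := ⟨j, hj1, hj2⟩
    have : z c' n = ((P (Classical.choose hj)).1.stem c').val n := dif_pos hj
    rw [this]
    obtain ⟨h1, h2⟩ := Classical.choose_spec hj
    rcases le_total j (Classical.choose hj) with hle' | hle'
    · exact ((hle _ _ hle').2 c' hj1).1.2 n hj2
    · exact (((hle _ _ hle').2 c' h1).1.2 n h2).symm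
  refine ⟨z, ?_⟩
  have main : ∀ c' : L, ∀ i, c' ∈ (P i).1.dom →
      z ∈ Loc c' ((P i).1.stem c') ((P i).1.prom c') := by
    intro c'
    refine wellFounded_lt.induction (C := fun c' => ∀ i, c' ∈ (P i).1.dom →
      z ∈ Loc c' ((P i).1.stem c') ((P i).1.prom c')) c' (fun c' ih => ?_)
    intro i hi
    refine ⟨fun n hn => hz c' n i hi hn, fun n hn => ?_⟩
    have hj := hgrow i (n + 1) c' hi
    have hji := hle i (i + (n + 1)) (Nat.le_add_right _ _)
    rw [hz c' n (i + (n + 1)) (hji.1 hi) (by omega)]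
    refine (hji.2 c' hi).2.2 n hn (by omega) ?_
    rw [mem_U_res]
    intro c'' hc'' hlt
    exact ih c'' hlt (i + (n + 1)) hc''
  exact fun c' hc' => main c' 0 hc'

theorem ne_all (c : L) : NE c := by
  refine wellFounded_lt.induction (C := fun c => NE c) c (fun c ih => ?_)
  intro p hp
  exact nonempty_of_lower (isLowerSet_Iio c) ih p hp

/-- Every condition is nonempty. -/
theorem nonempty (p : Cond L) : p.U.Nonempty :=
  nonempty_of_lower isLowerSet_univ (fun c _ => ne_all c) p (fun _ _ => mem_univ _)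

/-- Tail property. -/
theorem tail {D : Set L} (hD : IsLowerSet D) {W : Set (Pt L)} (hW : IsOpen[TD D] W)
    (hne : W.Nonempty) (t : Cond L) (ht : ∀ c ∈ t.dom, c ∉ D) : (W ∩ t.U).Nonempty := by
  obtain ⟨z, hz⟩ := hne
  obtain ⟨q, h1, h2, h3, h4⟩ := refine hD hW triv z (fun c hc => by simp [triv] at hc) hz
  have hqd := dom_of_sameOn_compl h4 (fun c hc => by simp [triv] at hc)
  obtain ⟨x, hx⟩ := nonempty (merge D q t)
  rw [U_merge, res_eq_of_dom_subset hqd, res_eq_of_dom_subset (D := Dᶜ) ht] at hx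
  exact ⟨x, h3 hx.1, hx.2⟩

end Cond

end Pool.Agent.Lib.P6aeb5f
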