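import Pool.Agent.Lib.P6aeb5f.Claims

/-!
The tower lemma.
-/

open Set Classical

namespace Pool.Agent.Lib.P6aeb5f

/-- Index types for the levels. -/
structure Levels (L K Ω : Type) [LinearOrder L] [LinearOrder K] [LinearOrder Ω] (π : L → K) :
    Prop where
  mono : Monotone π
  bdd : ∀ f : Ω → K, ∃ k, ∀ ν, f ν < k
  seg : ∀ μ : K, ∃ f : Ω → K, ∀ α, α < μ → ∃ ν, f ν = α
  unc : ¬ (univ : Set Ω).Countable
  cnt : ∀ ν : Ω, (Iic ν).Countable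
  ne : Nonempty K
  wf : WellFoundedLT Ω

variable {L K Ω : Type} [LinearOrder L] [LinearOrder K] [LinearOrder Ω]
  {π : L → K}

/-- The part below the level `ζ`. -/
def Dz (π : L → K) (ζ : K) : Set L := {c | π c < ζ}

omit [LinearOrder L] in
theorem Dz_mono {ζ ζ' : K} (h : ζ ≤ ζ') : Dz π ζ ⊆ Dz π ζ' := fun _ hc => lt_of_lt_of_le hc h

namespace Levels

variable (Λ : Levels L K Ω π)
include Λ

theorem lower (ζ : K) : IsLowerSet (Dz π ζ) := fun _ _ hba ha => lt_of_le_of_lt (Λ.mono hba) ha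

theorem lower_iUnion {I : Type*} (η : I → K) : IsLowerSet (⋃ ν, Dz π (η ν)) :=
  isLowerSet_iUnion fun ν => Λ.lower (η ν)

theorem omega_bdd {N : Type*} [Countable N] (f : N → Ω) : ∃ ν, ∀ n, f n < ν := by
  by_contra hcon
  push Not at hcon
  apply Λ.unc
  refine (countable_iUnion fun n => Λ.cnt (f n)).mono fun ν _ => ?_
  obtain ⟨n, hn⟩ := hcon ν
  exact mem_iUnion.2 ⟨n, hn⟩

theorem nonempty_omega : Nonempty Ω := by
  obtain ⟨ν, _⟩ := Λ.omega_bdd (N := Empty) (fun e => e.elim)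
  exact ⟨ν⟩

theorem exists_gt (ν : Ω) : ∃ ν', ν < ν' := by
  obtain ⟨ν', h⟩ := Λ.omega_bdd (fun _ : Unit => ν)
  exact ⟨ν', h ()⟩

theorem infinite_omega : Infinite Ω := by
  by_contra hfin
  rw [not_infinite_iff_finite] at hfin
  exact Λ.unc (Set.toFinite _).countable

theorem bdd_countable {N : Type*} [Countable N] (f : N → K) : ∃ k, ∀ n, f n < k := by
  obtain ⟨g, hg⟩ := exists_injective_nat N
  have := Λ.infinite_omega
  have e : ℕ ↪ Ω := Infinite.natEmbedding Ω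
  obtain ⟨k0⟩ := Λ.ne
  obtain ⟨k, hk⟩ := Λ.bdd (Function.extend (e ∘ g) f (fun _ => k0))
  refine ⟨k, fun n => ?_⟩
  have := hk ((e ∘ g) n)
  rwa [Function.Injective.extend_apply (e.injective.comp hg)] at this

/-- Construction of closed sequences. -/
theorem exists_seq (h : K → K) (Q : K → K → Prop) (hQ : ∀ k, ∃ k', k ≤ k' ∧ Q k k') (k0 : K) :
    ∃ η κ : Ω → K, (∀ ν, k0 ≤ κ ν ∧ κ ν ≤ η ν ∧ Q (κ ν) (η ν)) ∧
      ∀ ν ν', ν' < ν → h (η ν') ≤ κ ν := by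
  have := Λ.wf
  choose g hg1 hg2 using hQ
  have hb : ∀ f : Ω → K, ∃ k, ∀ ν, f ν ≤ k := fun f => by
    obtain ⟨k, hk⟩ := Λ.bdd f
    exact ⟨k, fun ν => (hk ν).le⟩
  choose bd hbd using hb
  let F : ∀ ν : Ω, (∀ ν', ν' < ν → K) → K := fun ν ih =>
    max k0 (bd (fun ν' => if h' : ν' < ν then h (g (ih ν' h')) else k0))
  let κ : Ω → K := (wellFounded_lt (α := Ω)).fix F
  have hκ : ∀ ν, κ ν = max k0 (bd (fun ν' => if ν' < ν then h (g (κ ν')) else k0)) := by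
    intro ν
    change (wellFounded_lt (α := Ω)).fix F ν = _
    rw [WellFounded.fix_eq]
    rfl
  refine ⟨fun ν => g (κ ν), κ, fun ν => ⟨?_, hg1 _, hg2 _⟩, fun ν ν' hlt => ?_⟩
  · rw [hκ]
    exact le_max_left _ _
  · rw [hκ ν]
    refine le_trans ?_ (le_max_right _ _)
    have := hbd (fun ν' => if ν' < ν then h (g (κ ν')) else k0) ν'
    simpa [hlt] using this

end Levels

variable {B : Type} [CompleteBooleanAlgebra B]
variable {BD : Set L → Set B} {loc : L → Stem → (ℕ → ℕ → B) → B} {cyl : L → ℕ → ℕ → B}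

namespace IsIter

variable (H : IsIter BD loc cyl) (Λ : Levels L K Ω π)
include H Λ

theorem exists_level {N : Type*} [Countable N] (x : N → B) :
    ∃ ζ, ∀ n, x n ∈ BD (Dz π ζ) := by
  have h1 : ∀ n, ∃ ζ, x n ∈ BD (Dz π ζ) := by
    intro n
    obtain ⟨C, _, hC, h⟩ := H.support isLowerSet_univ (H.BD_univ (x n))
    have : Countable C := hC.to_subtype
    obtain ⟨ζ, hζ⟩ := Λ.bdd_countable (fun c : C => π c)
    exact ⟨ζ, h _ (Λ.lower ζ) fun c hc => hζ ⟨c, hc⟩⟩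
  choose f hf using h1
  obtain ⟨ζ, hζ⟩ := Λ.bdd_countable f
  exact ⟨ζ, fun n => H.BD_mono (Dz_mono (hζ n).le) (hf n)⟩

theorem exists_level_omega (x : Ω → ℕ → B) :
    ∃ ζ, ∀ ν n, x ν n ∈ BD (Dz π ζ) := by
  have h1 : ∀ ν, ∃ ζ, ∀ n, x ν n ∈ BD (Dz π ζ) := fun ν => H.exists_level Λ (x ν)
  choose f hf using h1
  obtain ⟨ζ, hζ⟩ := Λ.bdd f
  exact ⟨ζ, fun ν n => H.BD_mono (Dz_mono (hζ ν).le) (hf ν n)⟩

theorem level_of_union (η : Ω → K) (hη : ∀ ν ν', ν < ν' → η ν ≤ η ν') {N : Type*} [Countable N]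
    (x : N → B) (hx : ∀ n, x n ∈ BD (⋃ ν, Dz π (η ν))) : ∃ ν, ∀ n, x n ∈ BD (Dz π (η ν)) := by
  have h1 : ∀ n, ∃ ν, x n ∈ BD (Dz π (η ν)) := by
    intro n
    obtain ⟨C, hCsub, hC, h⟩ := H.support (Λ.lower_iUnion η) (hx n)
    have : Countable C := hC.to_subtype
    have h2 : ∀ c : C, ∃ ν, c.1 ∈ Dz π (η ν) := fun c => mem_iUnion.1 (hCsub c.2)
    choose f hf using h2
    obtain ⟨ν, hν⟩ := Λ.omega_bdd f
    exact ⟨ν, h _ (Λ.lower _) fun c hc => Dz_mono (hη _ _ (hν ⟨c, hc⟩)) (hf ⟨c, hc⟩)⟩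
  choose f hf using h1
  obtain ⟨ν, hν⟩ := Λ.omega_bdd f
  exact ⟨ν, fun n => H.BD_mono (Dz_mono (hη _ _ (hν n))) (hf n)⟩

omit H Λ [LinearOrder L] in
theorem gap_congr {b b' : ℕ × ℕ → B} {T : ℕ → B} {x : B} (h : ∀ n, x ⊓ b n = x ⊓ b' n) :
    x ⊓ gap b T ≤ gap b' T := by
  unfold gap
  rw [inf_iSup_eq]
  refine iSup_mono fun k'' => le_iInf₂ fun k' hk' => le_iInf fun m => ?_
  rw [le_himp_iff]
  have h1 : x ⊓ (⨅ k' : ℕ, ⨅ _ : k'' ≤ k', ⨅ m : ℕ, (b (k', m) ⇨ ivl T k' m)) ≤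
      (b (k', m) ⇨ ivl T k' m) := inf_le_right.trans ((iInf₂_le k' hk').trans (iInf_le _ m))
  have h2 : x ⊓ (⨅ k' : ℕ, ⨅ _ : k'' ≤ k', ⨅ m : ℕ, (b (k', m) ⇨ ivl T k' m)) ⊓ b' (k', m) ≤
      b (k', m) := by
    have h3 : x ⊓ b' (k', m) ≤ b (k', m) := by
      rw [← h]
      exact inf_le_right
    exact (le_inf (inf_le_left.trans inf_le_left) inf_le_right).trans h3
  exact (le_inf (inf_le_left.trans h1) h2).trans (himp_inf_le)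

/-- The tower lemma. -/
theorem tower {w : B} (T : K → ℕ → B) (ρ : K → K) (hT : ∀ η v, T η v ∈ BD (Dz π (ρ η)))
    (hinf : ∀ η, w ≤ binf (T η)) (hTT : ∀ η δ, ρ η ≤ δ → w ≤ bsub (T δ) (T η)) :
    ∃ ζ, ∀ η, ∃ y : ℕ → B, (∀ v, y v ∈ BD (Dz π ζ)) ∧ w ≤ binf y ⊓ bsub y (T η) := by
  by_contra hcon
  push Not at hcon
  choose g hg using hcon
  obtain ⟨ζ0, hζ0⟩ := H.exists_level Λ (fun _ : Unit => w)
  have hζ0 : w ∈ BD (Dz π ζ0) := hζ0 ()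
  set h : K → K := fun ζ => max ζ (max (ρ ζ) (ρ (g ζ))) with hh
  have hh1 : ∀ ζ, ζ ≤ h ζ := fun ζ => le_max_left _ _
  have hh2 : ∀ ζ, ρ ζ ≤ h ζ := fun ζ => (le_max_left _ _).trans (le_max_right _ _)
  have hh3 : ∀ ζ, ρ (g ζ) ≤ h ζ := fun ζ => (le_max_right _ _).trans (le_max_right _ _)
  set Q : K → K → Prop := fun k δ => ∃ η : Ω → K, (∀ ν, k ≤ η ν) ∧
    (∀ ν ν', ν' < ν → h (η ν') ≤ η ν) ∧ ∀ ν, h (η ν) ≤ δ with hQdef
  have hQ : ∀ k, ∃ δ, k ≤ δ ∧ Q k δ := by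
    intro k
    obtain ⟨η, κ, h1, h2⟩ := Λ.exists_seq h (fun _ _ => True) (fun k => ⟨k, le_rfl, trivial⟩) k
    obtain ⟨δ, hδ⟩ := Λ.bdd (fun ν => h (η ν))
    obtain ⟨ν⟩ := Λ.nonempty_omega
    have h3 : ∀ ν, k ≤ η ν := fun ν => (h1 ν).1.trans (h1 ν).2.1
    exact ⟨δ, ((h3 ν).trans (hh1 _)).trans (hδ ν).le, η, h3,
      fun ν ν' hlt => (h2 ν ν' hlt).trans (h1 ν).2.1, fun ν => (hδ ν).le⟩
  obtain ⟨η', κ, hκ1, hκ2⟩ := Λ.exists_seq h Q hQ ζ0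
  -- general facts about closed sequences
  have hgen : ∀ η : Ω → K, (∀ ν ν', ν' < ν → h (η ν') ≤ η ν) →
      (∀ ν v, T (η ν) v ∈ BD (⋃ ν, Dz π (η ν))) ∧
      (∀ ν ν', ν < ν' → w ≤ bsub (T (η ν')) (T (η ν))) ∧ (∀ ν ν', ν < ν' → η ν ≤ η ν') := by
    intro η hη
    refine ⟨fun ν v => ?_, fun ν ν' hlt => hTT _ _ ((hh2 _).trans (hη _ _ hlt)),
      fun ν ν' hlt => (hh1 _).trans (hη _ _ hlt)⟩
    obtain ⟨ν', hν'⟩ := Λ.exists_gt ν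
    refine H.BD_mono ?_ (hT (η ν) v)
    exact (Dz_mono ((hh2 _).trans (hη _ _ hν'))).trans (subset_iUnion (fun ν => Dz π (η ν)) ν')
  have hη' : ∀ ν ν', ν' < ν → h (η' ν') ≤ η' ν := fun ν ν' hlt =>
    (hκ2 ν ν' hlt).trans (hκ1 ν).2.1
  obtain ⟨g1, g2, g3⟩ := hgen η' hη'
  obtain ⟨δ', hδ'⟩ := Λ.bdd (fun ν => h (η' ν))
  have hDl := Λ.lower_iUnion η'
  obtain ⟨ν0⟩ := Λ.nonempty_omega
  have hwD : ∀ η : Ω → K, (∀ ν, ζ0 ≤ η ν) → w ∈ BD (⋃ ν, Dz π (η ν)) := fun η hη =>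
    H.BD_mono ((Dz_mono (hη ν0)).trans (subset_iUnion (fun ν => Dz π (η ν)) ν0)) hζ0
  obtain ⟨b, hb1, hb2⟩ := H.mixing hDl (hwD η' fun ν => (hκ1 ν).1.trans (hκ1 ν).2.1)
    (fun b : ℕ × ℕ → B => (⨅ k, ⨆ m, b (k, m)) ⊓ ⨅ ν, gap b (T (η' ν)))
    (by
      intro y y' x hxy
      refine le_inf (le_iInf fun k => ?_) (le_iInf fun ν => ?_)
      · have h1 : x ⊓ ((⨅ k, ⨆ m, y (k, m)) ⊓ ⨅ ν, gap y (T (η' ν))) ≤ x ⊓ ⨆ m, y (k, m) :=
          inf_le_inf_left _ (inf_le_left.trans (iInf_le _ k))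
        refine h1.trans ?_
        rw [inf_iSup_eq]
        refine iSup_mono fun m => ?_
        rw [hxy]
        exact inf_le_right
      · have h1 : x ⊓ ((⨅ k, ⨆ m, y (k, m)) ⊓ ⨅ ν, gap y (T (η' ν))) ≤ x ⊓ gap y (T (η' ν)) :=
          inf_le_inf_left _ (inf_le_right.trans (iInf_le _ ν))
        exact h1.trans (gap_congr hxy))
    (H.claim1_local hDl Λ.unc Λ.cnt (fun ν => T (η' ν)) g1 g2 (T δ') (hinf δ')
      (fun ν => hTT _ _ ((hh2 _).trans (hδ' ν).le)))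
  obtain ⟨ν1, hν1⟩ := H.level_of_union Λ η' g3 b hb1
  obtain ⟨ν2, hν2⟩ := Λ.exists_gt ν1
  obtain ⟨η, hη1, hη2, hη3⟩ := (hκ1 ν2).2.2
  obtain ⟨f1, f2, f3⟩ := hgen η hη2
  have hDl' := Λ.lower_iUnion η
  have hbη : ∀ n, b n ∈ BD (⋃ ν, Dz π (η ν)) := fun n => by
    refine H.BD_mono ?_ (hν1 n)
    refine (Dz_mono ?_).trans (subset_iUnion (fun ν => Dz π (η ν)) ν0)
    exact ((hh1 _).trans (hκ2 _ _ hν2)).trans (hη1 ν0)
  obtain ⟨y, hy1, hy2⟩ := H.mixing hDl' (hwD η fun ν => (hκ1 ν2).1.trans (hη1 ν))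
    (fun y : ℕ → B => binf y ⊓ ⨅ ν, bsub y (T (η ν)))
    (by
      intro y y' x hxy
      refine le_inf ?_ (le_iInf fun ν => ?_)
      · exact (inf_le_inf_left x inf_le_left).trans (binf_congr hxy)
      · exact (inf_le_inf_left x (inf_le_right.trans (iInf_le _ ν))).trans (bsub_congr_left hxy))
    (H.claim3_local hDl' Λ.unc Λ.cnt (fun ν => T (η ν)) f1 f2 (T (η' ν2))
      (fun ν => hTT _ _ ((hh2 _).trans (hη3 ν))) b hbη (hb2.trans inf_le_left)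
      (hb2.trans (inf_le_right.trans (iInf_le _ ν2))))
  obtain ⟨ν3, hν3⟩ := H.level_of_union Λ η f3 y hy1
  obtain ⟨ν4, hν4⟩ := Λ.exists_gt ν3
  refine hg (η ν3) y hν3 (le_inf (hy2.trans inf_le_left) ?_)
  have h1 : w ≤ bsub y (T (η ν4)) := hy2.trans (inf_le_right.trans (iInf_le _ ν4))
  have h2 : w ≤ bsub (T (η ν4)) (T (g (η ν3))) := hTT _ _ ((hh3 _).trans (hη2 _ _ hν4))
  exact (le_inf h1 h2).trans bsub_trans

end IsIter

end Pool.Agent.Lib.P6aeb5f
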